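import Pool.Agent.H82.ZO.Main

/-! # Zero-one law in short intervals: all the lengths at one time -/

set_option autoImplicit false

namespace Pool.Agent.H82.ZO

open Finset
open Pool.Agent.Q158.Pair (T)

open Classical in
/-- the window `[x, x + H)` is nearly full at `v` -/
def NF (η : ℝ) (t H : ℕ) (v x : ℤ) : Prop :=
  (1 - η) * H ≤ (((range H).filter (fun h : ℕ => T^[t] (x + h) = v)).card : ℝ)

theorem card_split (t H : ℕ) (v x : ℤ) :
    (((range H).filter (fun h : ℕ => T^[t] (x + h) = v)).card : ℝ) +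
      ((range H).filter (fun h : ℕ => ¬ T^[t] (x + h) = v)).card = H := by
  have h := card_filter_add_card_filter_not (s := range H) (fun h : ℕ => T^[t] (x + h) = v)
  rw [card_range] at h
  exact_mod_cast h

theorem NF_iff (η : ℝ) (t H : ℕ) (v x : ℤ) :
    NF η t H v x ↔ (((range H).filter (fun h : ℕ => ¬ T^[t] (x + h) = v)).card : ℝ) ≤ η * H := by
  classical
  have h := card_split t H v x
  have e : (((range H).filter (fun h : ℕ => T^[t] (x + h) = v)).card : ℝ) =
      H - ((range H).filter (fun h : ℕ => ¬ T^[t] (x + h) = v)).card := by linarith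
  unfold NF
  rw [filter_congr_decidable, e]
  constructor <;> intro h1 <;> linarith

/-- a long interval -/
theorem NF_long {η : ℝ} {t H H' : ℕ} (hη : 0 ≤ η) (h1 : H ≤ H') (h2 : H' ≤ 2 * H) {v x : ℤ} (h : NF (η / 4) t H' v x) :
    NF η t H v x := by
  rw [NF_iff] at h ⊢
  have h3 : ((range H).filter (fun h : ℕ => ¬ T^[t] (x + h) = v)) ⊆
      ((range H').filter (fun h : ℕ => ¬ T^[t] (x + h) = v)) := by
    apply filter_subset_filter
    exact range_subset_range.2 h1
  have h4 : (((range H).filter (fun h : ℕ => ¬ T^[t] (x + h) = v)).card : ℝ) ≤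
      ((range H').filter (fun h : ℕ => ¬ T^[t] (x + h) = v)).card := by exact_mod_cast card_le_card h3
  have h5 : (H' : ℝ) ≤ 2 * H := by exact_mod_cast h2
  have h6 : η / 4 * H' ≤ η / 4 * (2 * H) := mul_le_mul_of_nonneg_left h5 (by linarith)
  have h7 : 0 ≤ η * (H : ℝ) := by positivity
  linarith

open Classical in
/-- the short intervals in a long interval -/
theorem NF_short {η : ℝ} {t H H' : ℕ} (hη : 0 < η) (h1 : 1 ≤ H) (h2 : 2 * H ≤ H') {v x : ℤ} (h : NF (η / 4) t H' v x) :
    (H' : ℝ) / 4 ≤ (((range H').filter (fun j : ℕ => NF η t H v (x + j))).card : ℝ) := by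
  have hHr : (0 : ℝ) < H := by exact_mod_cast (by omega : 0 < H)
  rw [NF_iff] at h
  -- the bad subintervals
  set B : Finset ℕ := (range (H' - H)).filter (fun j : ℕ => ¬ NF η t H v (x + j)) with hB
  set D : Finset ℕ := (range H').filter (fun h : ℕ => ¬ T^[t] (x + h) = v) with hD
  have hb : (B.card : ℝ) * (η * H) ≤ H * D.card := by
    have h3 : ∀ j ∈ B, η * H ≤ (((range H).filter (fun i : ℕ => ¬ T^[t] (x + j + i) = v)).card : ℝ) := by
      intro j hj
      rw [hB, mem_filter, NF_iff] at hj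
      push Not at hj
      exact hj.2.le
    have h4 := sum_le_sum h3
    rw [sum_const, nsmul_eq_mul] at h4
    refine h4.trans ?_
    have h5 : ∀ j ∈ B, (((range H).filter (fun i : ℕ => ¬ T^[t] (x + j + i) = v)).card : ℝ) =
        ∑ i ∈ range H, if j + i ∈ D then (1 : ℝ) else 0 := by
      intro j hj
      rw [hB, mem_filter, mem_range] at hj
      rw [card_filter]
      push_cast
      apply sum_congr rfl
      intro i hi
      rw [mem_range] at hi
      have e : x + (j : ℤ) + i = x + ((j + i : ℕ) : ℤ) := by push_cast; ring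
      apply if_congr _ rfl rfl
      rw [e, hD, mem_filter, mem_range]
      have : j + i < H' := by omega
      exact ⟨fun h => ⟨this, h⟩, fun h => h.2⟩
    rw [sum_congr rfl h5, sum_comm]
    have h6 : ∀ i ∈ range H, ∑ j ∈ B, (if j + i ∈ D then (1 : ℝ) else 0) ≤ D.card := by
      intro i _
      rw [← sum_filter, sum_const, nsmul_eq_mul, mul_one]
      have : (B.filter (fun j => j + i ∈ D)).card ≤ D.card := by
        apply card_le_card_of_injOn (fun j => j + i)
        · intro j hj
          rw [mem_coe, mem_filter] at hj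
          exact hj.2
        · intro j _ j' _ hjj
          exact Nat.add_right_cancel hjj
      exact_mod_cast this
    refine (sum_le_sum h6).trans (le_of_eq ?_)
    rw [sum_const, card_range, nsmul_eq_mul]
  have hBc : (B.card : ℝ) ≤ H' / 4 := by
    have h3 : (B.card : ℝ) * (η * H) ≤ (H' / 4) * (η * H) := by
      refine hb.trans ?_
      have : (H : ℝ) * D.card ≤ H * (η / 4 * H') := mul_le_mul_of_nonneg_left h hHr.le
      refine this.trans (le_of_eq ?_)
      ring
    exact le_of_mul_le_mul_right h3 (by positivity)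
  have hG' : ((H' - H : ℕ) : ℝ) - B.card ≤ ((range H').filter (fun j : ℕ => NF η t H v (x + j))).card := by
    have h3 : ((range (H' - H)).filter (fun j : ℕ => NF η t H v (x + j))).card + B.card = H' - H := by
      have := card_filter_add_card_filter_not (s := range (H' - H)) (fun j : ℕ => NF η t H v (x + j))
      rw [card_range] at this
      rw [hB]
      exact this
    have h4 : ((range (H' - H)).filter (fun j : ℕ => NF η t H v (x + j))).card ≤
        ((range H').filter (fun j : ℕ => NF η t H v (x + j))).card := by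
      apply card_le_card
      apply filter_subset_filter
      exact range_subset_range.2 (by omega)
    have h5 : H' - H ≤ ((range H').filter (fun j : ℕ => NF η t H v (x + j))).card + B.card := by
      rw [← h3]
      exact Nat.add_le_add_right h4 _
    have : ((H' - H : ℕ) : ℝ) ≤ ((range H').filter (fun j : ℕ => NF η t H v (x + j))).card + B.card := by
      exact_mod_cast h5
    linarith
  rw [Nat.cast_sub (by omega)] at hG'
  have h3 : 2 * (H : ℝ) ≤ H' := by exact_mod_cast h2
  linarith

theorem mem_Win {f : ℤ → ℝ} {η : ℝ} {t H : ℕ} {a : ℤ} {L : ℕ} {x : ℤ} :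
    x ∈ Win f η t H a L ↔ x ∈ Ico a (a + (L : ℤ)) ∧ ∃ v : ℤ, f v = 1 ∧ NF η t H v x := by
  classical
  unfold Win NF
  rw [mem_filter]

/-- from one length to the shorter ones -/
theorem Win_short {f : ℤ → ℝ} {η : ℝ} {t H H' : ℕ} {a : ℤ} {L : ℕ} (hη : 0 < η) (h1 : 1 ≤ H) (h2 : H ≤ H') :
    ((Win f (η / 4) t H' a L).card : ℝ) / 4 - H' ≤ (Win f η t H a L).card := by
  classical
  rcases le_or_gt H' (2 * H) with h3 | h3
  · have h4 : Win f (η / 4) t H' a L ⊆ Win f η t H a L := by
      intro x hx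
      rw [mem_Win] at hx ⊢
      obtain ⟨hx1, v, hv, hx2⟩ := hx
      exact ⟨hx1, v, hv, NF_long hη.le h2 h3 hx2⟩
    have h5 : ((Win f (η / 4) t H' a L).card : ℝ) ≤ (Win f η t H a L).card := by exact_mod_cast card_le_card h4
    have h6 : (0 : ℝ) ≤ (Win f (η / 4) t H' a L).card := Nat.cast_nonneg _
    have h7 : (0 : ℝ) ≤ H' := Nat.cast_nonneg _
    linarith
  · have hH' : (0 : ℝ) < H' := by exact_mod_cast (by omega : 0 < H')
    set W := Win f (η / 4) t H' a L with hW
    -- the good `y` in the longer range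
    set G : Finset ℤ := Win f η t H a (L + H') with hG
    have h4 : ∀ x ∈ W, (H' : ℝ) / 4 ≤ ∑ j ∈ range H', if x + (j : ℤ) ∈ G then (1 : ℝ) else 0 := by
      intro x hx
      rw [hW, mem_Win] at hx
      obtain ⟨hx1, v, hv, hx2⟩ := hx
      refine (NF_short hη h1 (by omega) hx2).trans ?_
      rw [← sum_filter, sum_const, nsmul_eq_mul, mul_one]
      have : ((range H').filter (fun j : ℕ => NF η t H v (x + j))).card ≤
          ((range H').filter (fun j : ℕ => x + (j : ℤ) ∈ G)).card := by
        apply card_le_card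
        intro j hj
        rw [mem_filter, mem_range] at hj
        rw [mem_filter, mem_range]
        refine ⟨hj.1, ?_⟩
        rw [hG, mem_Win]
        rw [mem_Ico] at hx1 ⊢
        push_cast
        exact ⟨by omega, v, hv, hj.2⟩
      exact_mod_cast this
    have h5 := sum_le_sum h4
    rw [sum_const, nsmul_eq_mul, sum_comm] at h5
    have h6 : ∀ j ∈ range H', ∑ x ∈ W, (if x + (j : ℤ) ∈ G then (1 : ℝ) else 0) ≤ G.card := by
      intro j _
      rw [← sum_filter, sum_const, nsmul_eq_mul, mul_one]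
      have : (W.filter (fun x => x + (j : ℤ) ∈ G)).card ≤ G.card := by
        apply card_le_card_of_injOn (fun x => x + (j : ℤ))
        · intro x hx
          rw [mem_coe, mem_filter] at hx
          exact hx.2
        · intro x _ x' _ hxx
          have : x + (j : ℤ) = x' + j := hxx
          omega
      exact_mod_cast this
    have h7 := h5.trans (sum_le_sum h6)
    rw [sum_const, card_range, nsmul_eq_mul] at h7
    have h8 : (W.card : ℝ) / 4 ≤ G.card := by
      have : (H' : ℝ) * (W.card / 4) ≤ H' * G.card := by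
        refine le_trans (le_of_eq ?_) h7
        ring
      exact le_of_mul_le_mul_left this hH'
    have h9 : G ⊆ Win f η t H a L ∪ Ico (a + (L : ℤ)) (a + L + H') := by
      intro y hy
      rw [hG, mem_Win, mem_Ico] at hy
      rw [mem_union, mem_Win, mem_Ico, mem_Ico]
      push_cast at hy
      by_cases h : y < a + L
      · left
        exact ⟨⟨hy.1.1, h⟩, hy.2⟩
      · right
        omega
    have h10 : (G.card : ℝ) ≤ (Win f η t H a L).card + H' := by
      have h11 := (card_le_card h9).trans (card_union_le _ _)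
      have h12 : ((Ico (a + (L : ℤ)) (a + L + H')).card : ℝ) = H' := card_Ico' (a + L) H'
      have h13 : (G.card : ℝ) ≤ (Win f η t H a L).card + (Ico (a + (L : ℤ)) (a + L + H')).card := by
        exact_mod_cast h11
      linarith
    linarith

/-- the main theorem, all the lengths -/
theorem zoAll (δ θ η : ℝ) (hδ : 0 < δ) (hθ0 : 0 < θ) (hθ1 : θ < 1) (hη0 : 0 < η) :
    ∃ p : ℝ, 0 < p ∧ ∃ N₀ : ℕ, ∀ N : ℕ, N₀ ≤ N → ∃ t : ℕ, (t : ℝ) ≤ 8 * Real.log N ∧
      ∀ (a : ℤ) (f : ℤ → ℝ), Ind f → (∀ x, f (T x) = f x) → δ * N ≤ ∑ x ∈ Ico a (a + (N : ℤ)), f x →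
      ∀ H : ℕ, 1 ≤ H → (H : ℝ) ≤ (N : ℝ) ^ θ → p * N ≤ ((Win f η t H a N).card : ℝ) := by
  set η' : ℝ := min η (1 / 2) with hη'
  have hη'0 : 0 < η' := by positivity
  have hη'1 : η' ≤ 1 / 2 := min_le_right _ _
  obtain ⟨p, hp, H₀, h⟩ := zo δ θ (η' / 4) hδ hθ0 hθ1 (by positivity) (by linarith)
  have h1θ : 0 < 1 - θ := by linarith
  -- large `N`
  have hlim1 : Filter.Tendsto (fun N : ℕ => (N : ℝ) ^ θ) Filter.atTop Filter.atTop :=
    (tendsto_rpow_atTop hθ0).comp tendsto_natCast_atTop_atTop
  have hlim2 : Filter.Tendsto (fun N : ℕ => (N : ℝ) ^ (1 - θ)) Filter.atTop Filter.atTop :=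
    (tendsto_rpow_atTop h1θ).comp tendsto_natCast_atTop_atTop
  have hev := (hlim1.eventually_ge_atTop ((H₀ : ℝ) + 1)).and ((hlim2.eventually_ge_atTop (8 / p)).and
    (Filter.eventually_ge_atTop 1))
  rw [Filter.eventually_atTop] at hev
  obtain ⟨N₀, hN₀⟩ := hev
  refine ⟨p / 8, by positivity, N₀, fun N hN => ?_⟩
  obtain ⟨g1, g2, g3⟩ := hN₀ N hN
  have hNr : (1 : ℝ) ≤ N := by exact_mod_cast g3
  set H' : ℕ := ⌊(N : ℝ) ^ θ⌋₊ with hH'
  have hH'1 : (H' : ℝ) ≤ (N : ℝ) ^ θ := Nat.floor_le (by positivity)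
  have hH'2 : H₀ ≤ H' := by
    rw [hH']
    apply Nat.le_floor
    linarith
  have hH'3 : 1 ≤ H' := by
    rw [hH']
    apply Nat.le_floor
    rw [Nat.cast_one]
    have : (0 : ℝ) ≤ H₀ := Nat.cast_nonneg _
    linarith
  obtain ⟨t, ht, h2⟩ := h H' hH'2
  refine ⟨t, ht.trans ?_, fun a f hf hT hfδ H hH1 hH2 => ?_⟩
  · have h3 : Real.log H' ≤ Real.log N := by
      apply Real.log_le_log (by exact_mod_cast hH'3)
      refine hH'1.trans ?_
      calc (N : ℝ) ^ θ ≤ (N : ℝ) ^ (1 : ℝ) := Real.rpow_le_rpow_of_exponent_le hNr hθ1.le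
        _ = N := Real.rpow_one _
    linarith
  · have h3 := h2 N hH'1 a f hf hT hfδ
    have h4 : H ≤ H' := by
      rw [hH']
      exact Nat.le_floor hH2
    have h5 := Win_short (f := f) (t := t) (a := a) (L := N) hη'0 hH1 h4
    have h6 : (H' : ℝ) ≤ p / 8 * N := by
      refine hH'1.trans ?_
      have e : (N : ℝ) = (N : ℝ) ^ θ * (N : ℝ) ^ (1 - θ) := by
        rw [← Real.rpow_add (by linarith)]
        norm_num
      have h7 : 1 ≤ p / 8 * (N : ℝ) ^ (1 - θ) := by
        rw [div_le_iff₀ hp] at g2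
        linarith
      calc (N : ℝ) ^ θ = (N : ℝ) ^ θ * 1 := (mul_one _).symm
        _ ≤ (N : ℝ) ^ θ * (p / 8 * (N : ℝ) ^ (1 - θ)) := mul_le_mul_of_nonneg_left h7 (by positivity)
        _ = p / 8 * ((N : ℝ) ^ θ * (N : ℝ) ^ (1 - θ)) := by ring
        _ = p / 8 * N := by rw [← e]
    have h7 : (Win f η' t H a N).card ≤ (Win f η t H a N).card := by
      apply card_le_card
      intro x hx
      rw [mem_Win] at hx ⊢
      obtain ⟨hx1, v, hv, hx2⟩ := hx
      refine ⟨hx1, v, hv, ?_⟩
      rw [NF_iff] at hx2 ⊢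
      refine hx2.trans (mul_le_mul_of_nonneg_right (min_le_left _ _) (Nat.cast_nonneg H))
    have h8 : ((Win f η' t H a N).card : ℝ) ≤ (Win f η t H a N).card := by exact_mod_cast h7
    linarith

end Pool.Agent.H82.ZO
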