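import Pool.Agent.H82.ZO.Pre

/-! # Zero-one law in short intervals: the averages -/

set_option autoImplicit false

namespace Pool.Agent.H82.ZO

open Finset
open Pool.Agent.Q74.KP
open Pool.Agent.Q74.SF
open Pool.Agent.Q74.BH
open Pool.Agent.Q74.AR (oc bE bE_mono bE_mul bE_sq bE_const)
open Pool.Agent.Q158.Pair (T)
open Pool.Agent.Q158.Col4 (cI)

variable {k : ℕ}

/-- the error of the averages -/
noncomputable def err (k : ℕ) (ε₁ : ℝ) : ℝ := 2 ^ k * (4 * k + 3) * ε₁ + k * ε₁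

/-- the state at the time `m`, the coincidences at the time `m + r1` and the number of odd steps between the times
`m + r1` and `m + r1 + r2` -/
theorem E12 {ε₁ K : ℝ} {H m μ r1 r2 L : ℕ} (P : Pk ε₁ K H m μ) (hK : 0 < K) (hKe : 1 / K ^ 2 = ε₁)
    (hL : 1 ≤ L) (hsz : ∀ o₀ ∈ Typ K m, (2 : ℝ) ^ m * (3 ^ μ * 2 ^ (r1 + r2)) / 3 ^ o₀ ≤ ε₁ * L) (a : ℤ)
    {G0 : ℤ → ℝ} (h0 : ∀ l, 0 ≤ G0 l) (h1 : ∀ l, G0 l ≤ 1) {φ : ℕ → ℝ} (hφ0 : ∀ j, 0 ≤ φ j) (hφ1 : ∀ j, φ j ≤ 1)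
    (hin : ∀ o ∈ Fintype.piFinset (fun _ : Fin (k + 1) => Typ K m), ∀ x : ℤ,
      ∀ z ∈ Fintype.piFinset (fun i => Jw m (o i) H x), ∀ o₀ : ℕ, (∀ i, o₀ ≤ o i) →
      |(∑ w ∈ range (2 ^ (r1 + r2)), Ph (fun _ => (0 : Fin (k + 1))) (fun z => G0 (z 0))
          (fut r1 o (fun i => z i + 3 ^ (o i - o₀) * (3 ^ μ * w : ℕ))) *
        φ (oc r2 (T^[r1] (z 0 + 3 ^ (o 0 - o₀) * (3 ^ μ * w : ℕ))))) / 2 ^ (r1 + r2) -
      CG (Fm (fun _ => (0 : Fin (k + 1))) (fun z => G0 (z 0))) r1 (fun i => (o i : ℤ)) * bE r2 φ| ≤ ε₁) :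
    |(∑ x ∈ Ico a (a + L), ∑ h : Fin (k + 1) → Fin H, Ev G0 m r1 x h * φ (oc r2 (T^[r1] (Z0 m x h 0)))) /
        (L * (H : ℝ) ^ (k + 1)) - WW k m r1 G0 * bE r2 φ| ≤ err (k + 1) ε₁ := by
  have hb0 : 0 ≤ bE r2 φ := by
    have h := bE_mono r2 (fun _ => (0 : ℝ)) φ hφ0
    rwa [bE_const] at h
  have hb1 : bE r2 φ ≤ 1 := by
    have h := bE_mono r2 φ (fun _ => (1 : ℝ)) hφ1
    rwa [bE_const] at h
  have hG : ∀ z : Fin (k + 1) → ℤ, |(fun z : Fin (k + 1) → ℤ => G0 (z 0)) z| ≤ 1 := fun z => G_abs h0 h1 z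
  have hCG := CG_abs (k := k + 1) (Fm_abs (fun _ => (0 : Fin (k + 1))) hG) r1
  have hprod : ∀ x y : ℝ, |x| ≤ 1 → 0 ≤ y → y ≤ 1 → |x * y| ≤ 1 := by
    intro x y hx hy0 hy1
    rw [abs_mul, abs_of_nonneg hy0]
    calc |x| * y ≤ 1 * 1 := mul_le_mul hx hy1 hy0 zero_le_one
      _ = 1 := one_mul 1
  have hgen := gen P mass Pool.Agent.Q195.BH.ProdK.prodK Pool.Agent.Q241.BH.shift hL hsz a
    (fun (o : Fin (k + 1) → ℕ) (z : Fin (k + 1) → ℤ) =>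
      Ph (fun _ => (0 : Fin (k + 1))) (fun z => G0 (z 0)) (fut r1 o z) * φ (oc r2 (T^[r1] (z 0))))
    (fun o z => hprod _ _ (Ph_abs _ hG _) (hφ0 _) (hφ1 _))
    (fun o => CG (Fm (fun _ => (0 : Fin (k + 1))) (fun z => G0 (z 0))) r1 (fun i => (o i : ℤ)) * bE r2 φ)
    (fun o => hprod _ _ (hCG _) hb0 hb1) hin
  have hB := Pool.Agent.Q195.BH.Binom.binom (k + 1) m K hK
    (CG (Fm (fun _ => (0 : Fin (k + 1))) (fun z => G0 (z 0))) r1) (fun z => hCG z)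
  have hkK : ((k + 1 : ℕ) : ℝ) / K ^ 2 = (k + 1 : ℕ) * ε₁ := by rw [← hKe]; ring
  rw [hkK] at hB
  have e1 : ∑ o ∈ Fintype.piFinset (fun _ : Fin (k + 1) => Typ K m), (∏ i, (m.choose (o i) : ℝ) / 2 ^ m) *
      (CG (Fm (fun _ => (0 : Fin (k + 1))) (fun z => G0 (z 0))) r1 (fun i => (o i : ℤ)) * bE r2 φ) =
      (∑ o ∈ Fintype.piFinset (fun _ : Fin (k + 1) => Typ K m), (∏ i, (m.choose (o i) : ℝ) / 2 ^ m) *
      CG (Fm (fun _ => (0 : Fin (k + 1))) (fun z => G0 (z 0))) r1 (fun i => (o i : ℤ))) * bE r2 φ := by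
    rw [sum_mul]
    exact sum_congr rfl fun o _ => by ring
  rw [e1] at hgen
  have e2 : act (k + 1) (PP (k + 1) ^ m) (CG (Fm (fun _ => (0 : Fin (k + 1))) (fun z => G0 (z 0))) r1) 0 =
      WW k m r1 G0 := rfl
  rw [e2] at hB
  have hB' : |(∑ o ∈ Fintype.piFinset (fun _ : Fin (k + 1) => Typ K m), (∏ i, (m.choose (o i) : ℝ) / 2 ^ m) *
      CG (Fm (fun _ => (0 : Fin (k + 1))) (fun z => G0 (z 0))) r1 (fun i => (o i : ℤ))) * bE r2 φ -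
      WW k m r1 G0 * bE r2 φ| ≤ (k + 1 : ℕ) * ε₁ := by
    rw [← sub_mul, abs_mul, abs_of_nonneg hb0]
    calc _ ≤ ((k + 1 : ℕ) * ε₁) * 1 := mul_le_mul hB hb1 hb0 ((abs_nonneg _).trans hB)
      _ = _ := mul_one _
  have h3 := abs_sub_le ((∑ x ∈ Ico a (a + L), ∑ h : Fin (k + 1) → Fin H,
      Ev G0 m r1 x h * φ (oc r2 (T^[r1] (Z0 m x h 0)))) / (L * (H : ℝ) ^ (k + 1)))
    ((∑ o ∈ Fintype.piFinset (fun _ : Fin (k + 1) => Typ K m), (∏ i, (m.choose (o i) : ℝ) / 2 ^ m) *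
      CG (Fm (fun _ => (0 : Fin (k + 1))) (fun z => G0 (z 0))) r1 (fun i => (o i : ℤ))) * bE r2 φ)
    (WW k m r1 G0 * bE r2 φ)
  have hgen' : |(∑ x ∈ Ico a (a + L), ∑ h : Fin (k + 1) → Fin H,
      Ev G0 m r1 x h * φ (oc r2 (T^[r1] (Z0 m x h 0)))) / (L * (H : ℝ) ^ (k + 1)) -
      (∑ o ∈ Fintype.piFinset (fun _ : Fin (k + 1) => Typ K m), (∏ i, (m.choose (o i) : ℝ) / 2 ^ m) *
      CG (Fm (fun _ => (0 : Fin (k + 1))) (fun z => G0 (z 0))) r1 (fun i => (o i : ℤ))) * bE r2 φ| ≤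
      2 ^ (k + 1) * (4 * (k + 1 : ℕ) + 3) * ε₁ := hgen
  unfold err
  linarith

end Pool.Agent.H82.ZO
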