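import Pool.Agent.H82.ZO.Gen
import Pool.Graph.R_pool_sql_team_seeded_3997aac3.Q190.BH.Merge

/-! # Zero-one law in short intervals: many blocks have one fate in a range of levels -/

set_option autoImplicit false

namespace Pool.Agent.H82.ZO

open Finset
open Pool.Agent.Q74.KP
open Pool.Agent.Q74.SF
open Pool.Agent.Q74.BH
open Pool.Agent.Q74.AR (oc oc_succ)
open Pool.Agent.Q158.Pair (T)
open Pool.Agent.Q158.Col4 (cI)

variable {k : ℕ}

/-- a function with values `0`, `1` -/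
def Ind {α : Type} (f : α → ℝ) : Prop := ∀ x, f x = 0 ∨ f x = 1

theorem Ind.nonneg {α : Type} {f : α → ℝ} (h : Ind f) (x : α) : 0 ≤ f x := by
  rcases h x with h | h <;> (rw [h]; try norm_num)

theorem Ind.le_one {α : Type} {f : α → ℝ} (h : Ind f) (x : α) : f x ≤ 1 := by
  rcases h x with h | h <;> (rw [h]; try norm_num)

theorem Ind.abs {α : Type} {f : α → ℝ} (h : Ind f) (x : α) : |f x| ≤ 1 := by
  rw [abs_of_nonneg (h.nonneg x)]
  exact h.le_one x

theorem f_iter {f : ℤ → ℝ} (hT : ∀ x, f (T x) = f x) (t : ℕ) : ∀ x, f (T^[t] x) = f x := by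
  induction t with
  | zero => intro x; rfl
  | succ t ih =>
    intro x
    rw [Function.iterate_succ_apply, ih, hT]

/-- the share of the block `[X, X + H)` in the range `χ` of the number of odd steps -/
noncomputable def Bx (χ : ℕ → ℝ) (H m : ℕ) (X : ℤ) : ℝ := (∑ y ∈ Ico X (X + H), χ (oc m y)) / H

/-- the share of the elements of the block with fate `f` in the range `χ` -/
noncomputable def sx (χ : ℕ → ℝ) (f : ℤ → ℝ) (H m : ℕ) (X : ℤ) : ℝ := (∑ y ∈ Ico X (X + H), χ (oc m y) * f y) / H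

/-- the binomial weight of the range -/
noncomputable def Bw (χ : ℕ → ℝ) (K : ℝ) (m : ℕ) : ℝ := ∑ o ∈ Typ K m, (m.choose o : ℝ) / 2 ^ m * χ o

theorem Bw_nonneg {χ : ℕ → ℝ} (hχ : Ind χ) (K : ℝ) (m : ℕ) : 0 ≤ Bw χ K m :=
  sum_nonneg fun o _ => mul_nonneg (by positivity) (hχ.nonneg o)

theorem Bw_le_one {χ : ℕ → ℝ} (hχ : Ind χ) (K : ℝ) (m : ℕ) : Bw χ K m ≤ 1 := by
  refine le_trans (sum_le_sum fun o _ => ?_) (bin_sum K m)
  calc (m.choose o : ℝ) / 2 ^ m * χ o ≤ (m.choose o : ℝ) / 2 ^ m * 1 :=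
        mul_le_mul_of_nonneg_left (hχ.le_one o) (by positivity)
    _ = _ := mul_one _

theorem sx_nonneg {χ : ℕ → ℝ} (hχ : Ind χ) {f : ℤ → ℝ} (hf : Ind f) (H m : ℕ) (X : ℤ) : 0 ≤ sx χ f H m X :=
  div_nonneg (sum_nonneg fun y _ => mul_nonneg (hχ.nonneg _) (hf.nonneg _)) (by positivity)

theorem sx_le_Bx {χ : ℕ → ℝ} (hχ : Ind χ) {f : ℤ → ℝ} (hf : Ind f) (H m : ℕ) (X : ℤ) :
    sx χ f H m X ≤ Bx χ H m X := by
  apply div_le_div_of_nonneg_right _ (by positivity)
  apply sum_le_sum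
  intro y _
  calc χ (oc m y) * f y ≤ χ (oc m y) * 1 := mul_le_mul_of_nonneg_left (hf.le_one _) (hχ.nonneg _)
    _ = _ := mul_one _

/-- the law of the number of odd steps in every block -/
theorem Bx_near {ε₁ K : ℝ} {H m μ : ℕ} (P : Pk ε₁ K H m μ) (hM : S_Mass) {χ : ℕ → ℝ} (hχ : Ind χ) (X : ℤ) :
    |Bx χ H m X - Bw χ K m| ≤ 3 * ε₁ := by
  obtain ⟨hH, hε₁0, hε₁h, hTV, hlnT, hTne⟩ := P
  have h1 := hTV X (fun o _ => χ o) (fun o _ => hχ.abs o)
  have h2 : |∑ o ∈ Typ K m, ∑ z ∈ Jw m o H X, den m μ H o z * χ o - Bw χ K m| ≤ ε₁ := by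
    unfold Bw
    rw [← sum_sub_distrib]
    refine (abs_sum_le_sum_abs _ _).trans ?_
    have h3 : ∀ o ∈ Typ K m, |∑ z ∈ Jw m o H X, den m μ H o z * χ o - (m.choose o : ℝ) / 2 ^ m * χ o| ≤
        (m.choose o : ℝ) / 2 ^ m * ε₁ := by
      intro o ho
      rw [← sum_mul, ← sub_mul, abs_mul]
      have h4 := (hM m μ H o X (by omega)).2.2
      have hl : 0 < Pool.Agent.Q74.BH.ln m o H := by
        unfold Pool.Agent.Q74.BH.ln
        positivity
      have h5 : 3 ^ μ / Pool.Agent.Q74.BH.ln m o H ≤ ε₁ := by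
        rw [div_le_iff₀ hl]
        exact (hlnT o ho).1
      calc |∑ z ∈ Jw m o H X, den m μ H o z - (m.choose o : ℝ) / 2 ^ m| * |χ o| ≤
          ((m.choose o : ℝ) / 2 ^ m * (3 ^ μ / Pool.Agent.Q74.BH.ln m o H)) * 1 :=
            mul_le_mul h4 (hχ.abs o) (abs_nonneg _) (by positivity)
        _ ≤ (m.choose o : ℝ) / 2 ^ m * ε₁ := by
            rw [mul_one]
            exact mul_le_mul_of_nonneg_left h5 (by positivity)
    refine (sum_le_sum h3).trans ?_
    rw [← sum_mul]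
    calc _ ≤ 1 * ε₁ := mul_le_mul_of_nonneg_right (bin_sum K m) hε₁0.le
      _ = ε₁ := one_mul _
  have h3 := abs_sub_le (Bx χ H m X) (∑ o ∈ Typ K m, ∑ z ∈ Jw m o H X, den m μ H o z * χ o) (Bw χ K m)
  unfold Bx at h3 ⊢
  linarith

/-- the sum over the `k + 1` points of a block -/
theorem sum_first {H : ℕ} (u v : Fin H → ℝ) :
    ∑ h : Fin (k + 1) → Fin H, v (h 0) * ∏ i : Fin k, u (h i.succ) = (∑ j, v j) * (∑ j, u j) ^ k := by
  rw [← (Fin.consEquiv (fun _ : Fin (k + 1) => Fin H)).sum_comp, Fintype.sum_prod_type, sum_mul]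
  apply sum_congr rfl
  intro j _
  have e : ∀ h' : Fin k → Fin H, v ((Fin.consEquiv (fun _ : Fin (k + 1) => Fin H)) (j, h') 0) *
      ∏ i : Fin k, u ((Fin.consEquiv (fun _ : Fin (k + 1) => Fin H)) (j, h') i.succ) = v j * ∏ i : Fin k, u (h' i) :=
    fun h' => rfl
  simp only [e]
  rw [← mul_sum]
  congr 1
  have e2 := prod_univ_sum (t := fun _ : Fin k => (univ : Finset (Fin H))) (f := fun _ j => u j)
  rw [prod_const, card_univ, Fintype.card_fin] at e2
  rw [e2]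
  apply sum_congr _ (fun _ _ => rfl)
  ext h
  simp

theorem sum_all {H : ℕ} (u : Fin H → ℝ) :
    ∑ h : Fin (k + 1) → Fin H, ∏ i : Fin (k + 1), u (h i) = (∑ j, u j) ^ (k + 1) := by
  have e2 := prod_univ_sum (t := fun _ : Fin (k + 1) => (univ : Finset (Fin H))) (f := fun _ j => u j)
  rw [prod_const, card_univ, Fintype.card_fin] at e2
  rw [e2]
  apply sum_congr _ (fun _ _ => rfl)
  ext h
  simp

/-- `k + 1` points of a block with numbers of odd steps in a short range coalesce: their fates agree -/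
theorem blocks_mean {ε₁ K c3 : ℝ} {H m μ r L : ℕ} (P : Pk ε₁ K H m μ) (hM : S_Mass) (hP : S_ProdK) (hSh : S_Shift)
    (hL : 1 ≤ L)
    (hsz : ∀ o₀ ∈ Typ K m, (2 : ℝ) ^ m * (3 ^ μ * 2 ^ r) / 3 ^ o₀ ≤ ε₁ * L) (a : ℤ)
    {χ : ℕ → ℝ} (hχ : Ind χ) {f : ℤ → ℝ} (hf : Ind f) (hT : ∀ x, f (T x) = f x)
    (hin : ∀ o ∈ Fintype.piFinset (fun _ : Fin (k + 1) => Typ K m), ∀ x : ℤ,
      ∀ z ∈ Fintype.piFinset (fun i => Jw m (o i) H x), ∀ o₀ : ℕ, (∀ i, o₀ ≤ o i) →
      |(∑ w ∈ range (2 ^ r), Ph (fun _ => (0 : Fin (k + 1))) (fun _ => 1)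
        (fut r o (fun i => z i + 3 ^ (o i - o₀) * (3 ^ μ * w : ℕ)))) / 2 ^ r -
        CG (Fm (fun _ => (0 : Fin (k + 1))) (fun _ => 1)) r (fun i => (o i : ℤ))| ≤ ε₁)
    (hc3 : ∀ o : Fin (k + 1) → ℕ, (∀ i, χ (o i) = 1) →
      1 - c3 ≤ CG (Fm (fun _ => (0 : Fin (k + 1))) (fun _ => 1)) r (fun i => (o i : ℤ))) :
    (∑ X ∈ Ico a (a + L), sx χ f H m X * (Bx χ H m X ^ k - sx χ f H m X ^ k)) / L ≤
      Bw χ K m ^ (k + 1) * c3 + 2 ^ (k + 1) * (4 * (k + 1 : ℕ) + 3) * ε₁ := by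
  have hH := P.hH
  have hHr : (0 : ℝ) < H := by exact_mod_cast (by omega : 0 < H)
  have hLr : (0 : ℝ) < L := by exact_mod_cast hL
  have hprod01 : ∀ o : Fin (k + 1) → ℕ, (∏ i, χ (o i) = 1 ∧ ∀ i, χ (o i) = 1) ∨ ∏ i, χ (o i) = 0 := by
    intro o
    by_cases h : ∀ i, χ (o i) = 1
    · left
      exact ⟨prod_eq_one fun i _ => h i, h⟩
    · right
      push Not at h
      obtain ⟨i, hi⟩ := h
      exact prod_eq_zero (mem_univ i) ((hχ (o i)).resolve_right hi)
  have h01 : ∀ o : Fin (k + 1) → ℕ, 0 ≤ ∏ i, χ (o i) ∧ ∏ i, χ (o i) ≤ 1 := by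
    intro o
    rcases hprod01 o with ⟨h, _⟩ | h <;> rw [h] <;> norm_num
  have hone : ∀ z : Fin (k + 1) → ℤ, |((fun _ => 1 : (Fin (k + 1) → ℤ) → ℝ)) z| ≤ 1 := fun z => by rw [abs_one]
  have hPh01 : ∀ V : Fin (k + 1) → ℤ × ℤ, 0 ≤ Ph (fun _ => (0 : Fin (k + 1))) (fun _ => 1) V ∧
      Ph (fun _ => (0 : Fin (k + 1))) (fun _ => 1) V ≤ 1 := by
    intro V
    unfold Ph
    rw [mul_one]
    exact ⟨pat_nonneg _ _, pat_le_one _ _⟩
  have hCG01 : ∀ b : Fin (k + 1) → ℤ, 0 ≤ CG (Fm (fun _ => (0 : Fin (k + 1))) (fun _ => 1)) r b ∧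
      CG (Fm (fun _ => (0 : Fin (k + 1))) (fun _ => 1)) r b ≤ 1 := by
    intro b
    constructor
    · have := CG_mono (F := fun _ : Fin (k + 1) → ℤ => (0 : ℝ)) (G := Fm (fun _ => (0 : Fin (k + 1))) (fun _ => 1))
        (fun z => by unfold Fm; rw [mul_one]; exact pat_nonneg _ _) r b
      rwa [CG_const] at this
    · exact (abs_le.1 (CG_abs (Fm_abs _ hone) r b)).2
  set Ψ : (Fin (k + 1) → ℕ) → (Fin (k + 1) → ℤ) → ℝ := fun o z => (∏ i, χ (o i)) *
    (1 - Ph (fun _ => (0 : Fin (k + 1))) (fun _ => 1) (fut r o z)) with hΨd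
  set c : (Fin (k + 1) → ℕ) → ℝ := fun o => (∏ i, χ (o i)) *
    (1 - CG (Fm (fun _ => (0 : Fin (k + 1))) (fun _ => 1)) r (fun i => (o i : ℤ))) with hcd
  have hprodabs : ∀ p q : ℝ, 0 ≤ p → p ≤ 1 → 0 ≤ q → q ≤ 1 → |p * (1 - q)| ≤ 1 := by
    intro p q h1 h2 h3 h4
    rw [abs_of_nonneg (mul_nonneg h1 (by linarith))]
    nlinarith
  have hΨ : ∀ o z, |Ψ o z| ≤ 1 := fun o z => hprodabs _ _ (h01 o).1 (h01 o).2 (hPh01 _).1 (hPh01 _).2
  have hc : ∀ o, |c o| ≤ 1 := fun o => hprodabs _ _ (h01 o).1 (h01 o).2 (hCG01 _).1 (hCG01 _).2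
  have hgen := gen P hM hP hSh hL hsz a Ψ hΨ c hc (by
    intro o ho x z hz o₀ ho₀
    have h1 := hin o ho x z hz o₀ ho₀
    have e : (∑ w ∈ range (2 ^ r), Ψ o (fun i => z i + 3 ^ (o i - o₀) * (3 ^ μ * w : ℕ))) / 2 ^ r - c o =
        -((∏ i, χ (o i)) * ((∑ w ∈ range (2 ^ r), Ph (fun _ => (0 : Fin (k + 1))) (fun _ => 1)
        (fut r o (fun i => z i + 3 ^ (o i - o₀) * (3 ^ μ * w : ℕ)))) / 2 ^ r -
        CG (Fm (fun _ => (0 : Fin (k + 1))) (fun _ => 1)) r (fun i => (o i : ℤ)))) := by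
      simp only [hΨd, hcd]
      rw [← mul_sum, sum_sub_distrib, sum_const, card_range, nsmul_eq_mul]
      push_cast
      have h2r : (2 : ℝ) ^ r ≠ 0 := by positivity
      field_simp
      ring
    rw [e, abs_neg, abs_mul, abs_of_nonneg (h01 o).1]
    calc _ ≤ 1 * ε₁ := mul_le_mul (h01 o).2 h1 (abs_nonneg _) zero_le_one
      _ = ε₁ := one_mul _)
  -- the model
  have hmod : ∑ o ∈ Fintype.piFinset (fun _ : Fin (k + 1) => Typ K m), (∏ i, (m.choose (o i) : ℝ) / 2 ^ m) * c o ≤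
      Bw χ K m ^ (k + 1) * c3 := by
    have e2 := prod_univ_sum (t := fun _ : Fin (k + 1) => Typ K m) (f := fun _ o => (m.choose o : ℝ) / 2 ^ m * χ o)
    rw [prod_const, card_univ, Fintype.card_fin] at e2
    unfold Bw
    rw [e2, sum_mul]
    apply sum_le_sum
    intro o _
    rw [prod_mul_distrib, mul_assoc]
    apply mul_le_mul_of_nonneg_left _ (prod_nonneg fun i _ => by positivity)
    simp only [hcd]
    rcases hprod01 o with ⟨h, h'⟩ | h
    · rw [h, one_mul, one_mul]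
      linarith [hc3 o h']
    · rw [h, zero_mul, zero_mul]
  -- the blocks
  have hlow : ∀ X : ℤ, sx χ f H m X * (Bx χ H m X ^ k - sx χ f H m X ^ k) * (H : ℝ) ^ (k + 1) ≤
      ∑ h : Fin (k + 1) → Fin H, Ψ (L0 m X h) (Z0 m X h) := by
    intro X
    set u : Fin H → ℝ := fun j => χ (oc m (X + ((j : ℕ) : ℤ))) with hu
    set v : Fin H → ℝ := fun j => χ (oc m (X + ((j : ℕ) : ℤ))) * f (X + ((j : ℕ) : ℤ)) with hv
    have eB : Bx χ H m X * H = ∑ j, u j := by
      unfold Bx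
      rw [div_mul_cancel₀ _ hHr.ne', win_sum]
    have es : sx χ f H m X * H = ∑ j, v j := by
      unfold sx
      rw [div_mul_cancel₀ _ hHr.ne', win_sum]
    have e1 : sx χ f H m X * (Bx χ H m X ^ k - sx χ f H m X ^ k) * (H : ℝ) ^ (k + 1) =
        (∑ j, v j) * (∑ j, u j) ^ k - (∑ j, v j) ^ (k + 1) := by
      rw [← eB, ← es]
      ring
    rw [e1, ← sum_first u v, ← sum_all v, ← sum_sub_distrib]
    apply sum_le_sum
    intro h _
    have hu01 : ∀ j, u j = 0 ∨ u j = 1 := fun j => hχ _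
    have hΨnn : 0 ≤ Ψ (L0 m X h) (Z0 m X h) :=
      mul_nonneg (h01 _).1 (by linarith [(hPh01 (fut r (L0 m X h) (Z0 m X h))).2])
    have hprodv : 0 ≤ ∏ i, v (h i) := prod_nonneg fun i _ => mul_nonneg (hχ.nonneg _) (hf.nonneg _)
    by_cases hall : ∀ i, u (h i) = 1
    · have e2 : ∏ i : Fin k, u (h i.succ) = 1 := prod_eq_one fun i _ => hall _
      rw [e2, mul_one]
      rcases hf (X + ((h 0 : ℕ) : ℤ)) with h0 | h0
      · have : v (h 0) = 0 := by simp only [hv]; rw [h0, mul_zero]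
        rw [this]
        linarith
      · -- the first point has fate `1`
        have hv0 : v (h 0) = 1 := by
          have := hall 0
          simp only [hu] at this
          simp only [hv]
          rw [h0, this, one_mul]
        have hΨe : Ψ (L0 m X h) (Z0 m X h) = 1 - pat (fun _ => (0 : Fin (k + 1))) (fut r (L0 m X h) (Z0 m X h)) := by
          simp only [hΨd]
          have : ∏ i, χ (L0 m X h i) = 1 := prod_eq_one fun i _ => hall i
          rw [this, one_mul]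
          unfold Ph
          rw [mul_one]
        by_cases hp : pat (fun _ => (0 : Fin (k + 1))) (fut r (L0 m X h) (Z0 m X h)) = 0
        · rw [hΨe, hp]
          rw [hv0]
          linarith
        · -- all have merged
          have hm : ∀ i, fut r (L0 m X h) (Z0 m X h) i = fut r (L0 m X h) (Z0 m X h) 0 := by
            intro i
            unfold pat at hp
            split_ifs at hp with h2
            · exact (h2 i 0).2 rfl
            · exact absurd rfl hp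
          have hfi : ∀ i, f (X + ((h i : ℕ) : ℤ)) = 1 := by
            intro i
            have h3 : T^[r] (T^[m] (X + ((h i : ℕ) : ℤ))) = T^[r] (T^[m] (X + ((h 0 : ℕ) : ℤ))) :=
              congrArg Prod.snd (hm i)
            have h4 := congrArg f h3
            rw [f_iter hT, f_iter hT, f_iter hT, f_iter hT] at h4
            rw [h4, h0]
          have e3 : ∏ i, v (h i) = 1 := by
            apply prod_eq_one
            intro i _
            have := hall i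
            simp only [hu] at this
            simp only [hv]
            rw [this, hfi i, one_mul]
          rw [e3, hv0]
          linarith
    · push Not at hall
      obtain ⟨i, hi⟩ := hall
      have hi0 : u (h i) = 0 := (hu01 _).resolve_right hi
      have e2 : v (h 0) * ∏ i : Fin k, u (h i.succ) = 0 := by
        rcases Fin.eq_zero_or_eq_succ i with rfl | ⟨j, rfl⟩
        · have : v (h 0) = 0 := by
            simp only [hu] at hi0
            simp only [hv]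
            rw [hi0, zero_mul]
          rw [this, zero_mul]
        · rw [prod_eq_zero (mem_univ j) hi0, mul_zero]
      rw [e2]
      linarith
  have h5 : (∑ X ∈ Ico a (a + L), sx χ f H m X * (Bx χ H m X ^ k - sx χ f H m X ^ k)) / L ≤
      (∑ x ∈ Ico a (a + L), ∑ h : Fin (k + 1) → Fin H, Ψ (L0 m x h) (Z0 m x h)) / (L * (H : ℝ) ^ (k + 1)) := by
    rw [div_le_div_iff₀ hLr (by positivity), ← mul_assoc, mul_comm _ (L : ℝ), mul_comm _ (L : ℝ), mul_assoc, mul_comm (L : ℝ)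
      (_ * _), mul_comm (L : ℝ) (∑ x ∈ Ico a (a + L), _)]
    apply mul_le_mul_of_nonneg_right _ hLr.le
    rw [sum_mul]
    exact sum_le_sum fun X _ => hlow X
  have h6 := (abs_le.1 hgen).2
  linarith

end Pool.Agent.H82.ZO
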