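import Pool.Graph.R_pool_sql_team_seeded_3997aac3.Q74.BH.Core2

/-! # Zero-one law in short intervals: averages of functionals of the state after the free phase

`gen`: the mean over the windows of a functional `Ψ` of the numbers of odd steps and of the values at the time `m`
of `k` random points of a window is a mean over the numbers of odd steps of the averages of `Ψ` over shifts. -/

set_option autoImplicit false

namespace Pool.Agent.H82.ZO

open Finset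
open Pool.Agent.Q74.KP
open Pool.Agent.Q74.SF
open Pool.Agent.Q74.BH
open Pool.Agent.Q74.AR (oc oc_succ)
open Pool.Agent.Q158.Pair (T)
open Pool.Agent.Q158.Col4 (cI)

variable {k : ℕ}

/-- the state at the time `m` of the points `x + h i` -/
def L0 {H : ℕ} (m : ℕ) (x : ℤ) (h : Fin k → Fin H) : Fin k → ℕ := fun i => oc m (x + ((h i : ℕ) : ℤ))

/-- the values at the time `m` of the points `x + h i` -/
def Z0 {H : ℕ} (m : ℕ) (x : ℤ) (h : Fin k → Fin H) : Fin k → ℤ := fun i => T^[m] (x + ((h i : ℕ) : ℤ))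

/-- the facts on the length `H` and the time `m` -/
structure Pk (ε₁ K : ℝ) (H m μ : ℕ) : Prop where
  hH : 1 ≤ H
  eps0 : 0 < ε₁
  eps1 : ε₁ ≤ 1 / 2
  tv : ∀ (a : ℤ) (F : ℕ → ℤ → ℝ), (∀ o z, |F o z| ≤ 1) →
    |(∑ x ∈ Ico a (a + H), F (oc m x) (T^[m] x)) / H -
      ∑ o ∈ Typ K m, ∑ z ∈ Jw m o H a, den m μ H o z * F o z| ≤ 2 * ε₁
  ln : ∀ o ∈ Typ K m, (3 : ℝ) ^ μ ≤ ε₁ * ln m o H ∧ 3 ^ o ≤ 2 ^ m
  ne : (Typ K m).Nonempty

theorem hbinsum (K : ℝ) (m : ℕ) :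
    ∑ o ∈ Fintype.piFinset (fun _ : Fin k => Typ K m), ∏ i, (m.choose (o i) : ℝ) / 2 ^ m ≤ 1 := by
  have e := prod_univ_sum (t := fun _ : Fin k => Typ K m) (f := fun _ o => (m.choose o : ℝ) / 2 ^ m)
  rw [← e]
  apply prod_le_one
  · intro i _
    exact sum_nonneg fun o _ => by positivity
  · intro i _
    exact bin_sum K m

/-- the mean of a functional of the state at the time `m` -/
theorem gen {ε₁ K : ℝ} {H m μ r L : ℕ} (P : Pk ε₁ K H m μ) (hM : S_Mass) (hP : S_ProdK) (hSh : S_Shift)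
    (hL : 1 ≤ L)
    (hsz : ∀ o₀ ∈ Typ K m, (2 : ℝ) ^ m * (3 ^ μ * 2 ^ r) / 3 ^ o₀ ≤ ε₁ * L) (a : ℤ)
    (Ψ : (Fin k → ℕ) → (Fin k → ℤ) → ℝ) (hΨ : ∀ o z, |Ψ o z| ≤ 1) (c : (Fin k → ℕ) → ℝ) (hc : ∀ o, |c o| ≤ 1)
    (hin : ∀ o ∈ Fintype.piFinset (fun _ : Fin k => Typ K m), ∀ x : ℤ,
      ∀ z ∈ Fintype.piFinset (fun i => Jw m (o i) H x), ∀ o₀ : ℕ, (∀ i, o₀ ≤ o i) →
      |(∑ w ∈ range (2 ^ r), Ψ o (fun i => z i + 3 ^ (o i - o₀) * (3 ^ μ * w : ℕ))) / 2 ^ r - c o| ≤ ε₁) :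
    |(∑ x ∈ Ico a (a + L), ∑ h : Fin k → Fin H, Ψ (L0 m x h) (Z0 m x h)) / (L * (H : ℝ) ^ k) -
      ∑ o ∈ Fintype.piFinset (fun _ : Fin k => Typ K m), (∏ i, (m.choose (o i) : ℝ) / 2 ^ m) * c o| ≤
      2 ^ k * (4 * k + 3) * ε₁ := by
  obtain ⟨hH, hε₁0, hε₁h, hTV, hlnT, hTne⟩ := P
  have hHr : (0 : ℝ) < H := by exact_mod_cast (by omega : 0 < H)
  have hLr : (0 : ℝ) < L := by exact_mod_cast hL
  set o₀ := (Typ K m).min' hTne with ho₀
  have ho₀m : o₀ ∈ Typ K m := min'_mem _ _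
  have hsz' := hsz o₀ ho₀m
  set Ψ' : (Fin k → ℕ × ℤ) → ℝ := fun v => Ψ (fun i => (v i).1) (fun i => (v i).2) with hΨd
  have hΨ' : ∀ v, |Ψ' v| ≤ 1 := fun v => hΨ _ _
  set B : ℤ → ℝ := fun x => ∑ o ∈ Fintype.piFinset (fun _ : Fin k => Typ K m),
    ∑ z ∈ Fintype.piFinset (fun i => Jw m (o i) H x), (∏ i, den m μ H (o i) (z i)) * Ψ o z with hBd
  -- step 1
  have hstep1 : ∀ x : ℤ, |(∑ h : Fin k → Fin H, Ψ (L0 m x h) (Z0 m x h)) / (H : ℝ) ^ k - B x| ≤
      k * (2 * ε₁) * 2 ^ k := by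
    intro x
    have h1 := hP (ℕ × ℤ) (Fin H) ((_ : ℕ) × ℤ) univ ((Typ K m).sigma (fun o => Jw m o H x)) (fun _ => 1 / (H : ℝ))
      (fun j => den m μ H j.1 j.2) (fun i => (oc m (x + ((i : ℕ) : ℤ)), T^[m] (x + ((i : ℕ) : ℤ))))
      (fun j => (j.1, j.2)) (2 * ε₁) (by positivity) (fun i _ => by positivity) (by
        rw [sum_const, card_univ, Fintype.card_fin, nsmul_eq_mul]
        apply le_of_eq
        field_simp) (fun j _ => ((hM m μ H j.1 x (by omega)).1 j.2).1) (by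
        intro F hF
        have h2 := hTV x (fun o z => F (o, z)) (fun o z => hF _)
        rw [win_sum] at h2
        have e1 : ∑ i : Fin H, 1 / (H : ℝ) * F (oc m (x + ((i : ℕ) : ℤ)), T^[m] (x + ((i : ℕ) : ℤ))) =
            (∑ i : Fin H, F (oc m (x + ((i : ℕ) : ℤ)), T^[m] (x + ((i : ℕ) : ℤ)))) / H := by
          rw [← mul_sum]
          ring
        rw [e1, sum_sigma]
        linarith) k Ψ' hΨ'
    have e2 : Fintype.piFinset (fun _ : Fin k => (univ : Finset (Fin H))) = univ := by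
      ext h
      simp
    rw [e2, pi_sigma (Typ K m) (fun o => Jw m o H x)] at h1
    have e3 : ∑ h : Fin k → Fin H, (∏ _l : Fin k, 1 / (H : ℝ)) *
        Ψ' (fun l => (oc m (x + ((h l : ℕ) : ℤ)), T^[m] (x + ((h l : ℕ) : ℤ)))) =
        (∑ h : Fin k → Fin H, Ψ (L0 m x h) (Z0 m x h)) / (H : ℝ) ^ k := by
      rw [sum_div]
      apply sum_congr rfl
      intro h _
      rw [prod_const, card_univ, Fintype.card_fin, one_div, inv_pow, ← div_eq_inv_mul]
      rfl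
    rw [e3] at h1
    refine h1.trans ?_
    have h3 : (1 + 2 * ε₁) ^ k ≤ (2 : ℝ) ^ k := pow_le_pow_left₀ (by positivity) (by linarith) k
    exact mul_le_mul_of_nonneg_left h3 (by positivity)
  -- step 2: fixed numbers of odd steps
  set S1 : (Fin k → ℕ) → ℝ := fun o => ∑ x ∈ Ico a (a + L), ∑ z ∈ Fintype.piFinset (fun i => Jw m (o i) H x),
    (∏ i, den m μ H (o i) (z i) / ((m.choose (o i) : ℝ) / 2 ^ m)) * Ψ o z with hS1
  have hstep2 : ∀ o ∈ Fintype.piFinset (fun _ : Fin k => Typ K m),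
      |S1 o - c o * L| ≤ 2 ^ k * (2 * ε₁ + 2 * (k * ε₁) + ε₁) * L := by
    intro o ho'
    have ho := ho'
    rw [Fintype.mem_piFinset] at ho
    have hlnpos : ∀ i, 0 < Pool.Agent.Q74.BH.ln m (o i) H := by
      intro i
      unfold Pool.Agent.Q74.BH.ln
      positivity
    have hθ : ∀ i, 3 ^ μ / Pool.Agent.Q74.BH.ln m (o i) H ≤ ε₁ := by
      intro i
      rw [div_le_iff₀ (hlnpos i)]
      exact (hlnT (o i) (ho i)).1
    refine fixed_o (Q := 1) hSh hL le_rfl o (fun i z => den m μ H (o i) z / ((m.choose (o i) : ℝ) / 2 ^ m))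
      (fun z => Ψ o z) (fun z => hΨ _ _) (hc o) hε₁0.le (by linarith)
      hε₁0.le ?_ ?_ ?_ (fun i => (hlnT (o i) (ho i)).2) (fun i => min'_le _ _ (ho i)) (by
        rw [Nat.cast_one, one_mul]; exact hsz') ?_
    · intro i z
      have hb := bin_pos (ho i)
      obtain ⟨h1, h2⟩ := (hM m μ H (o i) a (by omega)).1 z
      refine ⟨div_nonneg h1 hb.le, ?_⟩
      rw [div_le_iff₀ hb]
      refine h2.trans ?_
      rw [mul_comm ε₁]
      exact mul_le_mul_of_nonneg_left (hθ i) hb.le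
    · intro i z
      rw [(hM m μ H (o i) a (by omega)).2.1 z]
    · intro i x
      have hb := bin_pos (ho i)
      have h1 := (hM m μ H (o i) x (by omega)).2.2
      rw [← sum_div]
      have e : (∑ z ∈ Jw m (o i) H x, den m μ H (o i) z) / ((m.choose (o i) : ℝ) / 2 ^ m) - 1 =
          (∑ z ∈ Jw m (o i) H x, den m μ H (o i) z - (m.choose (o i) : ℝ) / 2 ^ m) /
            ((m.choose (o i) : ℝ) / 2 ^ m) := by
        rw [sub_div, div_self hb.ne']
      rw [e, abs_div, abs_of_pos hb, div_le_iff₀ hb]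
      refine h1.trans ?_
      rw [mul_comm ε₁]
      exact mul_le_mul_of_nonneg_left (hθ i) hb.le
    · intro x z hz
      have h1 := hin o ho' x z hz o₀ (fun i => min'_le _ _ (ho i))
      rw [one_mul, Nat.cast_one, one_mul]
      exact h1
  -- step 3: sum up
  have hstep3 : (∑ x ∈ Ico a (a + L), B x) / L = ∑ o ∈ Fintype.piFinset (fun _ : Fin k => Typ K m),
      (∏ i, (m.choose (o i) : ℝ) / 2 ^ m) * (S1 o / L) := by
    rw [hBd]
    simp only
    rw [sum_comm, sum_div]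
    apply sum_congr rfl
    intro o ho
    rw [Fintype.mem_piFinset] at ho
    rw [mul_div_assoc']
    congr 1
    rw [hS1]
    simp only
    rw [mul_sum]
    apply sum_congr rfl
    intro x _
    rw [mul_sum]
    apply sum_congr rfl
    intro z _
    rw [← mul_assoc, ← prod_mul_distrib]
    congr 1
    apply prod_congr rfl
    intro i _
    rw [mul_div_cancel₀ _ (bin_pos (ho i)).ne']
  have hbinnn : ∀ o : Fin k → ℕ, 0 ≤ ∏ i, (m.choose (o i) : ℝ) / 2 ^ m := fun o => prod_nonneg fun i _ => by positivity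
  have hbs := hbinsum (k := k) K m
  have hstep4 : |(∑ x ∈ Ico a (a + L), B x) / L - ∑ o ∈ Fintype.piFinset (fun _ : Fin k => Typ K m),
      (∏ i, (m.choose (o i) : ℝ) / 2 ^ m) * c o| ≤
      2 ^ k * (2 * ε₁ + 2 * (k * ε₁) + ε₁) := by
    rw [hstep3, ← sum_sub_distrib]
    have h1 : ∀ o ∈ Fintype.piFinset (fun _ : Fin k => Typ K m),
        |(∏ i, (m.choose (o i) : ℝ) / 2 ^ m) * (S1 o / L) -
          (∏ i, (m.choose (o i) : ℝ) / 2 ^ m) * c o| ≤
        (∏ i, (m.choose (o i) : ℝ) / 2 ^ m) * (2 ^ k * (2 * ε₁ + 2 * (k * ε₁) + ε₁)) := by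
      intro o ho
      rw [← mul_sub, abs_mul, abs_of_nonneg (hbinnn o)]
      apply mul_le_mul_of_nonneg_left _ (hbinnn o)
      have h2 := hstep2 o ho
      have e : S1 o / L - c o = (S1 o - c o * L) / L := by
        field_simp
      rw [e, abs_div, abs_of_pos hLr, div_le_iff₀ hLr]
      exact h2
    refine (abs_sum_le_sum_abs _ _).trans ((sum_le_sum h1).trans ?_)
    rw [← sum_mul]
    have h0 : (0 : ℝ) ≤ 2 ^ k * (2 * ε₁ + 2 * (k * ε₁) + ε₁) := by positivity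
    calc _ ≤ 1 * (2 ^ k * (2 * ε₁ + 2 * (k * ε₁) + ε₁)) := mul_le_mul_of_nonneg_right hbs h0
      _ = _ := one_mul _
  -- the average over `x`
  have hstep6 : |(∑ x ∈ Ico a (a + L), ∑ h : Fin k → Fin H, Ψ (L0 m x h) (Z0 m x h)) / (L * (H : ℝ) ^ k) -
      (∑ x ∈ Ico a (a + L), B x) / L| ≤ k * (2 * ε₁) * 2 ^ k := by
    have e1 : (∑ x ∈ Ico a (a + L), ∑ h : Fin k → Fin H, Ψ (L0 m x h) (Z0 m x h)) / (L * (H : ℝ) ^ k) =
        (∑ x ∈ Ico a (a + L), (∑ h : Fin k → Fin H, Ψ (L0 m x h) (Z0 m x h)) / (H : ℝ) ^ k) / L := by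
      rw [← sum_div, div_div, mul_comm (L : ℝ)]
    rw [e1, ← sub_div, ← sum_sub_distrib, abs_div, abs_of_pos hLr, div_le_iff₀ hLr]
    refine (abs_sum_le_sum_abs _ _).trans ((sum_le_sum (fun x _ => hstep1 x)).trans (le_of_eq ?_))
    rw [sum_const, nsmul_eq_mul, Int.card_Ico, show (a + (L : ℤ) - a).toNat = L by omega]
    ring
  have h7 := abs_sub_le ((∑ x ∈ Ico a (a + L), ∑ h : Fin k → Fin H, Ψ (L0 m x h) (Z0 m x h)) / (L * (H : ℝ) ^ k))
    ((∑ x ∈ Ico a (a + L), B x) / L)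
    (∑ o ∈ Fintype.piFinset (fun _ : Fin k => Typ K m), (∏ i, (m.choose (o i) : ℝ) / 2 ^ m) * c o)
  have h10 : (k : ℝ) * (2 * ε₁) * 2 ^ k + 2 ^ k * (2 * ε₁ + 2 * (k * ε₁) + ε₁) = 2 ^ k * (4 * k + 3) * ε₁ := by
    ring
  linarith

end Pool.Agent.H82.ZO
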