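import Pool.Graph.R_pool_sql_team_seeded_3997aac3.Q285.BH.Inner
import Pool.Graph.R_pool_sql_team_seeded_3997aac3.Q74.SF.Edge
import Pool.Graph.R_pool_sql_team_seeded_3997aac3.Q225.SF.Bad
import Pool.Agent.H82.ZO.Gen

/-! # Zero-one law in short intervals: averages over shifts, two times -/

set_option autoImplicit false

namespace Pool.Agent.H82.ZO

open Finset
open Pool.Agent.Q74.KP
open Pool.Agent.Q74.SF
open Pool.Agent.Q74.BH
open Pool.Agent.Q74.AR (oc bE oc_per bE_const)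
open Pool.Agent.Q158.Pair (T)
open Pool.Agent.Q285.BH (T_sh pat_congr)

variable {k : ℕ}

/-- the function of the shift is periodic -/
theorem Ph_per (π : Fin k → Fin k) (G : (Fin k → ℤ) → ℝ) (r : ℕ) (o a : Fin k → ℕ) (o₀ : ℕ)
    (haz : ∀ i, o i = a i + o₀) (z : Fin k → ℤ) :
    Pe r (fun n : ℤ => Ph π G (fut r o (fun i => z i + 3 ^ a i * n))) := by
  intro n j
  show Ph π G (fut r o (fun i => z i + 3 ^ a i * (n + 2 ^ r * j))) =
    Ph π G (fut r o (fun i => z i + 3 ^ a i * n))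
  have e1 : ∀ i, z i + 3 ^ a i * (n + 2 ^ r * j) = (z i + 3 ^ a i * n) + 2 ^ r * (3 ^ a i * j) :=
    fun i => by ring
  have e2 : ∀ i, oc r (z i + 3 ^ a i * (n + 2 ^ r * j)) = oc r (z i + 3 ^ a i * n) := fun i => by
    rw [e1, oc_per]
  have e3 : ∀ i, T^[r] (z i + 3 ^ a i * (n + 2 ^ r * j)) =
      T^[r] (z i + 3 ^ a i * n) + 3 ^ (oc r (z i + 3 ^ a i * n) + a i) * j := fun i => by
    rw [e1, T_sh]
    ring
  unfold Ph
  congr 1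
  · apply pat_congr
    intro i l
    show (((o i : ℤ) + oc r (z i + 3 ^ a i * (n + 2 ^ r * j)), T^[r] (z i + 3 ^ a i * (n + 2 ^ r * j))) : ℤ × ℤ) =
        ((o l : ℤ) + oc r (z l + 3 ^ a l * (n + 2 ^ r * j)), T^[r] (z l + 3 ^ a l * (n + 2 ^ r * j))) ↔
      (((o i : ℤ) + oc r (z i + 3 ^ a i * n), T^[r] (z i + 3 ^ a i * n)) : ℤ × ℤ) =
        ((o l : ℤ) + oc r (z l + 3 ^ a l * n), T^[r] (z l + 3 ^ a l * n))
    rw [e2, e2, e3, e3, Prod.mk.injEq, Prod.mk.injEq]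
    constructor
    · rintro ⟨h1, h2⟩
      refine ⟨h1, ?_⟩
      rw [haz, haz] at h1
      push_cast at h1
      have h3 : oc r (z i + 3 ^ a i * n) + a i = oc r (z l + 3 ^ a l * n) + a l := by omega
      rw [h3] at h2
      linarith
    · rintro ⟨h1, h2⟩
      refine ⟨h1, ?_⟩
      rw [haz, haz] at h1
      push_cast at h1
      have h3 : oc r (z i + 3 ^ a i * n) + a i = oc r (z l + 3 ^ a l * n) + a l := by omega
      rw [h3, h2]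
  · congr 1
    funext i
    show (o i : ℤ) + oc r (z i + 3 ^ a i * (n + 2 ^ r * j)) = (o i : ℤ) + oc r (z i + 3 ^ a i * n)
    rw [e2]

/-- `S_Inner` with the average over one period -/
theorem inner_EE (hI : S_Inner) (k : ℕ) (Λ ε : ℝ) (hΛ : 0 ≤ Λ) (hε : 0 < ε) : ∃ ρ : ℝ, 0 < ρ ∧ ∃ r₀ : ℕ,
    ∀ r : ℕ, r₀ ≤ r → ∀ (o : Fin k → ℕ) (z : Fin k → ℤ), Off ρ r o z → ∀ o₀ : ℕ, (∀ i, o₀ ≤ o i) →
    ∀ (π : Fin k → Fin k) (G : (Fin k → ℤ) → ℝ), (∀ z, |G z| ≤ 1) →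
    (∀ z w : Fin k → ℤ, |G z - G w| ≤ Λ / √r * ∑ i, |(z i : ℝ) - w i|) →
    |EE r (fun n => Ph π G (fut r o (fun i => z i + 3 ^ (o i - o₀) * n))) - CG (Fm π G) r (fun i => (o i : ℤ))| ≤ ε := by
  obtain ⟨ρ, hρ, r₀, Q, hQ, H⟩ := hI k Λ ε hΛ hε
  refine ⟨ρ, hρ, r₀, fun r hr o z hoff o₀ ho π G hG hL => ?_⟩
  have h1 := H r hr o z hoff o₀ ho 1 (by norm_num) π G hG hL
  have hper := Ph_per π G r o (fun i => o i - o₀) o₀ (fun i => by have := ho i; omega) z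
  set F : ℤ → ℝ := fun n => Ph π G (fut r o (fun i => z i + 3 ^ (o i - o₀) * n)) with hF
  have hQr : (0 : ℝ) < Q := by exact_mod_cast (by omega : 0 < Q)
  have e1 : (∑ w ∈ range (Q * 2 ^ r), Ph π G (fut r o (fun i => z i + 3 ^ (o i - o₀) * (1 * w : ℕ)))) / (Q * 2 ^ r) =
      EE r F := by
    have e2 : ∑ w ∈ range (Q * 2 ^ r), Ph π G (fut r o (fun i => z i + 3 ^ (o i - o₀) * (1 * w : ℕ))) =
        ∑ w ∈ range (2 ^ r * Q), F (w : ℤ) := by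
      rw [mul_comm Q]
      apply sum_congr rfl
      intro w _
      rw [one_mul]
    rw [e2, Pool.Agent.Q225.SF.sum_split (2 ^ r) Q (by positivity) (fun w : ℕ => F (w : ℤ))]
    have e3 : ∀ x n : ℕ, F ((x + 2 ^ r * n : ℕ) : ℤ) = F (x : ℤ) := by
      intro x n
      have := hper (x : ℤ) (n : ℤ)
      push_cast
      exact this
    simp only [e3]
    rw [show ∑ x ∈ range (2 ^ r), ∑ _n ∈ range Q, F (x : ℤ) = Q * ∑ x ∈ range (2 ^ r), F (x : ℤ) by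
      rw [mul_sum]
      apply sum_congr rfl
      intro x _
      rw [sum_const, card_range, nsmul_eq_mul]]
    unfold EE
    rw [mul_div_mul_left _ _ hQr.ne']
  rw [e1] at h1
  exact h1

theorem bE_line (r c : ℕ) (ψ : ℕ → ℝ) (y : ℤ) :
    (∑ l ∈ range (2 ^ r), ψ (oc r (y + 3 ^ c * (l : ℤ)))) / 2 ^ r = bE r ψ := by
  have hp : Pe r (fun x => ψ (oc r x)) := by
    intro x j
    simp only [oc_per]
  have h := EE_aff hp (3 ^ c) (three_odd c) y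
  rw [Pool.Agent.Q225.SF.EE_oc] at h
  rw [← h]
  unfold EE
  congr 1
  apply sum_congr rfl
  intro l _
  rw [add_comm]

/-- two times: the coincidences after `r1` steps and the next `r2` steps of the first point are independent -/
theorem inner_two (hI : S_Inner) (k : ℕ) (Λ ε : ℝ) (hΛ : 0 ≤ Λ) (hε : 0 < ε) : ∃ ρ : ℝ, 0 < ρ ∧ ∃ r₀ : ℕ,
    ∀ r1 : ℕ, r₀ ≤ r1 → ∀ (r2 : ℕ) (o : Fin (k + 1) → ℕ) (z : Fin (k + 1) → ℤ), Off ρ r1 o z →
    ∀ o₀ : ℕ, (∀ i, o₀ ≤ o i) → ∀ μ : ℕ,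
    ∀ (π : Fin (k + 1) → Fin (k + 1)) (G : (Fin (k + 1) → ℤ) → ℝ), (∀ z, |G z| ≤ 1) →
    (∀ z w : Fin (k + 1) → ℤ, |G z - G w| ≤ Λ / √r1 * ∑ i, |(z i : ℝ) - w i|) →
    ∀ φ : ℕ → ℝ, (∀ j, |φ j| ≤ 1) →
    |(∑ w ∈ range (2 ^ (r1 + r2)), Ph π G (fut r1 o (fun i => z i + 3 ^ (o i - o₀) * (3 ^ μ * w : ℕ))) *
        φ (oc r2 (T^[r1] (z 0 + 3 ^ (o 0 - o₀) * (3 ^ μ * w : ℕ))))) / 2 ^ (r1 + r2) -
      CG (Fm π G) r1 (fun i => (o i : ℤ)) * bE r2 φ| ≤ ε := by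
  obtain ⟨ρ, hρ, r₀, H⟩ := inner_EE hI (k + 1) Λ ε hΛ hε
  refine ⟨ρ, hρ, r₀, fun r1 hr r2 o z hoff o₀ ho μ π G hG hL φ hφ => ?_⟩
  have h1 := H r1 hr o z hoff o₀ ho π G hG hL
  have hper := Ph_per π G r1 o (fun i => o i - o₀) o₀ (fun i => by have := ho i; omega) z
  set F : ℤ → ℝ := fun n => Ph π G (fut r1 o (fun i => z i + 3 ^ (o i - o₀) * n)) with hF
  set g : ℤ → ℝ := fun n => φ (oc r2 (T^[r1] (z 0 + 3 ^ (o 0 - o₀) * n))) with hg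
  have hg' : ∀ n l : ℤ, g (n + 2 ^ r1 * l) =
      φ (oc r2 (T^[r1] (z 0 + 3 ^ (o 0 - o₀) * n) + 3 ^ (oc r1 (z 0 + 3 ^ (o 0 - o₀) * n) + (o 0 - o₀)) * l)) := by
    intro n l
    have e : z 0 + 3 ^ (o 0 - o₀) * (n + 2 ^ r1 * l) =
        (z 0 + 3 ^ (o 0 - o₀) * n) + 2 ^ r1 * (3 ^ (o 0 - o₀) * l) := by ring
    simp only [hg]
    rw [e, T_sh, pow_add]
    congr 2
    ring
  have hgp : Pe (r1 + r2) g := by
    intro n j
    have e : n + 2 ^ (r1 + r2) * j = n + 2 ^ r1 * (2 ^ r2 * j) := by ring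
    rw [e, hg']
    have e2 : T^[r1] (z 0 + 3 ^ (o 0 - o₀) * n) +
        3 ^ (oc r1 (z 0 + 3 ^ (o 0 - o₀) * n) + (o 0 - o₀)) * (2 ^ r2 * j) =
        T^[r1] (z 0 + 3 ^ (o 0 - o₀) * n) +
        2 ^ r2 * (3 ^ (oc r1 (z 0 + 3 ^ (o 0 - o₀) * n) + (o 0 - o₀)) * j) := by ring
    rw [e2, oc_per]
  have hFg : Pe (r1 + r2) (fun n => F n * g n) := Pe_mul (Pe_le hper (Nat.le_add_right _ _)) hgp
  have e1 : (∑ w ∈ range (2 ^ (r1 + r2)), Ph π G (fut r1 o (fun i => z i + 3 ^ (o i - o₀) * (3 ^ μ * w : ℕ))) *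
        φ (oc r2 (T^[r1] (z 0 + 3 ^ (o 0 - o₀) * (3 ^ μ * w : ℕ))))) / 2 ^ (r1 + r2) =
      EE (r1 + r2) (fun n => F n * g n) := by
    rw [← EE_aff hFg (3 ^ μ) (three_odd μ) 0]
    unfold EE
    refine congrArg (fun s : ℝ => s / 2 ^ (r1 + r2)) (sum_congr rfl fun w _ => ?_)
    simp only [hF, hg]
    push_cast
    rw [add_zero]
  have e2 : EE (r1 + r2) (fun n => F n * g n) = EE r1 F * bE r2 φ := by
    rw [EE_cond (N := r1 + r2) (s := r1) (by omega) hper hgp]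
    have e3 : ∀ n : ℤ, (∑ l ∈ range (2 ^ (r1 + r2 - r1)), g (n + 2 ^ r1 * (l : ℤ))) / 2 ^ (r1 + r2 - r1) =
        bE r2 φ := by
      intro n
      rw [Nat.add_sub_cancel_left]
      simp only [hg']
      exact bE_line r2 _ φ _
    simp only [e3]
    have e4 : (fun n => F n * bE r2 φ) = fun n => bE r2 φ * F n := by funext n; ring
    rw [e4, EE_mul, EE_per hper, mul_comm]
  rw [e1, e2, ← sub_mul, abs_mul]
  have hb : |bE r2 φ| ≤ 1 := by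
    have h3 := Pool.Agent.Q74.AR.bE_close r2 φ (fun _ => 0) 1 (fun j => by rw [sub_zero]; exact hφ j)
    rw [bE_const, sub_zero] at h3
    exact h3
  calc |EE r1 F - CG (Fm π G) r1 fun i => (o i : ℤ)| * |bE r2 φ| ≤ ε * 1 :=
        mul_le_mul h1 hb (abs_nonneg _) hε.le
    _ = ε := mul_one ε

end Pool.Agent.H82.ZO
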