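import Pool.Agent.H82.ZO.Select
import Pool.Agent.H82.ZO.Inner
import Pool.Graph.R_pool_sql_team_seeded_3997aac3.Q68.BH.CorT

/-! # Zero-one law in short intervals: combination -/

set_option autoImplicit false

namespace Pool.Agent.H82.ZO

open Finset
open Pool.Agent.Q74.KP
open Pool.Agent.Q74.SF
open Pool.Agent.Q74.BH
open Pool.Agent.Q74.AR (oc bE)
open Pool.Agent.Q158.Pair (T)
open Pool.Agent.Q68.BH.CorT (cls cls_eq cls_le)

variable {k : ℕ}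

open Classical in
/-- the next `r2` steps have an atypical number of odd steps -/
noncomputable def far (r2 : ℕ) (w : ℝ) (j : ℕ) : ℝ := if |(j : ℝ) - r2 / 2| ≤ w then 0 else 1

theorem far_ind (r2 : ℕ) (w : ℝ) : Ind (far r2 w) := by
  intro j
  unfold far
  split_ifs
  · exact Or.inl rfl
  · exact Or.inr rfl

/-- all the points have merged near the level of `G0` at the time `m + r1` -/
noncomputable def Ev (G0 : ℤ → ℝ) {H : ℕ} (m r1 : ℕ) (x : ℤ) (h : Fin (k + 1) → Fin H) : ℝ :=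
  Ph (fun _ => (0 : Fin (k + 1))) (fun z => G0 (z 0)) (fut r1 (L0 m x h) (Z0 m x h))

theorem Ev_01 {G0 : ℤ → ℝ} (h0 : ∀ l, 0 ≤ G0 l) (h1 : ∀ l, G0 l ≤ 1) {H : ℕ} (m r1 : ℕ) (x : ℤ)
    (h : Fin (k + 1) → Fin H) : 0 ≤ Ev G0 m r1 x h ∧ Ev G0 m r1 x h ≤ 1 := by
  unfold Ev Ph
  constructor
  · exact mul_nonneg (pat_nonneg _ _) (h0 _)
  · calc _ ≤ (1 : ℝ) * 1 := mul_le_mul (pat_le_one _ _) (h1 _) (h0 _) zero_le_one
      _ = 1 := one_mul 1

/-- the number of odd steps in three pieces -/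
theorem oc_three (m r1 r2 : ℕ) (y : ℤ) :
    oc (m + r1 + r2) y = oc m y + oc r1 (T^[m] y) + oc r2 (T^[r1] (T^[m] y)) := by
  rw [Pool.Agent.Q74.BH.oc_add, Pool.Agent.Q74.BH.oc_add]
  congr 2
  rw [Nat.add_comm m r1, Function.iterate_add_apply]

theorem Ev_point {G0 : ℤ → ℝ} (h0 : ∀ l, 0 ≤ G0 l) (h1 : ∀ l, G0 l ≤ 1) {c w : ℝ}
    (hG : ∀ l : ℤ, G0 l ≠ 0 → |(l : ℝ) - c| < w) {f : ℤ → ℝ} (hf : Ind f) {H : ℕ} (m r1 r2 : ℕ) (x : ℤ)
    (h : Fin (k + 1) → Fin H) :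
    Ev G0 m r1 x h * (1 - f (x + ((h 0 : ℕ) : ℤ))) ≤ Ev G0 m r1 x h * far r2 w (oc r2 (T^[r1] (Z0 m x h 0))) +
      chi (c + r2 / 2 - 2 * w) w (oc (m + r1 + r2) (x + ((h 0 : ℕ) : ℤ))) * (1 - f (x + ((h 0 : ℕ) : ℤ))) := by
  classical
  obtain ⟨hE0, hE1⟩ := Ev_01 h0 h1 m r1 x h
  have hf0 := hf.nonneg (x + ((h 0 : ℕ) : ℤ))
  have hf1 := hf.le_one (x + ((h 0 : ℕ) : ℤ))
  have hχ0 := (chi_ind (c + r2 / 2 - 2 * w) w).nonneg (oc (m + r1 + r2) (x + ((h 0 : ℕ) : ℤ)))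
  have hb : 0 ≤ chi (c + r2 / 2 - 2 * w) w (oc (m + r1 + r2) (x + ((h 0 : ℕ) : ℤ))) * (1 - f (x + ((h 0 : ℕ) : ℤ))) :=
    mul_nonneg hχ0 (by linarith)
  rcases far_ind r2 w (oc r2 (T^[r1] (Z0 m x h 0))) with hfar | hfar
  · rw [hfar, mul_zero, zero_add]
    by_cases hE : Ev G0 m r1 x h = 0
    · rw [hE, zero_mul]
      exact hb
    · have hG0 : G0 ((L0 m x h 0 : ℤ) + oc r1 (Z0 m x h 0)) ≠ 0 := by
        intro h2
        apply hE
        unfold Ev Ph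
        have : G0 ((fut r1 (L0 m x h) (Z0 m x h) 0).1) = 0 := h2
        show _ * G0 ((fut r1 (L0 m x h) (Z0 m x h) 0).1) = 0
        rw [this, mul_zero]
      have h3 := hG _ hG0
      have h4 : |((oc r2 (T^[r1] (Z0 m x h 0)) : ℕ) : ℝ) - r2 / 2| ≤ w := by
        unfold far at hfar
        by_contra h5
        rw [if_neg h5] at hfar
        exact one_ne_zero hfar
      have h5 : ((oc (m + r1 + r2) (x + ((h 0 : ℕ) : ℤ)) : ℕ) : ℝ) =
          (((L0 m x h 0 : ℤ) + oc r1 (Z0 m x h 0) : ℤ) : ℝ) + oc r2 (T^[r1] (Z0 m x h 0)) := by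
        rw [oc_three]
        push_cast
        rfl
      have h3' := abs_lt.1 h3
      have h4' := abs_le.1 h4
      have h6 : chi (c + r2 / 2 - 2 * w) w (oc (m + r1 + r2) (x + ((h 0 : ℕ) : ℤ))) = 1 := by
        unfold chi
        rw [if_pos, ]
        rw [h5]
        constructor
        · linarith [h3'.1, h4'.1]
        · linarith [h3'.2, h4'.2]
      rw [h6]
      exact mul_le_mul_of_nonneg_right hE1 (by linarith)
  · rw [hfar, mul_one]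
    have : Ev G0 m r1 x h * (1 - f (x + ((h 0 : ℕ) : ℤ))) ≤ Ev G0 m r1 x h * 1 :=
      mul_le_mul_of_nonneg_left (by linarith) hE0
    linarith

theorem sum_h0 {H : ℕ} (v : Fin H → ℝ) :
    ∑ h : Fin (k + 1) → Fin H, v (h 0) = (∑ j, v j) * (H : ℝ) ^ k := by
  have h1 := sum_first (k := k) (fun _ : Fin H => (1 : ℝ)) v
  simp only [prod_const_one, mul_one] at h1
  rw [h1, sum_const, card_univ, Fintype.card_fin, nsmul_eq_mul, mul_one]

theorem shift_sum (g : ℤ → ℝ) (X : ℤ) (L j : ℕ) :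
    ∑ x ∈ Ico X (X + L), g (x + j) = ∑ y ∈ Ico (X + j) (X + j + L), g y := by
  refine sum_nbij' (fun x => x + (j : ℤ)) (fun y => y - (j : ℤ)) ?_ ?_ ?_ ?_ ?_
  · intro X hX
    rw [mem_Ico] at hX ⊢
    omega
  · intro X hX
    rw [mem_Ico] at hX ⊢
    omega
  · intro X _
    show X + (j : ℤ) - (j : ℤ) = X
    omega
  · intro X _
    show X - (j : ℤ) + (j : ℤ) = X
    omega
  · intro X _
    rfl

/-- a block with few points of fate `0` in the range -/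
theorem block_ineq {G0 : ℤ → ℝ} (h0 : ∀ l, 0 ≤ G0 l) (h1 : ∀ l, G0 l ≤ 1) {c w : ℝ}
    (hG : ∀ l : ℤ, G0 l ≠ 0 → |(l : ℝ) - c| < w) {f : ℤ → ℝ} (hf : Ind f) {H H1 : ℕ} (m r1 r2 : ℕ) (X : ℤ)
    {ζ : ℝ} (hX : ∑ y ∈ Ico X (X + H1), chi (c + r2 / 2 - 2 * w) w (oc (m + r1 + r2) y) * (1 - f y) ≤ ζ * H1) :
    ∑ x ∈ Ico X (X + H1), ∑ h : Fin (k + 1) → Fin H, Ev G0 m r1 x h ≤
      ∑ x ∈ Ico X (X + H1), ∑ h : Fin (k + 1) → Fin H, Ev G0 m r1 x h * f (x + ((h 0 : ℕ) : ℤ)) +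
      ∑ x ∈ Ico X (X + H1), ∑ h : Fin (k + 1) → Fin H, Ev G0 m r1 x h * far r2 w (oc r2 (T^[r1] (Z0 m x h 0))) +
      (H : ℝ) ^ (k + 1) * (ζ * H1 + H) := by
  set g : ℤ → ℝ := fun y => chi (c + r2 / 2 - 2 * w) w (oc (m + r1 + r2) y) * (1 - f y) with hg
  have hg0 : ∀ y, 0 ≤ g y := fun y => mul_nonneg ((chi_ind _ w).nonneg _) (by linarith [hf.le_one y])
  have hg1 : ∀ y, g y ≤ 1 := fun y => by
    calc g y ≤ 1 * 1 := mul_le_mul ((chi_ind _ w).le_one _) (by linarith [hf.nonneg y]) (by linarith [hf.le_one y])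
          zero_le_one
      _ = 1 := one_mul 1
  have h2 : ∑ x ∈ Ico X (X + (H1 : ℤ)), ∑ h : Fin (k + 1) → Fin H, g (x + ((h 0 : ℕ) : ℤ)) ≤
      (H : ℝ) ^ (k + 1) * (ζ * H1 + H) := by
    have e : ∀ x : ℤ, ∑ h : Fin (k + 1) → Fin H, g (x + ((h 0 : ℕ) : ℤ)) =
        (∑ j : Fin H, g (x + ((j : ℕ) : ℤ))) * (H : ℝ) ^ k := fun x => sum_h0 (fun j => g (x + ((j : ℕ) : ℤ)))
    simp only [e]
    rw [← sum_mul, sum_comm]
    have h3 : ∀ j ∈ (univ : Finset (Fin H)), ∑ x ∈ Ico X (X + (H1 : ℤ)), g (x + ((j : ℕ) : ℤ)) ≤ ζ * H1 + H := by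
      intro j _
      rw [shift_sum g X H1 j]
      refine (shift_le hg0 hg1 X H1 j).trans ?_
      have : ((j : ℕ) : ℝ) ≤ H := by exact_mod_cast j.2.le
      linarith
    have h4 := sum_le_sum h3
    rw [sum_const, card_univ, Fintype.card_fin, nsmul_eq_mul] at h4
    have h5 := mul_le_mul_of_nonneg_right h4 (show (0 : ℝ) ≤ (H : ℝ) ^ k by positivity)
    refine h5.trans (le_of_eq ?_)
    ring
  have h3 : ∑ x ∈ Ico X (X + (H1 : ℤ)), ∑ h : Fin (k + 1) → Fin H, Ev G0 m r1 x h ≤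
      ∑ x ∈ Ico X (X + (H1 : ℤ)), ∑ h : Fin (k + 1) → Fin H, (Ev G0 m r1 x h * f (x + ((h 0 : ℕ) : ℤ)) +
        Ev G0 m r1 x h * far r2 w (oc r2 (T^[r1] (Z0 m x h 0))) + g (x + ((h 0 : ℕ) : ℤ))) := by
    apply sum_le_sum
    intro x _
    apply sum_le_sum
    intro h _
    have := Ev_point h0 h1 hG hf m r1 r2 x h
    simp only [hg]
    linarith
  simp only [sum_add_distrib] at h3
  linarith

/-- combination -/
theorem comb {G0 : ℤ → ℝ} (h0 : ∀ l, 0 ≤ G0 l) (h1 : ∀ l, G0 l ≤ 1) {c w : ℝ}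
    (hG : ∀ l : ℤ, G0 l ≠ 0 → |(l : ℝ) - c| < w) {f : ℤ → ℝ} (hf : Ind f) {H H1 L : ℕ} (hH : 1 ≤ H) (hH1 : 1 ≤ H1)
    (hL : 1 ≤ L) (m r1 r2 : ℕ) (a : ℤ) {W b e g ζ : ℝ} (𝒢 : Finset ℤ) (h𝒢 : 𝒢 ⊆ Ico a (a + L))
    (hcard : g * L ≤ 𝒢.card)
    (hX : ∀ X ∈ 𝒢, ∑ y ∈ Ico X (X + H1), chi (c + r2 / 2 - 2 * w) w (oc (m + r1 + r2) y) * (1 - f y) ≤ ζ * H1)
    (E1 : ∀ X : ℤ, W - e ≤ (∑ x ∈ Ico X (X + H1), ∑ h : Fin (k + 1) → Fin H, Ev G0 m r1 x h) /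
      (H1 * (H : ℝ) ^ (k + 1)))
    (E2 : (∑ x ∈ Ico a (a + L), ∑ h : Fin (k + 1) → Fin H, Ev G0 m r1 x h *
      far r2 w (oc r2 (T^[r1] (Z0 m x h 0)))) / (L * (H : ℝ) ^ (k + 1)) ≤ W * b + e)
    (hpos : 0 ≤ W - e - ζ - H / H1) :
    g * (W - e - ζ - H / H1) - (W * b + e) - 2 * H1 / L ≤
      (∑ x ∈ Ico a (a + L), ∑ h : Fin (k + 1) → Fin H, Ev G0 m r1 x h * f (x + ((h 0 : ℕ) : ℤ))) /
        (L * (H : ℝ) ^ (k + 1)) := by
  have hHr : (0 : ℝ) < H := by exact_mod_cast (by omega : 0 < H)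
  have hH1r : (0 : ℝ) < H1 := by exact_mod_cast (by omega : 0 < H1)
  have hLr : (0 : ℝ) < L := by exact_mod_cast hL
  set M : ℝ := (H : ℝ) ^ (k + 1) with hM
  have hM0 : 0 < M := by positivity
  set φA : ℤ → ℝ := fun x => ∑ h : Fin (k + 1) → Fin H, Ev G0 m r1 x h * f (x + ((h 0 : ℕ) : ℤ)) with hφA
  set φB : ℤ → ℝ := fun x => ∑ h : Fin (k + 1) → Fin H, Ev G0 m r1 x h with hφB
  set φC : ℤ → ℝ := fun x => ∑ h : Fin (k + 1) → Fin H, Ev G0 m r1 x h * far r2 w (oc r2 (T^[r1] (Z0 m x h 0))) with hφC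
  have hbd : ∀ v : (Fin (k + 1) → Fin H) → ℝ, (∀ h, v h ≤ 1) → ∑ h, v h ≤ M := by
    intro v hv
    refine (sum_le_sum fun h _ => hv h).trans (le_of_eq ?_)
    rw [sum_const, card_univ, Fintype.card_fun, Fintype.card_fin, Fintype.card_fin, nsmul_eq_mul, mul_one]
    push_cast
    rfl
  have hA0 : ∀ x, 0 ≤ φA x := fun x => sum_nonneg fun h _ => mul_nonneg (Ev_01 h0 h1 m r1 x h).1 (hf.nonneg _)
  have hA1 : ∀ x, φA x ≤ M := fun x => hbd _ fun h => by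
    have h2 := Ev_01 h0 h1 m r1 x h
    calc _ ≤ (1 : ℝ) * 1 := mul_le_mul h2.2 (hf.le_one _) (hf.nonneg _) zero_le_one
      _ = 1 := one_mul 1
  have hC0 : ∀ x, 0 ≤ φC x := fun x => sum_nonneg fun h _ =>
    mul_nonneg (Ev_01 h0 h1 m r1 x h).1 ((far_ind r2 w).nonneg _)
  have hC1 : ∀ x, φC x ≤ M := fun x => hbd _ fun h => by
    have h2 := Ev_01 h0 h1 m r1 x h
    calc _ ≤ (1 : ℝ) * 1 := mul_le_mul h2.2 ((far_ind r2 w).le_one _) ((far_ind r2 w).nonneg _) zero_le_one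
      _ = 1 := one_mul 1
  have sA := slide_le hA0 hA1 a L H1
  have sC := slide_le hC0 hC1 a L H1
  -- the good blocks
  have h2 : ∀ X ∈ 𝒢, H1 * M * (W - e - ζ - H / H1) - ∑ x ∈ Ico X (X + (H1 : ℤ)), φC x ≤
      ∑ x ∈ Ico X (X + (H1 : ℤ)), φA x := by
    intro X hXg
    have h3 := block_ineq (k := k) (H := H) h0 h1 hG hf m r1 r2 X (hX X hXg)
    have h4 := E1 X
    rw [le_div_iff₀ (by positivity)] at h4
    have e1 : H1 * M * (W - e - ζ - H / H1) = (W - e) * (H1 * M) - M * (ζ * H1 + H) := by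
      field_simp
      ring
    rw [e1]
    linarith
  have h3 : ∑ X ∈ 𝒢, (H1 * M * (W - e - ζ - H / H1) - ∑ x ∈ Ico X (X + (H1 : ℤ)), φC x) ≤
      ∑ X ∈ Ico a (a + (L : ℤ)), ∑ x ∈ Ico X (X + (H1 : ℤ)), φA x :=
    (sum_le_sum h2).trans (sum_le_sum_of_subset_of_nonneg h𝒢 fun X _ _ => sum_nonneg fun x _ => hA0 x)
  rw [sum_sub_distrib, sum_const, nsmul_eq_mul] at h3
  have h4 : ∑ X ∈ 𝒢, ∑ x ∈ Ico X (X + (H1 : ℤ)), φC x ≤ ∑ X ∈ Ico a (a + (L : ℤ)), ∑ x ∈ Ico X (X + (H1 : ℤ)), φC x :=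
    sum_le_sum_of_subset_of_nonneg h𝒢 fun X _ _ => sum_nonneg fun x _ => hC0 x
  have h5 : g * L * (H1 * M * (W - e - ζ - H / H1)) ≤ 𝒢.card * (H1 * M * (W - e - ζ - H / H1)) :=
    mul_le_mul_of_nonneg_right hcard (by positivity)
  rw [div_le_iff₀ (by positivity)] at E2
  rw [le_div_iff₀ (by positivity)]
  have E2' : ∑ x ∈ Ico a (a + (L : ℤ)), φC x ≤ (W * b + e) * (L * M) := E2
  have h6 : H1 * ((g * (W - e - ζ - H / H1) - (W * b + e) - 2 * H1 / L) * (L * M)) ≤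
      H1 * ∑ x ∈ Ico a (a + (L : ℤ)), φA x := by
    have e1 : H1 * ((g * (W - e - ζ - H / H1) - (W * b + e) - 2 * H1 / L) * (L * M)) =
        g * L * (H1 * M * (W - e - ζ - H / H1)) - H1 * ((W * b + e) * (L * M)) - 2 * (H1 * (H1 * M)) := by
      field_simp
    rw [e1]
    have h7 : H1 * (∑ x ∈ Ico a (a + (L : ℤ)), φC x + H1 * M) ≤ H1 * ((W * b + e) * (L * M) + H1 * M) :=
      mul_le_mul_of_nonneg_left (by linarith) hH1r.le
    rw [mul_add] at sA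
    rw [mul_add] at h7
    linarith
  exact le_of_mul_le_mul_left h6 hH1r

/-! ## the share of one value -/

theorem pointf {G0 : ℤ → ℝ} (h0 : ∀ l, 0 ≤ G0 l) (h1 : ∀ l, G0 l ≤ 1) {f : ℤ → ℝ} (hf : Ind f) (m r1 H : ℕ) (x : ℤ)
    (F : ℤ → ℤ) (hF : ∀ x, F x = T^[m + r1] x) :
    (∑ h : Fin (k + 1) → Fin H, Ev G0 m r1 x h * f (x + ((h 0 : ℕ) : ℤ))) ≤
      ∑ j : Fin H, f (x + ((j : ℕ) : ℤ)) * (cls F x H (F (x + ((j : ℕ) : ℤ))) : ℝ) ^ k := by
  classical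
  have h2 : (∑ h : Fin (k + 1) → Fin H, Ev G0 m r1 x h * f (x + ((h 0 : ℕ) : ℤ))) ≤
      ∑ h : Fin (k + 1) → Fin H, f (x + ((h 0 : ℕ) : ℤ)) *
        (if ∀ i : Fin k, F (x + ((h i.succ : ℕ) : ℤ)) = F (x + ((h 0 : ℕ) : ℤ)) then (1 : ℝ) else 0) := by
    apply sum_le_sum
    intro h _
    obtain ⟨hE0, hE1⟩ := Ev_01 h0 h1 m r1 x h
    rw [mul_comm]
    apply mul_le_mul_of_nonneg_left _ (hf.nonneg _)
    split_ifs with h3
    · exact hE1
    · apply le_of_eq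
      unfold Ev Ph pat
      rw [if_neg, zero_mul]
      intro h4
      apply h3
      intro i
      have h5 : fut r1 (L0 m x h) (Z0 m x h) i.succ = fut r1 (L0 m x h) (Z0 m x h) 0 := (h4 i.succ 0).2 rfl
      have h6 : T^[r1] (T^[m] (x + ((h i.succ : ℕ) : ℤ))) = T^[r1] (T^[m] (x + ((h 0 : ℕ) : ℤ))) :=
        congrArg Prod.snd h5
      rw [hF, hF, Nat.add_comm m r1, Function.iterate_add_apply, Function.iterate_add_apply]
      exact h6
  refine h2.trans (le_of_eq ?_)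
  rw [← (Fin.consEquiv (fun _ : Fin (k + 1) => Fin H)).sum_comp, Fintype.sum_prod_type]
  apply sum_congr rfl
  intro j _
  have e : ∀ h' : Fin k → Fin H, f (x + (((Fin.consEquiv (fun _ : Fin (k + 1) => Fin H)) (j, h') 0 : ℕ) : ℤ)) *
      (if ∀ i : Fin k, F (x + (((Fin.consEquiv (fun _ : Fin (k + 1) => Fin H)) (j, h') i.succ : ℕ) : ℤ)) =
      F (x + (((Fin.consEquiv (fun _ : Fin (k + 1) => Fin H)) (j, h') 0 : ℕ) : ℤ)) then (1 : ℝ) else 0) =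
      f (x + ((j : ℕ) : ℤ)) * if h' ∈ Fintype.piFinset (fun _ : Fin k => (univ : Finset (Fin H)).filter
        (fun h : Fin H => F (x + ((h : ℕ) : ℤ)) = F (x + ((j : ℕ) : ℤ)))) then 1 else 0 := by
    intro h'
    congr 1
    congr 1
    apply propext
    rw [Fintype.mem_piFinset]
    constructor
    · intro h i
      rw [mem_filter]
      exact ⟨mem_univ _, h i⟩
    · intro h i
      exact (mem_filter.1 (h i)).2
  rw [sum_congr rfl (fun h' _ => e h'), ← mul_sum]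
  congr 1
  rw [← sum_filter, sum_const, nsmul_eq_mul, mul_one, filter_univ_mem, Fintype.card_piFinset_const, cls_eq]
  push_cast
  rfl

open Classical in
/-- the windows with nearly all their trajectories at one value of fate `1` -/
noncomputable def Win (f : ℤ → ℝ) (η : ℝ) (t H : ℕ) (a : ℤ) (L : ℕ) : Finset ℤ :=
  (Ico a (a + (L : ℤ))).filter (fun x => ∃ v : ℤ, f v = 1 ∧
    (1 - η) * H ≤ (((range H).filter (fun h : ℕ => T^[t] (x + h) = v)).card : ℝ))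

theorem win_count {G0 : ℤ → ℝ} (h0 : ∀ l, 0 ≤ G0 l) (h1 : ∀ l, G0 l ≤ 1) {f : ℤ → ℝ} (hf : Ind f)
    (hT : ∀ x, f (T x) = f x) {H L : ℕ} (hH : 1 ≤ H) (hL : 1 ≤ L) (m r1 : ℕ) (a : ℤ) {η : ℝ} (hη1 : η < 1) :
    (∑ x ∈ Ico a (a + L), ∑ h : Fin (k + 1) → Fin H, Ev G0 m r1 x h * f (x + ((h 0 : ℕ) : ℤ))) /
        (L * (H : ℝ) ^ (k + 1)) ≤ ((Win f η (m + r1) H a L).card : ℝ) / L + (1 - η) ^ k := by
  classical
  have hHr : (0 : ℝ) < H := by exact_mod_cast (by omega : 0 < H)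
  have hLr : (0 : ℝ) < L := by exact_mod_cast hL
  obtain ⟨F, hF⟩ : ∃ F : ℤ → ℤ, ∀ x, F x = T^[m + r1] x := ⟨fun x => T^[m + r1] x, fun _ => rfl⟩
  have h5 : ∀ x ∈ Ico a (a + (L : ℤ)), (∑ h : Fin (k + 1) → Fin H, Ev G0 m r1 x h * f (x + ((h 0 : ℕ) : ℤ))) ≤
      (if x ∈ Win f η (m + r1) H a L then (H : ℝ) ^ (k + 1) else 0) + (1 - η) ^ k * (H : ℝ) ^ (k + 1) := by
    intro x hx
    refine (pointf h0 h1 hf m r1 H x F hF).trans ?_
    split_ifs with hxS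
    · have h6 : ∑ j : Fin H, f (x + ((j : ℕ) : ℤ)) * (cls F x H (F (x + ((j : ℕ) : ℤ))) : ℝ) ^ k ≤
          ∑ _j : Fin H, (H : ℝ) ^ k := by
        apply sum_le_sum
        intro j _
        calc _ ≤ 1 * (H : ℝ) ^ k := by
              apply mul_le_mul (hf.le_one _) _ (by positivity) zero_le_one
              apply pow_le_pow_left₀ (Nat.cast_nonneg _)
              exact_mod_cast cls_le F x H _
          _ = _ := one_mul _
      rw [sum_const, card_univ, Fintype.card_fin, nsmul_eq_mul, ← pow_succ'] at h6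
      have h7 : 0 ≤ (1 - η) ^ k * (H : ℝ) ^ (k + 1) := mul_nonneg (pow_nonneg (by linarith) _) (by positivity)
      linarith
    · have h6 : ∑ j : Fin H, f (x + ((j : ℕ) : ℤ)) * (cls F x H (F (x + ((j : ℕ) : ℤ))) : ℝ) ^ k ≤
          ∑ _j : Fin H, ((1 - η) * (H : ℝ)) ^ k := by
        apply sum_le_sum
        intro j _
        have hp : 0 ≤ ((1 - η) * (H : ℝ)) ^ k := pow_nonneg (mul_nonneg (by linarith) hHr.le) _
        rcases hf (x + ((j : ℕ) : ℤ)) with h7 | h7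
        · rw [h7, zero_mul]
          exact hp
        · rw [h7, one_mul]
          apply pow_le_pow_left₀ (Nat.cast_nonneg _)
          by_contra hcon
          push Not at hcon
          apply hxS
          unfold Win
          rw [mem_filter]
          refine ⟨hx, F (x + ((j : ℕ) : ℤ)), ?_, ?_⟩
          · rw [hF, f_iter hT]
            exact h7
          · unfold cls at hcon
            simp only [hF] at hcon ⊢
            exact hcon.le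
      rw [sum_const, card_univ, Fintype.card_fin, nsmul_eq_mul, mul_pow] at h6
      rw [zero_add, pow_succ']
      linarith
  have h4 := sum_le_sum h5
  rw [sum_add_distrib, sum_const, ← sum_filter, sum_const, nsmul_eq_mul, nsmul_eq_mul, card_Ico'] at h4
  have e1 : (Ico a (a + (L : ℤ))).filter (fun x => x ∈ Win f η (m + r1) H a L) = Win f η (m + r1) H a L := by
    rw [filter_mem_eq_inter, inter_eq_right]
    unfold Win
    exact filter_subset _ _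
  rw [e1] at h4
  rw [div_le_iff₀ (by positivity)]
  refine h4.trans (le_of_eq ?_)
  field_simp

end Pool.Agent.H82.ZO
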