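import Pool.Agent.H82.ZO.Param

/-! # Zero-one law in short intervals: the main theorem -/

set_option autoImplicit false

namespace Pool.Agent.H82.ZO

open Finset
open Pool.Agent.Q74.KP
open Pool.Agent.Q74.SF
open Pool.Agent.Q74.BH
open Pool.Agent.Q74.AR (oc bE bE_mono bE_mul bE_sq bE_const)
open Pool.Agent.Q158.Pair (T)
open Pool.Agent.Q158.Col4 (cI)

/-- a small number -/
theorem small5 {A B C D a b c d : ℝ} (hA : 0 < A) (hB : 0 < B) (hC : 0 < C) (hD : 0 < D) (ha : 0 < a) (hb : 0 < b)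
    (hc : 0 < c) (hd : 0 < d) : ∃ ε : ℝ, 0 < ε ∧ ε ≤ 1 / 2 ∧ A * ε ≤ a ∧ B * ε ≤ b ∧ C * ε ≤ c ∧ D * ε ≤ d := by
  refine ⟨min (1 / 2) (min (min (a / A) (b / B)) (min (c / C) (d / D))), by positivity, min_le_left _ _, ?_, ?_, ?_, ?_⟩
  · have h : min (1 / 2) (min (min (a / A) (b / B)) (min (c / C) (d / D))) ≤ a / A :=
      (min_le_right _ _).trans ((min_le_left _ _).trans (min_le_left _ _))
    rw [le_div_iff₀ hA] at h
    linarith
  · have h : min (1 / 2) (min (min (a / A) (b / B)) (min (c / C) (d / D))) ≤ b / B :=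
      (min_le_right _ _).trans ((min_le_left _ _).trans (min_le_right _ _))
    rw [le_div_iff₀ hB] at h
    linarith
  · have h : min (1 / 2) (min (min (a / A) (b / B)) (min (c / C) (d / D))) ≤ c / C :=
      (min_le_right _ _).trans ((min_le_right _ _).trans (min_le_left _ _))
    rw [le_div_iff₀ hC] at h
    linarith
  · have h : min (1 / 2) (min (min (a / A) (b / B)) (min (c / C) (d / D))) ≤ d / D :=
      (min_le_right _ _).trans ((min_le_right _ _).trans (min_le_right _ _))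
    rw [le_div_iff₀ hD] at h
    linarith

theorem zo1 (δ θ η : ℝ) (hδ : 0 < δ) (hδ1 : δ ≤ 1) (hθ0 : 0 < θ) (hθ1 : θ < 1) (hη0 : 0 < η) (hη1 : η < 1) :
    ∃ p : ℝ, 0 < p ∧ ∃ H₀ : ℕ, ∀ H : ℕ, H₀ ≤ H → ∃ t : ℕ, (t : ℝ) ≤ 8 * Real.log H ∧
      ∀ N : ℕ, (H : ℝ) ≤ (N : ℝ) ^ θ → ∀ (a : ℤ) (f : ℤ → ℝ), Ind f → (∀ x, f (T x) = f x) →
      δ * N ≤ ∑ x ∈ Ico a (a + (N : ℤ)), f x → p * N ≤ ((Win f η t H a N).card : ℝ) := by
  have h1θ : 0 < 1 - θ := by linarith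
  -- the constants
  obtain ⟨ω, hω⟩ : ∃ ω : ℝ, ω = 10 / δ := ⟨_, rfl⟩
  have hωp : 0 < ω := by rw [hω]; positivity
  obtain ⟨K0, hK0⟩ : ∃ K0 : ℝ, K0 = 2 / δ := ⟨_, rfl⟩
  have hK0p : 0 < K0 := by rw [hK0]; positivity
  have hK0δ : 1 / (4 * K0 ^ 2) ≤ δ / 8 := by
    rw [hK0, div_pow, div_le_iff₀ (by positivity)]
    have e : δ / 8 * (4 * (2 ^ 2 / δ ^ 2)) = 2 / δ := by
      field_simp
      norm_num
    rw [e, le_div_iff₀ hδ]
    linarith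
  obtain ⟨R, rA, hR, hA⟩ := close_merge (ω := ω) (c3 := δ / 16) hωp (by positivity)
  have hRr : (1 : ℝ) ≤ R := by exact_mod_cast hR
  obtain ⟨κ₀, hκ⟩ : ∃ κ₀ : ℝ, κ₀ = (1 - θ) / (200 * R) := ⟨_, rfl⟩
  have hκ0 : 0 < κ₀ := by rw [hκ]; positivity
  have hκ1 : κ₀ ≤ 1 / 200 := by
    rw [hκ, div_le_div_iff₀ (by positivity) (by norm_num)]
    linarith
  obtain ⟨J, hJ⟩ := exists_nat_gt (K0 / (2 * ω * √(κ₀ / 12)))
  have hκ12 : 0 < √(κ₀ / 12) := Real.sqrt_pos.2 (by positivity)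
  have hJ1 : 1 ≤ J := by
    have h1 : (0 : ℝ) < J := lt_of_le_of_lt (by positivity) hJ
    exact_mod_cast h1
  have hJr : (1 : ℝ) ≤ J := by exact_mod_cast hJ1
  obtain ⟨K', hK'⟩ : ∃ K' : ℝ, K' = K0 / √(κ₀ / 12) + 4 * ω * J + 2 * ω := ⟨_, rfl⟩
  obtain ⟨p₀, hp₀, rB, hB⟩ := merge_loc (κ := κ₀) (η := η / 2) (K' := K') (w := ω / 2) hκ0 (by linarith) (by linarith)
    (by positivity)
  -- the number of points
  obtain ⟨k, hk⟩ : ∃ k : ℕ, (1 - η) ^ k ≤ δ * (p₀ * (1 - η / 2) ^ k) / 64 := by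
    have hq : (1 - η) / (1 - η / 2) < 1 := by
      rw [div_lt_one (by linarith)]
      linarith
    have hq0 : 0 ≤ (1 - η) / (1 - η / 2) := div_nonneg (by linarith) (by linarith)
    obtain ⟨k, hk⟩ := exists_pow_lt_of_lt_one (show 0 < δ * p₀ / 64 by positivity) hq
    refine ⟨k, ?_⟩
    rw [div_pow] at hk
    have h2 : 0 < (1 - η / 2) ^ k := pow_pos (by linarith) _
    rw [div_lt_iff₀ h2] at hk
    linarith
  obtain ⟨β, hβ⟩ : ∃ β : ℝ, β = p₀ * (1 - η / 2) ^ k := ⟨_, rfl⟩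
  have hβp : 0 < β := by rw [hβ]; exact mul_pos hp₀ (pow_pos (by linarith) _)
  rw [← hβ] at hk
  obtain ⟨ζ, hζ⟩ : ∃ ζ : ℝ, ζ = min (1 / 2) (β / 64) := ⟨_, rfl⟩
  have hζ0 : 0 < ζ := by rw [hζ]; positivity
  have hζ1 : ζ ≤ 1 / 2 := by rw [hζ]; exact min_le_left _ _
  have hζβ : ζ ≤ β / 64 := by rw [hζ]; exact min_le_right _ _
  obtain ⟨k', hk'⟩ : ∃ k' : ℕ, (1 - ζ) ^ (k' + 1) ≤ δ / 16 := by
    obtain ⟨n, hn⟩ := exists_pow_lt_of_lt_one (show 0 < δ / 16 by positivity) (show 1 - ζ < 1 by linarith)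
    refine ⟨n, le_trans ?_ hn.le⟩
    rw [pow_succ]
    exact mul_le_of_le_one_right (pow_nonneg (by linarith) _) (by linarith)
  obtain ⟨ε₁, hε0, hε1, e1, e2, e3, e4⟩ := small5 (A := ((k' : ℝ) + 1) * 3) (B := 2 ^ (k' + 1) * (4 * (k' + 1 : ℕ) + 3))
    (C := 2 ^ (k + 1) * (4 * (k + 1 : ℕ) + 3) + (k + 1 : ℕ)) (D := 3) (a := δ / (16 * J) / 8)
    (b := δ / 16 * (δ / (16 * J)) ^ (k' + 1)) (c := δ * β / 128) (d := β / 64) (by positivity) (by positivity)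
    (by positivity) (by norm_num) (by positivity) (by positivity) (by positivity) (by positivity)
  have herr : err (k + 1) ε₁ ≤ δ * β / 128 := by
    unfold err
    linarith
  obtain ⟨K, hKd⟩ : ∃ K : ℝ, K = 1 / √ε₁ := ⟨_, rfl⟩
  have hKp : 0 < K := by rw [hKd]; positivity
  have hKe : 1 / K ^ 2 = ε₁ := by
    rw [hKd, div_pow, one_pow, Real.sq_sqrt hε0.le, one_div_one_div]
  obtain ⟨ρ, hρ, rC, hC⟩ := inner_two (Pool.Agent.Q285.BH.inner0 fix) k (1 / ω) ε₁ (by positivity) hε0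
  obtain ⟨ρ', hρ', rD, hD⟩ := inner_two (Pool.Agent.Q285.BH.inner0 fix) k' 0 ε₁ le_rfl hε0
  obtain ⟨da, hda, Ha, hoa⟩ := Pool.Agent.Q223.BH.offT ρ κ₀ K hρ hκ0 hKp
  obtain ⟨db, hdb, Hb, hob⟩ := Pool.Agent.Q223.BH.offT ρ' (κ₀ / 12) K hρ' (by positivity) hKp
  obtain ⟨dc, hdc, Hc, hoc⟩ := Pool.Agent.Q223.BH.size (κ₀ / 2) K ε₁ 1 (by positivity) hKp hε0
  obtain ⟨dd, hdd, Hd, hod⟩ := Pool.Agent.Q223.BH.size ((1 - θ) / 36) K ε₁ 1 (by positivity) hKp hε0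
  obtain ⟨d, hd⟩ : ∃ d : ℝ, d = min 1 (min (min da db) (min dc dd)) := ⟨_, rfl⟩
  have hd0 : 0 < d := by rw [hd]; positivity
  have hd1 : d ≤ 1 := by rw [hd]; exact min_le_left _ _
  have hdda : d ≤ da := by rw [hd]; exact (min_le_right _ _).trans ((min_le_left _ _).trans (min_le_left _ _))
  have hddb : d ≤ db := by rw [hd]; exact (min_le_right _ _).trans ((min_le_left _ _).trans (min_le_right _ _))
  have hddc : d ≤ dc := by rw [hd]; exact (min_le_right _ _).trans ((min_le_right _ _).trans (min_le_left _ _))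
  have hddd : d ≤ dd := by rw [hd]; exact (min_le_right _ _).trans ((min_le_right _ _).trans (min_le_right _ _))
  obtain ⟨η₀, hη₀⟩ : ∃ η₀ : ℝ, η₀ = d / 2 := ⟨_, rfl⟩
  have hη₀0 : 0 < η₀ := by rw [hη₀]; positivity
  obtain ⟨He, hPk⟩ := mkPk hη₀0 hε0 hε1 hKp hKe
  -- large numbers
  obtain ⟨n₁, hn₁⟩ := exists_pow_lt_of_lt_one (show 0 < β / 64 by positivity) (show (1 / 4 : ℝ) < 1 by norm_num)
  obtain ⟨sm, hsm⟩ : ∃ sm : ℝ, sm = min (δ / 8) (δ * β / 256) := ⟨_, rfl⟩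
  have hsm0 : 0 < sm := by rw [hsm]; positivity
  obtain ⟨s₀, hs₀⟩ : ∃ s₀ : ℝ, s₀ = 1 / d + (1 + rA + rB + rC + rD + n₁) / κ₀ + 2 * (1 / sm) / (1 - θ) := ⟨_, rfl⟩
  obtain ⟨Hf, hHf⟩ := exists_nat_ge (Real.exp s₀)
  refine ⟨δ * β / 32, by positivity, Ha + Hb + Hc + Hd + He + Hf + 1, fun H hH => ?_⟩
  have hH1' : 1 ≤ H := by omega
  have hHr : (0 : ℝ) < H := by exact_mod_cast (by omega : 0 < H)
  have hs : s₀ ≤ Real.log H := by
    rw [Real.le_log_iff_exp_le hHr]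
    refine hHf.trans ?_
    exact_mod_cast (by omega : Hf ≤ H)
  have t1 : 0 ≤ 1 / d := by positivity
  have t2 : 0 ≤ (1 + rA + rB + rC + rD + n₁) / κ₀ := by positivity
  have t3 : 0 ≤ 2 * (1 / sm) / (1 - θ) := by positivity
  have hs1 : 1 / d ≤ Real.log H := by linarith
  have hs2' : (1 + rA + rB + rC + rD + n₁) ≤ κ₀ * Real.log H := by
    have : (1 + rA + rB + rC + rD + n₁) / κ₀ ≤ Real.log H := by linarith
    rw [div_le_iff₀ hκ0] at this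
    linarith
  have cA : (0 : ℝ) ≤ rA := Nat.cast_nonneg _
  have cB : (0 : ℝ) ≤ rB := Nat.cast_nonneg _
  have cC : (0 : ℝ) ≤ rC := Nat.cast_nonneg _
  have cD : (0 : ℝ) ≤ rD := Nat.cast_nonneg _
  have cn : (0 : ℝ) ≤ n₁ := Nat.cast_nonneg _
  have hs2 : 1 ≤ κ₀ * Real.log H := by linarith
  have hs3 : 1 / sm ≤ (1 - θ) * Real.log H / 2 := by
    have : 2 * (1 / sm) / (1 - θ) ≤ Real.log H := by linarith
    rw [div_le_iff₀ h1θ] at this
    linarith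
  obtain ⟨m, hm⟩ : ∃ m : ℕ, m = ⌊(cI - η₀) * Real.log H⌋₊ := ⟨_, rfl⟩
  obtain ⟨r1, hr1⟩ : ∃ r1 : ℕ, r1 = ⌈κ₀ * m⌉₊ := ⟨_, rfl⟩
  obtain ⟨H1, hH1⟩ : ∃ H1 : ℕ, H1 = H * 4 ^ r1 := ⟨_, rfl⟩
  obtain ⟨m1, hm1⟩ : ∃ m1 : ℕ, m1 = ⌊(cI - η₀) * Real.log H1⌋₊ := ⟨_, rfl⟩
  obtain ⟨a1, a2, a3, a4, a5, a6, a7⟩ := mfl hd0 hd1 hη₀0 hη₀.le hs1 hm
  obtain ⟨c1, c2, c3, c4, c5, c6, ⟨r2, c7, c7'⟩, c8, c9, c10⟩ :=
    numA hd0 hd1 hη₀0 hη₀.le hκ0 hκ1 hH1' hs1 hs2 hm hr1 hH1 hm1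
  have hr1r : (1 : ℝ) ≤ r1 := by exact_mod_cast c3
  obtain ⟨b1, b2, b3, b4, b5, b6, b7⟩ := mfl hd0 hd1 hη₀0 hη₀.le (show 1 / d ≤ Real.log H1 by
    rw [c5]
    have : 0 ≤ (r1 : ℝ) * Real.log 4 := mul_nonneg (by linarith) (by have := log4_bounds.1; linarith)
    linarith) hm1
  have hlog0 : 0 ≤ Real.log H := by linarith
  refine ⟨m + r1, ?_, fun N hN a f hf hT hfδ => ?_⟩
  · push_cast
    have : 8 * κ₀ * Real.log H ≤ 1 * Real.log H := mul_le_mul_of_nonneg_right (by linarith) hlog0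
    linarith
  obtain ⟨n1, n2, n3, n4⟩ := numB hR hθ0 hθ1 hκ hd0 hd1 hη₀0 hη₀.le hH1' hs1 hs2 hm hr1 hH1 hm1 c7 hN
  have hNr : (0 : ℝ) < N := by exact_mod_cast n1
  obtain ⟨μ, hμ, P⟩ := hPk H (by omega) m a1 a2 a7
  obtain ⟨μ1, hμ1, P1⟩ := hPk H1 (by omega) m1 b1 b2 b7
  have hrA : rA ≤ r1 := by
    have : (rA : ℝ) ≤ r1 := by linarith
    exact_mod_cast this
  have hrB : rB ≤ r1 := by
    have : (rB : ℝ) ≤ r1 := by linarith
    exact_mod_cast this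
  have hrC : rC ≤ r1 := by
    have : (rC : ℝ) ≤ r1 := by linarith
    exact_mod_cast this
  have hrD : rD ≤ R * r1 := by
    have h1 : (rD : ℝ) ≤ r1 := by linarith
    have h2 : rD ≤ r1 := by exact_mod_cast h1
    exact h2.trans (Nat.le_mul_of_pos_left _ (by omega))
  have hn1 : n₁ ≤ r1 := by
    have : (n₁ : ℝ) ≤ r1 := by linarith
    exact_mod_cast this
  have hsr : 0 < √(r1 : ℝ) := Real.sqrt_pos.2 (by linarith)
  have hN1 : (H1 : ℝ) ≤ sm * N := by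
    refine n4.trans (mul_le_mul_of_nonneg_right ?_ hNr.le)
    have h1 : Real.exp (-((1 - θ) * Real.log H / 2)) ≤ Real.exp (-(1 / sm)) := Real.exp_le_exp.2 (by linarith)
    refine h1.trans ?_
    rw [Real.exp_neg]
    have h2 : 1 / sm ≤ Real.exp (1 / sm) := by
      have := Real.add_one_le_exp (1 / sm)
      linarith
    have h3 : 0 < 1 / sm := by positivity
    calc (Real.exp (1 / sm))⁻¹ ≤ (1 / sm)⁻¹ := inv_anti₀ h3 h2
      _ = sm := by rw [one_div, inv_inv]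
  have hH1r : (0 : ℝ) < H1 := by exact_mod_cast (by omega : 0 < H1)
  have hsqrt : √(m1 : ℝ) * √(κ₀ / 12) ≤ √(r1 : ℝ) := by
    rw [← Real.sqrt_mul (Nat.cast_nonneg _)]
    apply Real.sqrt_le_sqrt
    linarith
  refine step (k := k) (k' := k') (R := R) (K0 := K0) (K' := K') (c3 := δ / 16) (ζ := ζ) (β := β) P P1 hKp hKe n1 c7 c3 c7'
    hf hT hδ hδ1 hfδ hη1 hω ?_ hK0p hK0δ hJ1 ?_ ?_ ?_ ?_ ?_ ?_ ?_ ?_ ?_ hβp.le le_rfl hk' hζ0.le ?_ ?_ ?_ herr ?_ hk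
  · -- `H1` is small against `N`
    refine hN1.trans (mul_le_mul_of_nonneg_right ?_ hNr.le)
    rw [hsm]
    exact min_le_left _ _
  · -- the number of ranges
    rw [div_lt_iff₀ (by positivity)] at hJ
    have h1 : K0 * √(m1 : ℝ) * √(κ₀ / 12) ≤ K0 * √(r1 : ℝ) := by
      rw [mul_assoc]
      exact mul_le_mul_of_nonneg_left hsqrt hK0p.le
    have h2 : K0 * √(r1 : ℝ) < (J * (2 * ω * √(κ₀ / 12))) * √(r1 : ℝ) := mul_lt_mul_of_pos_right hJ hsr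
    have h3 : K0 * √(m1 : ℝ) * √(κ₀ / 12) < (2 * ω * √(r1 : ℝ) * J) * √(κ₀ / 12) := by
      refine lt_of_le_of_lt h1 (lt_of_lt_of_eq h2 ?_)
      ring
    have h4 := lt_of_mul_lt_mul_right h3 hκ12.le
    linarith
  · -- the distance of the target level
    rw [hK']
    have h1 : √(m1 : ℝ) ≤ √(r1 : ℝ) / √(κ₀ / 12) := by
      rw [le_div_iff₀ hκ12]
      exact hsqrt
    have h2 : K0 * √(m1 : ℝ) ≤ K0 * (√(r1 : ℝ) / √(κ₀ / 12)) := mul_le_mul_of_nonneg_left h1 hK0p.le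
    have h3 : (K0 / √(κ₀ / 12) + 4 * ω * J + 2 * ω) * √(r1 : ℝ) = K0 * (√(r1 : ℝ) / √(κ₀ / 12)) + 4 * (ω * √(r1 : ℝ)) * J +
        2 * (ω * √(r1 : ℝ)) := by ring
    rw [h3]
    linarith
  · -- size 1
    intro o₀ ho₀
    have h1 := hoc H (by omega) m r1 H1 (by omega) (a4.trans (mul_le_mul_of_nonneg_right (by linarith)
      (Nat.cast_nonneg m))) a3 c10 μ hμ o₀ ho₀
    rw [Nat.cast_one, one_mul] at h1
    rw [add_zero]
    exact h1
  · -- size 2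
    intro o₀ ho₀
    have h1 := hod H (by omega) m (r1 + r2) N n1 (a4.trans (mul_le_mul_of_nonneg_right (by linarith)
      (Nat.cast_nonneg m))) a3 n2 μ hμ o₀ ho₀
    rw [Nat.cast_one, one_mul] at h1
    exact h1
  · -- size 3
    intro o₀ ho₀
    have h1 := hod H1 (by omega) m1 (R * r1) N n1 (b4.trans (mul_le_mul_of_nonneg_right (by linarith)
      (Nat.cast_nonneg m1))) b3 n3 μ1 hμ1 o₀ ho₀
    rw [Nat.cast_one, one_mul] at h1
    exact h1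
  · -- inner average 1
    intro o ho x z hz o₀ ho₀ c r2' φ hφ
    rw [Fintype.mem_piFinset] at ho hz
    have hoff : Off ρ r1 o z := hoa H (by omega) m r1 c1 (a4.trans (mul_le_mul_of_nonneg_right (by linarith)
      (Nat.cast_nonneg m))) a3 (k + 1) o ho x z hz
    have hw : 0 < ω * √(r1 : ℝ) := by positivity
    exact hC r1 hrC r2' o z hoff o₀ ho₀ μ (fun _ => 0) (fun z => tent c (ω * √r1) (z 0))
      (G_abs (tent_nonneg c _) (tent_le_one hw c)) (fun z z' => by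
        refine (tent_lip hw c (z 0) (z' 0)).trans ?_
        have h1 : |(z 0 : ℝ) - z' 0| ≤ ∑ i, |(z i : ℝ) - z' i| :=
          single_le_sum (f := fun i => |(z i : ℝ) - z' i|) (fun i _ => abs_nonneg _) (mem_univ 0)
        have e : 1 / ω / √(r1 : ℝ) * ∑ i, |(z i : ℝ) - z' i| = (∑ i, |(z i : ℝ) - z' i|) / (ω * √(r1 : ℝ)) := by
          field_simp
        rw [e]
        exact div_le_div_of_nonneg_right h1 hw.le) φ hφ
  · -- inner average 3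
    intro o ho x z hz o₀ ho₀
    rw [Fintype.mem_piFinset] at ho hz
    have hoff : Off ρ' (R * r1) o z := hob H1 (by omega) m1 (R * r1) (by
      refine c8.trans ?_
      push_cast
      exact le_mul_of_one_le_left (Nat.cast_nonneg _) hRr) (b4.trans (mul_le_mul_of_nonneg_right (by linarith)
      (Nat.cast_nonneg m1))) b3 (k' + 1) o ho x z hz
    have h1 := hD (R * r1) hrD 0 o z hoff o₀ ho₀ μ1 (fun _ => 0) (fun _ => 1) (fun z => by rw [abs_one])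
      (fun z z' => by rw [sub_self, abs_zero, zero_div, zero_mul]) (fun _ => 1) (fun j => by rw [abs_one])
    simp only [mul_one, add_zero, bE_const] at h1
    exact h1
  · -- close points
    intro α o ho
    exact hA r1 hrA k' α o ho
  · -- the model
    intro c hc
    rw [hβ]
    exact hB m r1 hrB c1 c hc (tent c (ω * √r1)) (tent_nonneg c _) (fun l hl => by
      apply tent_half (by positivity)
      linarith) k
  · linarith
  · linarith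
  · -- the small numbers
    have h1 : (H : ℝ) / H1 ≤ β / 64 := by
      rw [hH1]
      push_cast
      have e : (H : ℝ) / (H * 4 ^ r1) = (1 / 4) ^ r1 := by
        field_simp
        rw [← mul_pow]
        norm_num
      rw [e]
      exact (pow_le_pow_of_le_one (by norm_num) (by norm_num) hn1).trans hn₁.le
    have h2 : δ * β ≤ 1 * β := mul_le_mul_of_nonneg_right hδ1 hβp.le
    linarith only [h1, h2, hζβ, e4, herr, hβp]
  · rw [div_le_iff₀ hNr]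
    have h1 : sm ≤ δ * β / 256 := by rw [hsm]; exact min_le_right _ _
    have h2 : sm * N ≤ δ * β / 256 * N := mul_le_mul_of_nonneg_right h1 hNr.le
    linarith

/-- the main theorem -/
theorem zo (δ θ η : ℝ) (hδ : 0 < δ) (hθ0 : 0 < θ) (hθ1 : θ < 1) (hη0 : 0 < η) (hη1 : η < 1) :
    ∃ p : ℝ, 0 < p ∧ ∃ H₀ : ℕ, ∀ H : ℕ, H₀ ≤ H → ∃ t : ℕ, (t : ℝ) ≤ 8 * Real.log H ∧
      ∀ N : ℕ, (H : ℝ) ≤ (N : ℝ) ^ θ → ∀ (a : ℤ) (f : ℤ → ℝ), Ind f → (∀ x, f (T x) = f x) →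
      δ * N ≤ ∑ x ∈ Ico a (a + (N : ℤ)), f x → p * N ≤ ((Win f η t H a N).card : ℝ) := by
  obtain ⟨p, hp, H₀, h⟩ := zo1 (min δ 1) θ η (by positivity) (min_le_right _ _) hθ0 hθ1 hη0 hη1
  refine ⟨p, hp, H₀, fun H hH => ?_⟩
  obtain ⟨t, ht, h'⟩ := h H hH
  refine ⟨t, ht, fun N hN a f hf hT hfδ => h' N hN a f hf hT (le_trans ?_ hfδ)⟩
  exact mul_le_mul_of_nonneg_right (min_le_left _ _) (Nat.cast_nonneg N)

end Pool.Agent.H82.ZO
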