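import Pool.Graph.R_pool_sql_team_seeded_3997aac3.Q190.BH.Merge
import Pool.Graph.R_pool_sql_team_seeded_3997aac3.Q296.AR.Qj

/-! # Zero-one law in short intervals: coalescing walkers merge near a prescribed place -/

set_option autoImplicit false

namespace Pool.Agent.H82.ZO

open Finset
open Pool.Agent.Q74.KP
open Pool.Agent.Q74.SF
open Pool.Agent.Q74.BH
open Pool.Agent.Q74.AR (bE bE_mono bE_mul bE_add bE_const bE_sq bE_succ bE_zero Phi)
open Pool.Agent.Q190.BH.Merge

/-! ## binomial laws -/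

theorem bE_cdf (v : ℕ) : ∀ c : ℝ, bE v (fun j : ℕ => if (j : ℝ) ≤ c then 1 else 0) = Pool.Agent.Q296.AR.r v (2 * c - v) := by
  induction v with
  | zero =>
    intro c
    rw [bE_zero, Pool.Agent.Q296.AR.r_zero]
    push_cast
    by_cases h : 0 ≤ c
    · rw [if_pos h, if_pos (by linarith)]
    · rw [if_neg h, if_neg (by push Not at h ⊢; linarith)]
  | succ v ih =>
    intro c
    rw [bE_succ, Pool.Agent.Q296.AR.r_succ, ih]
    have e : (fun k : ℕ => if ((k + 1 : ℕ) : ℝ) ≤ c then (1 : ℝ) else 0) = fun k : ℕ => if (k : ℝ) ≤ c - 1 then 1 else 0 := by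
      funext k
      congr 1
      apply propext
      push_cast
      constructor <;> intro h <;> linarith
    rw [e, ih]
    push_cast
    have e1 : 2 * (c - 1) - (v : ℝ) = 2 * c - (v + 1) - 1 := by ring
    have e2 : 2 * c - (v : ℝ) = 2 * c - (v + 1) + 1 := by ring
    rw [e1, e2]
    ring

theorem Phi_gap {B w : ℝ} (hw : 0 < w) : ∃ q : ℝ, 0 < q ∧ ∀ y : ℝ, |y| ≤ B → q ≤ Phi (y + w) - Phi y := by
  refine ⟨w * Pool.Agent.Q296.AR.phi (B + w), ?_, fun y hy => ?_⟩
  · unfold Pool.Agent.Q296.AR.phi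
    positivity
  · rw [Pool.Agent.Q296.AR.Phi_sub]
    have hB : 0 ≤ B := (abs_nonneg y).trans hy
    have hy' := abs_le.1 hy
    have h1 : ∫ _ in y..(y + w), Pool.Agent.Q296.AR.phi (B + w) ≤ ∫ t in y..(y + w), Pool.Agent.Q296.AR.phi t := by
      apply intervalIntegral.integral_mono_on (by linarith) (by simp) (Pool.Agent.Q296.AR.phi_cont.intervalIntegrable _ _)
      intro t ht
      unfold Pool.Agent.Q296.AR.phi
      apply mul_le_mul_of_nonneg_left _ (by positivity)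
      apply Real.exp_le_exp.2
      have h2 : t ^ 2 ≤ (B + w) ^ 2 := by
        apply sq_le_sq'
        · linarith [ht.1]
        · linarith [ht.2]
      linarith
    rw [intervalIntegral.integral_const, smul_eq_mul] at h1
    have e : (y + w - y) = w := by ring
    rwa [e] at h1

/-- binomial laws charge all central intervals -/
theorem bin_int {M w : ℝ} (hw : 0 < w) : ∃ q : ℝ, 0 < q ∧ ∃ r₀ : ℕ, ∀ r : ℕ, r₀ ≤ r → ∀ α : ℝ,
    |α - r / 2| ≤ M * √r → q ≤ bE r (fun x : ℕ => if α ≤ x ∧ (x : ℝ) ≤ α + w * √r then 1 else 0) := by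
  obtain ⟨q, hq, hgap⟩ := Phi_gap (B := 2 * M) (w := 2 * w) (by linarith)
  obtain ⟨v₀, hv₀⟩ := Pool.Agent.Q296.AR.unif (q / 4) (by positivity)
  refine ⟨q / 2, by positivity, v₀ + 1, fun r hr α hα => ?_⟩
  have hrp : (0 : ℝ) < r := by exact_mod_cast (by omega : 0 < r)
  have hs : 0 < √(r : ℝ) := Real.sqrt_pos.2 hrp
  set y : ℝ := (2 * α - r) / √r with hy
  have hyM : |y| ≤ 2 * M := by
    rw [hy, abs_div, abs_of_pos hs, div_le_iff₀ hs]
    have e : 2 * α - r = 2 * (α - r / 2) := by ring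
    rw [e, abs_mul, abs_two]
    linarith
  have h1 := hv₀ r (by omega) y
  have h2 := hv₀ r (by omega) (y + 2 * w)
  have e1 : √(r : ℝ) * y = 2 * α - r := by rw [hy]; field_simp
  have e2 : √(r : ℝ) * (y + 2 * w) = 2 * (α + w * √r) - r := by rw [mul_add, e1]; ring
  rw [e1, ← bE_cdf] at h1
  rw [e2, ← bE_cdf] at h2
  have h3 := hgap y hyM
  have h4 : bE r (fun j : ℕ => if (j : ℝ) ≤ α + w * √r then (1 : ℝ) else 0) ≤
      bE r (fun j : ℕ => (if (j : ℝ) ≤ α then (1 : ℝ) else 0) + if α ≤ j ∧ (j : ℝ) ≤ α + w * √r then 1 else 0) := by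
    apply bE_mono
    intro j
    by_cases h5 : (j : ℝ) ≤ α
    · rw [if_pos h5]
      have : (0 : ℝ) ≤ if α ≤ j ∧ (j : ℝ) ≤ α + w * √r then 1 else 0 := by split_ifs <;> norm_num
      have h6 : (if (j : ℝ) ≤ α + w * √r then (1 : ℝ) else 0) ≤ 1 := by split_ifs <;> norm_num
      linarith
    · rw [if_neg h5, zero_add]
      push Not at h5
      split_ifs with h6 h7
      · exact le_refl _
      · exact absurd ⟨h5.le, h6⟩ h7
      · exact zero_le_one
      · exact le_refl _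
  rw [bE_add r (fun j : ℕ => if (j : ℝ) ≤ α then (1 : ℝ) else 0)] at h4
  have h1' := (abs_le.1 h1).2
  have h2' := (abs_le.1 h2).1
  linarith

/-! ## two walkers -/

/-- the indicator of `z 0 = z 1 ∈ [u, v]` -/
noncomputable def pf2 (u v : ℤ) : (Fin 2 → ℤ) → ℝ := fun z => if z 0 = z 1 ∧ u ≤ z 0 ∧ z 0 ≤ v then 1 else 0

/-- two independent walkers -/
noncomputable def R2 (u v : ℤ) (r : ℕ) (a b : ℤ) : ℝ :=
  bE r (fun x => bE r (fun y => if b + (y : ℤ) ≤ a + (x : ℤ) ∧ u ≤ a + (x : ℤ) ∧ a + (x : ℤ) ≤ v then 1 else 0))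

theorem CG2_ne (F : (Fin 2 → ℤ) → ℝ) {a b : ℤ} (h : a ≠ b) (t : ℕ) : CG F (t + 1) ![a, b] =
    (CG F t ![a, b] + CG F t ![a + 1, b] + CG F t ![a, b + 1] + CG F t ![a + 1, b + 1]) / 4 := by
  rw [CG_succ]
  have himg : univ.image ![a, b] = insert a {b} := by
    ext x
    simp [eq_comm]
  have hnm : a ∉ ({b} : Finset ℤ) := by simpa using h
  have hf : ∀ (B : Finset ℤ) (i j : ℤ), (i = if a ∈ B then 1 else 0) → (j = if b ∈ B then 1 else 0) →
      (fun l : Fin 2 => ![a, b] l + if ![a, b] l ∈ B then 1 else 0) = ![a + i, b + j] := by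
    intro B i j hi hj
    funext l
    fin_cases l
    · by_cases h0 : a ∈ B <;> simp [hi, h0]
    · by_cases h0 : b ∈ B <;> simp [hj, h0]
  rw [himg, card_insert_of_notMem hnm, card_singleton, sum_powerset_insert hnm]
  have hps : ({b} : Finset ℤ).powerset = {∅, {b}} := by
    ext B
    rw [mem_powerset, subset_singleton_iff, mem_insert, mem_singleton]
  have hne : (∅ : Finset ℤ) ≠ {b} := (singleton_ne_empty b).symm
  rw [hps, sum_pair hne, sum_pair hne]
  rw [hf ∅ 0 0 (by simp) (by simp), hf {b} 0 1 (by simp [h]) (by simp), hf (insert a ∅) 1 0 (by simp)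
    (by simp [h.symm]), hf (insert a {b}) 1 1 (by simp) (by simp)]
  rw [add_zero, add_zero]
  norm_num
  ring

theorem CG2_eq (F : (Fin 2 → ℤ) → ℝ) (a : ℤ) (t : ℕ) : CG F (t + 1) ![a, a] =
    (CG F t ![a, a] + CG F t ![a + 1, a + 1]) / 2 := by
  rw [CG_succ]
  have himg : univ.image ![a, a] = {a} := by
    ext x
    simp [eq_comm]
  have hf : ∀ (B : Finset ℤ) (i : ℤ), (i = if a ∈ B then 1 else 0) →
      (fun l : Fin 2 => ![a, a] l + if ![a, a] l ∈ B then 1 else 0) = ![a + i, a + i] := by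
    intro B i hi
    funext l
    fin_cases l
    · by_cases h0 : a ∈ B <;> simp [hi, h0]
    · by_cases h0 : a ∈ B <;> simp [hi, h0]
  have hps : ({a} : Finset ℤ).powerset = {∅, {a}} := by
    ext B
    rw [mem_powerset, subset_singleton_iff, mem_insert, mem_singleton]
  have hne : (∅ : Finset ℤ) ≠ {a} := (singleton_ne_empty a).symm
  rw [himg, card_singleton, hps, sum_pair hne, hf ∅ 0 (by simp), hf {a} 1 (by simp), add_zero, pow_one]

theorem R2_succ (u v : ℤ) (r : ℕ) (a b : ℤ) : R2 u v (r + 1) a b =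
    (R2 u v r a b + R2 u v r (a + 1) b + R2 u v r a (b + 1) + R2 u v r (a + 1) (b + 1)) / 4 := by
  have e : ∀ x : ℕ, bE (r + 1) (fun y : ℕ => if b + (y : ℤ) ≤ a + (x : ℤ) ∧ u ≤ a + (x : ℤ) ∧ a + (x : ℤ) ≤ v then (1 : ℝ) else 0) =
      (bE r (fun y : ℕ => if b + (y : ℤ) ≤ a + (x : ℤ) ∧ u ≤ a + (x : ℤ) ∧ a + (x : ℤ) ≤ v then (1 : ℝ) else 0) +
        bE r (fun y : ℕ => if b + 1 + (y : ℤ) ≤ a + (x : ℤ) ∧ u ≤ a + (x : ℤ) ∧ a + (x : ℤ) ≤ v then (1 : ℝ) else 0)) / 2 := by
    intro x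
    rw [bE_succ]
    have e1 : (fun k : ℕ => if b + ((k + 1 : ℕ) : ℤ) ≤ a + (x : ℤ) ∧ u ≤ a + (x : ℤ) ∧ a + (x : ℤ) ≤ v then (1 : ℝ) else 0) =
        fun k : ℕ => if b + 1 + (k : ℤ) ≤ a + (x : ℤ) ∧ u ≤ a + (x : ℤ) ∧ a + (x : ℤ) ≤ v then (1 : ℝ) else 0 := by
      funext k
      congr 1
      apply propext
      constructor <;> rintro ⟨h1, h2⟩ <;> refine ⟨by push_cast at h1 ⊢; omega, h2⟩
    rw [e1]
  have hh : ∀ g h : ℕ → ℝ, bE r (fun x => (g x + h x) / 2) = (bE r g + bE r h) / 2 := by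
    intro g h
    have h1 := bE_mul r (1 / 2) (fun x => g x + h x)
    rw [bE_add r g h] at h1
    have e2 : (fun k => 1 / 2 * (g k + h k)) = fun x => (g x + h x) / 2 := by funext k; ring
    rw [e2] at h1
    rw [h1]
    ring
  have e3 : ∀ b' : ℤ, (fun x : ℕ => bE r (fun y : ℕ => if b' + (y : ℤ) ≤ a + ((x + 1 : ℕ) : ℤ) ∧ u ≤ a + ((x + 1 : ℕ) : ℤ) ∧
      a + ((x + 1 : ℕ) : ℤ) ≤ v then (1 : ℝ) else 0)) =
      fun x : ℕ => bE r (fun y : ℕ => if b' + (y : ℤ) ≤ a + 1 + (x : ℤ) ∧ u ≤ a + 1 + (x : ℤ) ∧ a + 1 + (x : ℤ) ≤ v then (1 : ℝ) else 0) := by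
    intro b'
    funext x
    congr 1
    funext y
    have : a + ((x + 1 : ℕ) : ℤ) = a + 1 + (x : ℤ) := by push_cast; ring
    rw [this]
  unfold R2
  rw [bE_succ]
  simp only [e]
  rw [hh, hh, e3, e3]
  ring

theorem pf2_diag (u v : ℤ) (r : ℕ) : ∀ a : ℤ, CG (pf2 u v) r ![a, a] =
    bE r (fun x : ℕ => if u ≤ a + (x : ℤ) ∧ a + (x : ℤ) ≤ v then (1 : ℝ) else 0) := by
  induction r with
  | zero =>
    intro a
    rw [CG_zero, bE_zero]
    unfold pf2
    simp
  | succ r ih =>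
    intro a
    rw [CG2_eq, ih, ih, bE_succ]
    have e1 : (fun k : ℕ => if u ≤ a + ((k + 1 : ℕ) : ℤ) ∧ a + ((k + 1 : ℕ) : ℤ) ≤ v then (1 : ℝ) else 0) =
        fun k : ℕ => if u ≤ a + 1 + (k : ℤ) ∧ a + 1 + (k : ℤ) ≤ v then (1 : ℝ) else 0 := by
      funext k
      have : a + ((k + 1 : ℕ) : ℤ) = a + 1 + (k : ℤ) := by push_cast; ring
      rw [this]
    rw [e1]

theorem R2_le (u v : ℤ) (r : ℕ) : ∀ a b : ℤ, a ≤ b → R2 u v r a b ≤ CG (pf2 u v) r ![a, b] := by
  have hd : ∀ (r : ℕ) (a : ℤ), R2 u v r a a ≤ CG (pf2 u v) r ![a, a] := by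
    intro r a
    rw [pf2_diag]
    unfold R2
    apply bE_mono
    intro x
    have h1 := bE_mono r (fun y : ℕ => if a + (y : ℤ) ≤ a + (x : ℤ) ∧ u ≤ a + (x : ℤ) ∧ a + (x : ℤ) ≤ v then (1 : ℝ) else 0)
      (fun _ => if u ≤ a + (x : ℤ) ∧ a + (x : ℤ) ≤ v then (1 : ℝ) else 0) (by
        intro y
        split_ifs with h2 h3 h3
        · exact le_refl _
        · exact absurd h2.2 h3
        · exact zero_le_one
        · exact le_refl _)
    rwa [bE_const] at h1
  induction r with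
  | zero =>
    intro a b hab
    rcases hab.eq_or_lt with h | h
    · subst h
      exact hd 0 a
    · unfold R2
      rw [bE_zero, bE_zero, CG_zero, if_neg]
      · unfold pf2
        split_ifs <;> norm_num
      · rintro ⟨h1, _⟩
        push_cast at h1
        omega
  | succ r ih =>
    intro a b hab
    rcases hab.eq_or_lt with h | h
    · subst h
      exact hd (r + 1) a
    · rw [R2_succ, CG2_ne _ h.ne]
      have h1 := ih a b hab
      have h2 := ih (a + 1) b (by omega)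
      have h3 := ih a (b + 1) (by omega)
      have h4 := ih (a + 1) (b + 1) (by omega)
      linarith

/-- two coalescing walkers are together in a prescribed interval with a probability bounded below -/
theorem pair_loc {M w : ℝ} (hw : 0 < w) : ∃ q : ℝ, 0 < q ∧ ∃ r₀ : ℕ, ∀ r : ℕ, r₀ ≤ r → ∀ a b : ℤ, a ≤ b →
    ∀ c : ℝ, |c - r / 2 - a| ≤ M * √r → |c - r / 2 - b| ≤ M * √r →
    q ≤ CG (pf2 ⌈c - w * √r⌉ ⌊c + w * √r⌋) r ![a, b] := by
  obtain ⟨q1, hq1, r1, h1⟩ := bin_int (M := M) hw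
  obtain ⟨q2, hq2, r2, h2⟩ := bin_int (M := M + 1) (w := 1) one_pos
  refine ⟨q1 * q2, by positivity, r1 + r2 + 1, fun r hr a b hab c hca hcb => ?_⟩
  have hrp : (0 : ℝ) < r := by exact_mod_cast (by omega : 0 < r)
  have hs : 0 < √(r : ℝ) := Real.sqrt_pos.2 hrp
  refine le_trans ?_ (R2_le _ _ r a b hab)
  have h3 := h1 r (by omega) (c - a) (by
    have e : c - a - (r : ℝ) / 2 = c - r / 2 - a := by ring
    rw [e]; exact hca)
  have h4 := h2 r (by omega) (c - b - √r) (by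
    have e : c - b - √r - (r : ℝ) / 2 = (c - r / 2 - b) - √r := by ring
    rw [e]
    refine (abs_sub _ _).trans ?_
    rw [abs_of_pos hs]
    linarith)
  have h5 : bE r (fun x : ℕ => (if c - a ≤ x ∧ (x : ℝ) ≤ c - a + w * √r then (1 : ℝ) else 0) * q2) ≤
      R2 ⌈c - w * √r⌉ ⌊c + w * √r⌋ r a b := by
    unfold R2
    apply bE_mono
    intro x
    by_cases hx : c - a ≤ x ∧ (x : ℝ) ≤ c - a + w * √r
    · rw [if_pos hx, one_mul]
      refine h4.trans ?_
      apply bE_mono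
      intro y
      by_cases hy : c - b - √r ≤ y ∧ (y : ℝ) ≤ c - b - √r + 1 * √r
      · rw [if_pos hy, if_pos]
        refine ⟨?_, ?_, ?_⟩
        · have : (b : ℝ) + y ≤ a + x := by linarith [hy.2, hx.1]
          exact_mod_cast this
        · rw [Int.ceil_le]
          push_cast
          have : 0 ≤ w * √(r : ℝ) := by positivity
          linarith [hx.1]
        · rw [Int.le_floor]
          push_cast
          linarith [hx.2]
      · rw [if_neg hy]
        split_ifs <;> norm_num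
    · rw [if_neg hx, zero_mul]
      have := bE_mono r (fun _ => (0 : ℝ)) (fun y : ℕ => if b + (y : ℤ) ≤ a + (x : ℤ) ∧ ⌈c - w * √r⌉ ≤ a + (x : ℤ) ∧
        a + (x : ℤ) ≤ ⌊c + w * √r⌋ then (1 : ℝ) else 0) (by intro y; split_ifs <;> norm_num)
      rwa [bE_const] at this
  have h6 : bE r (fun x : ℕ => (if c - a ≤ x ∧ (x : ℝ) ≤ c - a + w * √r then (1 : ℝ) else 0) * q2) =
      bE r (fun x : ℕ => if c - a ≤ x ∧ (x : ℝ) ≤ c - a + w * √r then (1 : ℝ) else 0) * q2 := by
    rw [mul_comm _ q2, ← bE_mul r q2]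
    congr 1
    funext x
    rw [mul_comm]
  rw [h6] at h5
  exact (mul_le_mul_of_nonneg_right h3 hq2.le).trans h5

/-! ## many walkers -/

variable {k : ℕ}

theorem merge_ge_loc (r : ℕ) (a : Fin (k + 1) → ℤ) (lo hi : ℤ) (h : ∀ i, lo ≤ a i ∧ a i ≤ hi) (u v : ℤ)
    (G0 : ℤ → ℝ) (hG0 : ∀ l, 0 ≤ G0 l) {g : ℝ} (hG : ∀ l, u ≤ l → l ≤ v → g ≤ G0 l) :
    g * CG (pf2 u v) r ![lo, hi] ≤
      CG (fun z : Fin (k + 1) → ℤ => pat (fun _ => (0 : Fin (k + 1))) z * G0 (z 0)) r a := by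
  classical
  set b : Fin (k + 3) → ℤ := Fin.cons lo (Fin.cons hi a) with hb
  set e : Fin (k + 1) → Fin (k + 3) := fun i => i.succ.succ with he
  set e2 : Fin 2 → Fin (k + 3) := ![0, 1] with he2
  have hbe : b ∘ e = a := by
    funext i
    simp [hb, he]
  have hb2 : b ∘ e2 = ![lo, hi] := by
    funext i
    fin_cases i
    · simp [hb, he2]
    · simp only [hb, he2, Function.comp]
      rfl
  have h1 := Pool.Agent.Q177.SF.comp (k + 3) (k + 1) e
    (fun z : Fin (k + 1) → ℤ => pat (fun _ => (0 : Fin (k + 1))) z * G0 (z 0)) r b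
  have h2 := Pool.Agent.Q177.SF.comp (k + 3) 2 e2 (fun w : Fin 2 → ℤ => g * pf2 u v w) r b
  have h3 : CG (fun z : Fin (k + 3) → ℤ => g * pf2 u v (z ∘ e2)) r b ≤
      CG (fun z : Fin (k + 3) → ℤ => pat (fun _ : Fin (k + 1) => (0 : Fin (k + 1))) (z ∘ e) * G0 ((z ∘ e) 0)) r b := by
    apply cpres
    intro z hz
    by_cases hi2 : z 0 = z 1 ∧ u ≤ z 0 ∧ z 0 ≤ v
    · have hall : ∀ i, z (e i) = z 0 := by
        intro i
        have hl : z 0 ≤ z (e i) := hz 0 (e i) (by
          have : b (e i) = a i := congrFun hbe i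
          rw [this]
          exact (h i).1)
        have hr : z (e i) ≤ z 1 := hz (e i) 1 (by
          have : b (e i) = a i := congrFun hbe i
          rw [this]
          have : b 1 = hi := rfl
          rw [this]
          exact (h i).2)
        have := hi2.1
        omega
      have hp : pat (fun _ : Fin (k + 1) => (0 : Fin (k + 1))) (z ∘ e) = 1 := by
        unfold pat
        rw [if_pos]
        intro i j
        simp only [Function.comp, hall]
      have hp2 : pf2 u v (z ∘ e2) = 1 := by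
        unfold pf2
        rw [if_pos]
        exact hi2
      rw [hp, hp2, mul_one, one_mul]
      have : (z ∘ e) 0 = z 0 := hall 0
      rw [this]
      exact hG _ hi2.2.1 hi2.2.2
    · have hp2 : pf2 u v (z ∘ e2) = 0 := by
        unfold pf2
        rw [if_neg]
        exact hi2
      rw [hp2, mul_zero]
      exact mul_nonneg (pat_nonneg _ _) (hG0 _)
  rw [h1, h2, hbe, hb2] at h3
  rw [CG_mul] at h3
  exact h3

/-- `k + 1` walkers, free for `m` steps and coalescing for `r` steps, are all together near `c` with a probability which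
decays slowly with `k` -/
theorem merge_loc {κ η K' w : ℝ} (hκ : 0 < κ) (hη : 0 < η) (hη1 : η < 1) (hw : 0 < w) :
    ∃ p : ℝ, 0 < p ∧ ∃ r₀ : ℕ, ∀ m r : ℕ, r₀ ≤ r → κ * m ≤ r → ∀ c : ℝ, |c - ((m : ℝ) + r) / 2| ≤ K' * √r →
    ∀ G0 : ℤ → ℝ, (∀ l, 0 ≤ G0 l) → (∀ l : ℤ, |(l : ℝ) - c| ≤ w * √r → 1 / 2 ≤ G0 l) → ∀ k : ℕ,
    p * (1 - η) ^ k ≤ act (k + 1) (PP (k + 1) ^ m)
      (CG (fun z : Fin (k + 1) → ℤ => pat (fun _ => (0 : Fin (k + 1))) z * G0 (z 0)) r) 0 := by
  classical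
  set A : ℝ := √(1 / (4 * κ * η)) with hA
  obtain ⟨q, hq, r₀, hpair⟩ := pair_loc (M := K' + A + 1) hw
  refine ⟨q / 2 * (1 - η), by
    have : 0 < 1 - η := by linarith
    positivity, r₀ + 1, ?_⟩
  intro m r hr0 hr c hc G0 hG0 hG1 k
  have hrp : (0 : ℝ) < r := by exact_mod_cast (by omega : 0 < r)
  have hr1 : (1 : ℝ) ≤ r := by exact_mod_cast (by omega : 1 ≤ r)
  have hs : 0 < √(r : ℝ) := Real.sqrt_pos.2 hrp
  have hs1 : 1 ≤ √(r : ℝ) := by rw [Real.one_le_sqrt]; exact hr1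
  -- the window
  set D : ℝ := √((m : ℝ) / (4 * η)) with hD
  have hD0 : 0 ≤ D := Real.sqrt_nonneg _
  have hD2 : D ^ 2 = (m : ℝ) / (4 * η) := Real.sq_sqrt (by positivity)
  have hDA : D ≤ A * √r := by
    rw [hD, hA, ← Real.sqrt_mul (by positivity)]
    apply Real.sqrt_le_sqrt
    have e : 1 / (4 * κ * η) * (r : ℝ) = r / κ / (4 * η) := by field_simp
    rw [e]
    apply div_le_div_of_nonneg_right _ (by positivity)
    rw [le_div_iff₀ hκ]
    linarith
  set lo : ℤ := ⌊(m : ℝ) / 2 - D⌋ with hlo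
  set hi : ℤ := ⌈(m : ℝ) / 2 + D⌉ with hhi
  have hlo1 : (lo : ℝ) ≤ m / 2 - D := Int.floor_le _
  have hlo2 : (m : ℝ) / 2 - D < lo + 1 := Int.lt_floor_add_one _
  have hhi1 : (m : ℝ) / 2 + D ≤ hi := Int.le_ceil _
  have hhi2 : (hi : ℝ) < m / 2 + D + 1 := Int.ceil_lt_add_one _
  have hlohi : lo ≤ hi := by
    have : (lo : ℝ) ≤ hi := by linarith
    exact_mod_cast this
  set f : ℤ → ℝ := fun x => if |(x : ℝ) - m / 2| ≤ D then 1 else 0 with hf
  -- Chebyshev
  have hch : 1 - η ≤ bE m (fun x : ℕ => f x) := by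
    rcases Nat.eq_zero_or_pos m with hm0 | hmp
    · subst hm0
      rw [Pool.Agent.Q74.AR.bE_zero]
      have : f ((0 : ℕ) : ℤ) = 1 := by
        simp only [hf]
        rw [if_pos]
        simp [hD0]
      rw [this]
      linarith
    · have hmr : (0 : ℝ) < m := by exact_mod_cast hmp
      have hDp : 0 < D ^ 2 := by rw [hD2]; positivity
      have h1 : bE m (fun x : ℕ => (-(1 / D ^ 2)) * ((x : ℝ) - m / 2) ^ 2 + 1) ≤ bE m (fun x : ℕ => f x) := by
        apply bE_mono
        intro x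
        simp only [hf]
        split_ifs with h
        · have : 0 ≤ 1 / D ^ 2 * ((x : ℝ) - m / 2) ^ 2 := by positivity
          linarith
        · push Not at h
          have h2 : D ^ 2 ≤ ((x : ℝ) - m / 2) ^ 2 := by
            rw [← sq_abs ((x : ℝ) - m / 2)]
            have h3 : D ≤ |(x : ℝ) - m / 2| := by
              have := h.le
              push_cast at this
              exact this
            nlinarith
          have h3 : 1 ≤ 1 / D ^ 2 * ((x : ℝ) - m / 2) ^ 2 := by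
            rw [div_mul_eq_mul_div, one_mul, le_div_iff₀ hDp, one_mul]
            exact h2
          linarith
      rw [bE_add m (fun x : ℕ => (-(1 / D ^ 2)) * ((x : ℝ) - m / 2) ^ 2) (fun _ => 1), bE_const, bE_mul, bE_sq,
        sub_self, hD2] at h1
      have h2 : -(1 / ((m : ℝ) / (4 * η))) * ((m : ℝ) / 4 + 0 ^ 2) + 1 = 1 - η := by
        field_simp
        ring
      rw [h2] at h1
      exact h1
  -- the pair
  have hpq : q ≤ CG (pf2 ⌈c - w * √r⌉ ⌊c + w * √r⌋) r ![lo, hi] := by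
    have hc' := abs_le.1 hc
    apply hpair r (by omega) lo hi hlohi c
    · rw [abs_le]
      constructor <;> nlinarith
    · rw [abs_le]
      constructor <;> nlinarith
  -- comparison
  have hcmp : act (k + 1) (PP (k + 1) ^ m) (fun z : Fin (k + 1) → ℤ => (q / 2) * ∏ i, f (z i)) 0 ≤
      act (k + 1) (PP (k + 1) ^ m)
        (CG (fun z : Fin (k + 1) → ℤ => pat (fun _ => (0 : Fin (k + 1))) z * G0 (z 0)) r) 0 := by
    apply act_mono
    intro a
    by_cases h : ∀ i, |(a i : ℝ) - m / 2| ≤ D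
    · have e1 : ∏ i, f (a i) = 1 := by
        apply prod_eq_one
        intro i _
        simp only [hf]
        rw [if_pos (h i)]
      rw [e1, mul_one]
      have h1 := merge_ge_loc r a lo hi (fun i => by
        have h' := abs_le.1 (h i)
        constructor
        · have : (lo : ℝ) ≤ a i := by linarith [h'.1]
          exact_mod_cast this
        · have : (a i : ℝ) ≤ hi := by linarith [h'.2]
          exact_mod_cast this) ⌈c - w * √r⌉ ⌊c + w * √r⌋ G0 hG0 (g := 1 / 2) (fun l hl1 hl2 => by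
            apply hG1
            rw [Int.ceil_le] at hl1
            rw [Int.le_floor] at hl2
            rw [abs_le]
            constructor <;> linarith)
      linarith
    · push Not at h
      obtain ⟨i, hi'⟩ := h
      have e1 : ∏ i, f (a i) = 0 := by
        apply prod_eq_zero (mem_univ i)
        simp only [hf]
        rw [if_neg (not_le.2 hi')]
      rw [e1, mul_zero]
      have := CG_mono (F := fun _ : Fin (k + 1) → ℤ => (0 : ℝ))
        (G := fun z => pat (fun _ => (0 : Fin (k + 1))) z * G0 (z 0))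
        (fun z => mul_nonneg (pat_nonneg _ _) (hG0 _)) r a
      rwa [CG_const] at this
  rw [act_scale, act_prod_fn] at hcmp
  refine le_trans ?_ hcmp
  have h1 : (1 - η) ^ (k + 1) ≤ bE m (fun x : ℕ => f x) ^ (k + 1) :=
    pow_le_pow_left₀ (by linarith) hch _
  calc q / 2 * (1 - η) * (1 - η) ^ k = q / 2 * (1 - η) ^ (k + 1) := by ring
    _ ≤ q / 2 * bE m (fun x : ℕ => f x) ^ (k + 1) := mul_le_mul_of_nonneg_left h1 (by positivity)

end Pool.Agent.H82.ZO
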