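import Pool.Agent.H82.ZO.Syr

/-! # Zero-one law in short intervals: negative odd integers -/

set_option autoImplicit false

namespace Pool.Agent.H82.ZO

open Finset Filter Topology
open Pool.Agent.Q158.Pair (T)
open Pool.Agent.H499R2.ND (Inv HD dens_side Td)
open Pool.Agent.W41 (cF cF_tendsto)

open Classical in
/-- the windows of `H` negative odd integers nearly merged at one element of `S` -/
noncomputable def WinO (S : Set ℤ) (η K : ℝ) (H a N : ℕ) : Finset ℕ :=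
  (Ico a (a + N)).filter (fun n : ℕ => ∃ v ∈ S, v < 0 ∧ v % 2 = 1 ∧
    (1 - η) * H ≤ (((range H).filter (fun h : ℕ => ∃ k : ℕ, (k : ℝ) ≤ K ∧
      Syr^[k] (-(2 * ((n : ℤ) + h) + 1)) = v)).card : ℝ))

open Classical in
/-- from a window `[x, x + 2 H)` to its odd integers -/
theorem odd_window {η K : ℝ} {t H : ℕ} (ht : (t : ℝ) ≤ K) {n : ℕ} {x v : ℤ} (e : ℕ) (he : e ≤ 1)
    (hx : x = -(2 * ((n : ℤ) + H)) + e) (h : NF (η / 2) t (2 * H) v x) :
    (1 - η) * H ≤ (((range H).filter (fun h : ℕ => ∃ k : ℕ, (k : ℝ) ≤ K ∧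
      Syr^[k] (-(2 * ((n : ℤ) + h) + 1)) = odp v)).card : ℝ) := by
  classical
  rw [NF_iff] at h
  have h1 := card_filter_add_card_filter_not (s := range H)
    (fun h : ℕ => ∃ k : ℕ, (k : ℝ) ≤ K ∧ Syr^[k] (-(2 * ((n : ℤ) + h) + 1)) = odp v)
  rw [card_range] at h1
  have h2 : ((range H).filter (fun h : ℕ => ¬ ∃ k : ℕ, (k : ℝ) ≤ K ∧
      Syr^[k] (-(2 * ((n : ℤ) + h) + 1)) = odp v)).card ≤
      ((range (2 * H)).filter (fun h : ℕ => ¬ T^[t] (x + h) = v)).card := by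
    apply card_le_card_of_injOn (fun h => 2 * (H - 1 - h) + 1 - e)
    · intro i hi
      rw [mem_coe, mem_filter, mem_range] at hi
      show 2 * (H - 1 - i) + 1 - e ∈ (((range (2 * H)).filter (fun h : ℕ => ¬ T^[t] (x + h) = v) : Finset ℕ) : Set ℕ)
      rw [mem_coe, mem_filter, mem_range]
      refine ⟨by omega, fun hT => hi.2 ?_⟩
      have e1 : x + ((2 * (H - 1 - i) + 1 - e : ℕ) : ℤ) = -(2 * ((n : ℤ) + i) + 1) := by
        rw [hx]
        have : ((2 * (H - 1 - i) + 1 - e : ℕ) : ℤ) = 2 * ((H : ℤ) - 1 - i) + 1 - e := by omega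
        rw [this]
        ring
      rw [e1] at hT
      obtain ⟨k, hk, h3⟩ := odp_T_iter t (-(2 * ((n : ℤ) + i) + 1)) (by omega)
      rw [hT, odp_odd (x := -(2 * ((n : ℤ) + i) + 1)) (by omega)] at h3
      exact ⟨k, le_trans (by exact_mod_cast hk) ht, h3.symm⟩
    · intro i hi j hj hij
      rw [mem_coe, mem_filter, mem_range] at hi hj
      have : 2 * (H - 1 - i) + 1 - e = 2 * (H - 1 - j) + 1 - e := hij
      omega
  have h3 : (((range H).filter (fun h : ℕ => ¬ ∃ k : ℕ, (k : ℝ) ≤ K ∧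
      Syr^[k] (-(2 * ((n : ℤ) + h) + 1)) = odp v)).card : ℝ) ≤ η * H := by
    refine le_trans (by exact_mod_cast h2) (h.trans (le_of_eq ?_))
    push_cast
    ring
  have h4 : (((range H).filter (fun h : ℕ => ∃ k : ℕ, (k : ℝ) ≤ K ∧
      Syr^[k] (-(2 * ((n : ℤ) + h) + 1)) = odp v)).card : ℝ) + ((range H).filter (fun h : ℕ => ¬ ∃ k : ℕ, (k : ℝ) ≤ K ∧
      Syr^[k] (-(2 * ((n : ℤ) + h) + 1)) = odp v)).card = H := by
    exact_mod_cast h1
  linarith

/-- the indicator of the extension -/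
theorem fS_ext (S : Set ℤ) (x : ℤ) : fS (-1) (ext S) x = 1 ↔ x < 0 ∧ odp x ∈ S := by
  rw [fS_one]
  constructor
  · intro h
    exact h.2
  · intro h
    exact ⟨by omega, h⟩

open Classical in
/-- the odd elements -/
theorem odd_sum (S : Set ℤ) (a N : ℕ) :
    (((Ico a (a + N)).filter (fun n : ℕ => -(2 * (n : ℤ) + 1) ∈ S)).card : ℝ) ≤
      ∑ x ∈ Ico (-(2 * ((a : ℤ) + N))) (-(2 * ((a : ℤ) + N)) + (2 * N : ℕ)), fS (-1) (ext S) x := by
  have h1 : (((Ico a (a + N)).filter (fun n : ℕ => -(2 * (n : ℤ) + 1) ∈ S)).card : ℝ) =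
      ∑ x ∈ ((Ico a (a + N)).filter (fun n : ℕ => -(2 * (n : ℤ) + 1) ∈ S)).image (fun n : ℕ => -(2 * (n : ℤ) + 1)),
        fS (-1) (ext S) x := by
    rw [sum_image (by
      intro x _ y _ hxy
      have : -(2 * (x : ℤ) + 1) = -(2 * (y : ℤ) + 1) := hxy
      omega)]
    have : ∀ n ∈ (Ico a (a + N)).filter (fun n : ℕ => -(2 * (n : ℤ) + 1) ∈ S),
        fS (-1) (ext S) (-(2 * (n : ℤ) + 1)) = 1 := by
      intro n hn
      rw [mem_filter] at hn
      rw [fS_ext, odp_odd (by omega)]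
      exact ⟨by omega, hn.2⟩
    rw [sum_congr rfl this, sum_const, nsmul_eq_mul, mul_one]
  rw [h1]
  apply sum_le_sum_of_subset_of_nonneg
  · intro x hx
    rw [mem_image] at hx
    obtain ⟨n, hn, rfl⟩ := hx
    rw [mem_filter, mem_Ico] at hn
    rw [mem_Ico]
    push_cast
    omega
  · intro x _ _
    exact (fS_ind _ _).nonneg x

/-- the windows -/
theorem win_odd (S : Set ℤ) {η K : ℝ} {t : ℕ} (ht : (t : ℝ) ≤ K) {H : ℕ} (hH : 1 ≤ H) (a N : ℕ) :
    ((Win (fS (-1) (ext S)) (η / 2) t (2 * H) (-(2 * ((a : ℤ) + N))) (2 * N)).card : ℝ) ≤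
      2 * (WinO S η K H a N).card + 2 * H := by
  classical
  set A : ℤ := -(2 * ((a : ℤ) + N)) with hA
  set W := Win (fS (-1) (ext S)) (η / 2) t (2 * H) A (2 * N) with hW
  -- the windows which are not too far to the right
  have key : ∀ x ∈ W, x < -(2 * ((a : ℤ) + H)) + 2 → ((-x + (-x) % 2) / 2 - H).toNat ∈ WinO S η K H a N := by
    intro x hx hx2
    rw [hW, mem_Win, mem_Ico] at hx
    obtain ⟨hx1, v, hv, hx3⟩ := hx
    rw [fS_ext] at hv
    push_cast at hx1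
    unfold WinO
    have h1 := odp_neg hv.1
    rcases Int.emod_two_eq_zero_or_one (-x) with h | h
    · have e : (((-x + (-x) % 2) / 2 - H).toNat : ℤ) = (-x) / 2 - H := by omega
      rw [mem_filter, mem_Ico]
      refine ⟨by omega, odp v, hv.2, h1.2, h1.1, ?_⟩
      refine odd_window ht 0 (by norm_num) ?_ hx3
      rw [e]
      push_cast
      omega
    · have e : (((-x + (-x) % 2) / 2 - H).toNat : ℤ) = (-x + 1) / 2 - H := by omega
      rw [mem_filter, mem_Ico]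
      refine ⟨by omega, odp v, hv.2, h1.2, h1.1, ?_⟩
      refine odd_window ht 1 le_rfl ?_ hx3
      rw [e]
      push_cast
      omega
  -- the even ones and the odd ones
  set B : Finset ℤ := Ico (-(2 * ((a : ℤ) + H)) + 2) (-(2 * (a : ℤ)) + 0) with hB
  have hBc : B.card ≤ 2 * H := by
    rw [hB, Int.card_Ico]
    omega
  have hcov : W ⊆ B ∪ ((W \ B).filter (fun x => x % 2 = 0) ∪ (W \ B).filter (fun x => ¬ x % 2 = 0)) := by
    rw [filter_union_filter_not_eq]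
    intro x hx
    rw [mem_union, Finset.mem_sdiff]
    by_cases h : x ∈ B
    · exact Or.inl h
    · exact Or.inr ⟨hx, h⟩
  have hmem : ∀ x ∈ W \ B, x < -(2 * ((a : ℤ) + H)) + 2 := by
    intro x hx
    rw [Finset.mem_sdiff, hB, mem_Ico] at hx
    have h1 := hx.1
    rw [hW, mem_Win, mem_Ico, hA] at h1
    push_cast at h1
    have h2 := h1.1
    have h3 := hx.2
    omega
  have hE : ((W \ B).filter (fun x => x % 2 = 0)).card ≤ (WinO S η K H a N).card := by
    apply card_le_card_of_injOn (fun x => ((-x + (-x) % 2) / 2 - H).toNat)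
    · intro x hx
      rw [mem_coe, mem_filter] at hx
      exact key x (Finset.mem_sdiff.1 hx.1).1 (hmem x hx.1)
    · intro x hx y hy hxy
      rw [mem_coe, mem_filter] at hx hy
      have h1 := hmem x hx.1
      have h2 := hmem y hy.1
      have : ((-x + (-x) % 2) / 2 - H).toNat = ((-y + (-y) % 2) / 2 - H).toNat := hxy
      omega
  have hO : ((W \ B).filter (fun x => ¬ x % 2 = 0)).card ≤ (WinO S η K H a N).card := by
    apply card_le_card_of_injOn (fun x => ((-x + (-x) % 2) / 2 - H).toNat)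
    · intro x hx
      rw [mem_coe, mem_filter] at hx
      exact key x (Finset.mem_sdiff.1 hx.1).1 (hmem x hx.1)
    · intro x hx y hy hxy
      rw [mem_coe, mem_filter] at hx hy
      have h1 := hmem x hx.1
      have h2 := hmem y hy.1
      have : ((-x + (-x) % 2) / 2 - H).toNat = ((-y + (-y) % 2) / 2 - H).toNat := hxy
      omega
  have h1 := (card_le_card hcov).trans ((card_union_le _ _).trans (Nat.add_le_add_left (card_union_le _ _) _))
  have h2 : W.card ≤ 2 * (WinO S η K H a N).card + 2 * H := by omega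
  exact_mod_cast h2

/-- negative odd integers, every interval -/
theorem oddAll (δ θ η : ℝ) (hδ : 0 < δ) (hθ0 : 0 < θ) (hθ1 : θ < 1) (hη0 : 0 < η) :
    ∃ p : ℝ, 0 < p ∧ ∃ N₀ : ℕ, ∀ N : ℕ, N₀ ≤ N →
      ∀ (a : ℕ) (S : Set ℤ), (∀ x : ℤ, x < 0 → x % 2 = 1 → (x ∈ S ↔ Syr x ∈ S)) →
      δ * N ≤ ∑ x ∈ Ico (-(2 * ((a : ℤ) + N))) (-(2 * ((a : ℤ) + N)) + (2 * N : ℕ)), fS (-1) (ext S) x →
      ∀ H : ℕ, 1 ≤ H → (H : ℝ) ≤ (N : ℝ) ^ θ → p * N ≤ ((WinO S η (9 * Real.log N) H a N).card : ℝ) := by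
  set θ' : ℝ := (1 + θ) / 2 with hθ'
  obtain ⟨p, hp, N₁, h1⟩ := zoAll (δ / 2) θ' (η / 2) (by positivity) (by linarith) (by linarith) (by positivity)
  have hlim1 : Filter.Tendsto (fun N : ℕ => (N : ℝ) ^ (θ' - θ)) Filter.atTop Filter.atTop :=
    (tendsto_rpow_atTop (by rw [hθ']; linarith)).comp tendsto_natCast_atTop_atTop
  have hlim2 : Filter.Tendsto (fun N : ℕ => (N : ℝ) ^ (1 - θ)) Filter.atTop Filter.atTop :=
    (tendsto_rpow_atTop (by linarith)).comp tendsto_natCast_atTop_atTop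
  have hev := ((hlim1.eventually_ge_atTop 2).and (hlim2.eventually_ge_atTop (2 / p))).and
    (eventually_ge_atTop (N₁ + 256))
  rw [eventually_atTop] at hev
  obtain ⟨N₀, hN₀⟩ := hev
  refine ⟨p / 2, by positivity, N₀, fun N hN a S hS hSδ H hH1 hH2 => ?_⟩
  obtain ⟨⟨g1, g2⟩, g3⟩ := hN₀ N hN
  have hNr : (256 : ℝ) ≤ N := by exact_mod_cast (by omega : 256 ≤ N)
  obtain ⟨t, ht, h2⟩ := h1 (2 * N) (by omega)
  have ht' : (t : ℝ) ≤ 9 * Real.log N := by
    refine ht.trans ?_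
    push_cast
    rw [Real.log_mul (by norm_num) (by linarith)]
    have h3 : 8 * Real.log 2 ≤ Real.log N := by
      rw [show (8 : ℝ) * Real.log 2 = Real.log (2 ^ 8) by rw [Real.log_pow]; norm_num]
      exact Real.log_le_log (by norm_num) (by norm_num; linarith)
    linarith
  have hHN : ((2 * H : ℕ) : ℝ) ≤ ((2 * N : ℕ) : ℝ) ^ θ' := by
    push_cast
    have h3 : (N : ℝ) ^ θ * (N : ℝ) ^ (θ' - θ) = (N : ℝ) ^ θ' := by
      rw [← Real.rpow_add (by linarith)]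
      congr 1
      ring
    have h4 : (N : ℝ) ^ θ * 2 ≤ (N : ℝ) ^ θ' := by
      rw [← h3]
      exact mul_le_mul_of_nonneg_left g1 (by positivity)
    have h5 : (N : ℝ) ^ θ' ≤ (2 * (N : ℝ)) ^ θ' := by
      apply Real.rpow_le_rpow (by linarith) (by linarith)
      rw [hθ']
      linarith
    linarith
  have h3 := h2 (-(2 * ((a : ℤ) + N))) (fS (-1) (ext S)) (fS_ind _ _) (fS_T (Or.inr rfl) (ext_inv hS)) (by
    refine le_trans (le_of_eq ?_) hSδ
    push_cast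
    ring) (2 * H) (by omega) hHN
  have h4 := win_odd S (η := η) (K := 9 * Real.log N) ht' hH1 a N
  have h5 : 2 * (H : ℝ) ≤ p * N := by
    have e : (N : ℝ) = (N : ℝ) ^ θ * (N : ℝ) ^ (1 - θ) := by
      rw [← Real.rpow_add (by linarith)]
      norm_num
    have h7 : 1 ≤ p / 2 * (N : ℝ) ^ (1 - θ) := by
      rw [div_le_iff₀ hp] at g2
      linarith
    have h8 : (N : ℝ) ^ θ ≤ p / 2 * N := by
      calc (N : ℝ) ^ θ = (N : ℝ) ^ θ * 1 := (mul_one _).symm
        _ ≤ (N : ℝ) ^ θ * (p / 2 * (N : ℝ) ^ (1 - θ)) := mul_le_mul_of_nonneg_left h7 (by positivity)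
        _ = p / 2 * ((N : ℝ) ^ θ * (N : ℝ) ^ (1 - θ)) := by ring
        _ = p / 2 * N := by rw [← e]
    linarith
  push_cast at h3
  linarith

/-- an invariant set with an element has a positive share of the negative odd integers -/
theorem odd_low {S : Set ℤ} (hS : ∀ x : ℤ, x < 0 → x % 2 = 1 → (x ∈ S ↔ Syr x ∈ S)) {m : ℤ} (hm : m ∈ S) (hm0 : m < 0)
    (hm1 : m % 2 = 1) : ∃ δ : ℝ, 0 < δ ∧ ∃ N₀ : ℕ, ∀ N : ℕ, N₀ ≤ N →
      δ * N ≤ ∑ x ∈ Ico (-(2 * (((0 : ℕ) : ℤ) + N))) (-(2 * (((0 : ℕ) : ℤ) + N)) + (2 * N : ℕ)), fS (-1) (ext S) x := by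
  obtain ⟨δ, hδ, N₁, h1⟩ := dens_low (Or.inr rfl) (ext_inv hS) (a := m)
    ⟨hm0, by rw [odp_odd hm1]; exact hm⟩ (by omega)
  refine ⟨δ, hδ, N₁, fun N hN => ?_⟩
  have h2 := h1 (2 * N) (by omega)
  have h3 := sum_neg (ext S) (2 * N)
  have e1 : -(2 * (((0 : ℕ) : ℤ) + N)) = -((2 * N : ℕ) : ℤ) := by push_cast; ring
  rw [e1, h3]
  refine le_trans ?_ h2
  push_cast
  have : 0 ≤ δ * (N : ℝ) := by positivity
  linarith

end Pool.Agent.H82.ZO
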