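import Pool.Agent.H82.ZO.Step

/-! # Zero-one law in short intervals: the parameters -/

set_option autoImplicit false

namespace Pool.Agent.H82.ZO

open Finset
open Pool.Agent.Q74.KP
open Pool.Agent.Q74.SF
open Pool.Agent.Q74.BH
open Pool.Agent.Q74.AR (oc bE bE_mono bE_mul bE_sq bE_const)
open Pool.Agent.Q158.Pair (T)
open Pool.Agent.Q158.Col4 (cI)

theorem cI_le : cI ≤ 7 := by
  obtain ⟨hlo, hhi⟩ := Pool.Agent.Q158.Col4.log43_bounds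
  unfold Pool.Agent.Q158.Col4.cI
  rw [div_le_iff₀ (by linarith)]
  linarith

theorem log4_bounds : (1.386 : ℝ) ≤ Real.log 4 ∧ Real.log 4 ≤ 1.387 := by
  have e : Real.log 4 = 2 * Real.log 2 := by
    rw [show (4 : ℝ) = 2 ^ 2 by norm_num, Real.log_pow]
    norm_num
  have h1 := Real.log_two_gt_d9
  have h2 := Real.log_two_lt_d9
  rw [e]
  constructor <;> linarith

/-- the time of the free phase -/
theorem mfl {d η₀ s : ℝ} (hd0 : 0 < d) (hd1 : d ≤ 1) (hη0 : 0 < η₀) (hη : η₀ ≤ d / 2) (hs : 1 / d ≤ s) {m : ℕ}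
    (hm : m = ⌊(cI - η₀) * s⌋₊) : s ≤ m ∧ (m : ℝ) ≤ (cI - η₀) * s ∧ (m : ℝ) ≤ cI * s ∧ cI * s ≤ (1 + d) * m ∧
      (m : ℝ) ≤ 7 * s ∧ (cI - η₀) * s ≤ m + 1 ∧ 1 ≤ m := by
  have hcI := cI_gt
  have hcI7 := cI_le
  have hs1 : 1 ≤ s := by
    refine le_trans ?_ hs
    rw [le_div_iff₀ hd0]
    linarith
  have hds : 1 ≤ d * s := by
    rw [div_le_iff₀ hd0] at hs
    linarith
  have hp : 0 ≤ (cI - η₀) * s := mul_nonneg (by linarith) (by linarith)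
  have h1 : (m : ℝ) ≤ (cI - η₀) * s := by rw [hm]; exact Nat.floor_le hp
  have h2 : (cI - η₀) * s < m + 1 := by rw [hm]; exact Nat.lt_floor_add_one _
  have h3 : 5.5 * s ≤ (cI - η₀) * s := mul_le_mul_of_nonneg_right (by linarith) (by linarith)
  have h4 : (m : ℝ) ≤ cI * s := h1.trans (mul_le_mul_of_nonneg_right (by linarith) (by linarith))
  have h5 : s ≤ m := by linarith
  refine ⟨h5, h1, h4, ?_, h4.trans (mul_le_mul_of_nonneg_right hcI7 (by linarith)), h2.le, ?_⟩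
  · have h6 : η₀ * s ≤ d / 2 * s := mul_le_mul_of_nonneg_right hη (by linarith)
    have h7 : d * ((cI - η₀) * s) ≤ d * (m + 1) := mul_le_mul_of_nonneg_left h2.le hd0.le
    have h8 : d * (5.5 * s) ≤ d * ((cI - η₀) * s) := mul_le_mul_of_nonneg_left h3 hd0.le
    have h9 : (cI - η₀) * s = cI * s - η₀ * s := by ring
    nlinarith
  · have : (1 : ℝ) ≤ m := by linarith
    exact_mod_cast this

theorem mkPk {η₀ ε₁ K : ℝ} (hη₀ : 0 < η₀) (hε₁ : 0 < ε₁) (hε₁h : ε₁ ≤ 1 / 2) (hK : 0 < K) (hKe : 1 / K ^ 2 = ε₁) :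
    ∃ H₀ : ℕ, ∀ H : ℕ, H₀ ≤ H → ∀ m : ℕ, Real.log H ≤ m → (m : ℝ) ≤ (cI - η₀) * Real.log H → 1 ≤ m →
      ∃ μ : ℕ, (μ : ℝ) ^ 2 ≤ Real.log H ∧ Pk ε₁ K H m μ := by
  obtain ⟨H₃, htv⟩ := tvX η₀ ε₁ K hη₀ hε₁ hK
  obtain ⟨H₄, hln⟩ := Pool.Agent.Q223.BH.lnn η₀ K ε₁ hη₀ hK hε₁
  refine ⟨H₃ + H₄ + 1, fun H hH m hlogm hm2 hm1 => ?_⟩
  obtain ⟨μ, hμ, hTV⟩ := htv H (by omega) m hlogm hm2
  rw [hKe] at hTV
  refine ⟨μ, hμ, by omega, hε₁, hε₁h, fun a F hF => ?_, hln H (by omega) m hlogm hm2 μ hμ, Typ_ne ?_⟩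
  · have := hTV a F hF
    linarith
  · have h1 : (1 : ℝ) ≤ √(m : ℝ) := by
      rw [Real.one_le_sqrt]
      exact_mod_cast hm1
    have h2 : 1 ≤ K := by
      by_contra hc
      push Not at hc
      have h3 : K ^ 2 < 1 := by nlinarith
      have h4 : 1 < 1 / K ^ 2 := by
        rw [lt_div_iff₀ (by positivity)]
        linarith
      linarith
    nlinarith

/-- the numbers: the lengths `H`, `H1 = 4 ^ r1 H` -/
theorem numA {d η₀ κ₀ : ℝ} (hd0 : 0 < d) (hd1 : d ≤ 1) (hη0 : 0 < η₀) (hη : η₀ ≤ d / 2) (hκ0 : 0 < κ₀)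
    (hκ1 : κ₀ ≤ 1 / 200) {H : ℕ} (hH : 1 ≤ H) (hs : 1 / d ≤ Real.log H) (hs2 : 1 ≤ κ₀ * Real.log H) {m r1 H1 m1 : ℕ}
    (hm : m = ⌊(cI - η₀) * Real.log H⌋₊) (hr1 : r1 = ⌈κ₀ * m⌉₊) (hH1 : H1 = H * 4 ^ r1)
    (hm1 : m1 = ⌊(cI - η₀) * Real.log H1⌋₊) :
    κ₀ * m ≤ r1 ∧ (r1 : ℝ) ≤ 8 * κ₀ * Real.log H ∧ 1 ≤ r1 ∧ κ₀ * Real.log H ≤ r1 ∧
    Real.log H1 = Real.log H + r1 * Real.log 4 ∧ H ≤ H1 ∧ (∃ r2 : ℕ, m1 = m + r1 + r2 ∧ (r2 : ℝ) ≤ 10 * r1) ∧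
    κ₀ / 12 * m1 ≤ r1 ∧ (m1 : ℝ) ≤ 8 * Real.log H ∧
    (1 + κ₀ / 2) * ((m : ℝ) + r1) ≤ cI * Real.log H + Real.logb 2 (H1 / H) := by
  have hcI := cI_gt
  have hcI7 := cI_le
  obtain ⟨hl1, hl2⟩ := log4_bounds
  obtain ⟨a1, a2, a3, a4, a5, a6, a7⟩ := mfl hd0 hd1 hη0 hη hs hm
  set s : ℝ := Real.log H with hsd
  have hs1 : 1 ≤ s := by
    refine le_trans ?_ hs
    rw [le_div_iff₀ hd0]
    linarith
  have hHr : (1 : ℝ) ≤ H := by exact_mod_cast hH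
  have hmr : (1 : ℝ) ≤ m := by exact_mod_cast a7
  have hr1' : κ₀ * m ≤ r1 := by rw [hr1]; exact Nat.le_ceil _
  have hr1'' : (r1 : ℝ) < κ₀ * m + 1 := by rw [hr1]; exact Nat.ceil_lt_add_one (by positivity)
  have hr8 : (r1 : ℝ) ≤ 8 * κ₀ * s := by
    have : κ₀ * m ≤ κ₀ * (7 * s) := mul_le_mul_of_nonneg_left a5 hκ0.le
    nlinarith
  have hr1s : κ₀ * s ≤ r1 := (mul_le_mul_of_nonneg_left a1 hκ0.le).trans hr1'
  have hr11 : 1 ≤ r1 := by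
    have : (1 : ℝ) ≤ r1 := by linarith
    exact_mod_cast this
  have hr1r : (1 : ℝ) ≤ r1 := by exact_mod_cast hr11
  have hlogH1 : Real.log H1 = s + r1 * Real.log 4 := by
    rw [hH1]
    push_cast
    rw [Real.log_mul (by positivity) (by positivity), Real.log_pow]
  have hHH1 : H ≤ H1 := by
    rw [hH1]
    exact Nat.le_mul_of_pos_right _ (by positivity)
  have hss1 : s ≤ Real.log H1 := by
    rw [hlogH1]
    have : 0 ≤ (r1 : ℝ) * Real.log 4 := by positivity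
    linarith
  obtain ⟨b1, b2, b3, b4, b5, b6, b7⟩ := mfl hd0 hd1 hη0 hη (hs.trans hss1) hm1
  set s1 : ℝ := Real.log H1 with hs1d
  have hmr1 : m + r1 ≤ m1 := by
    rw [hm1]
    apply Nat.le_floor
    push_cast
    rw [hlogH1]
    have h1 : (r1 : ℝ) ≤ (cI - η₀) * (r1 * Real.log 4) := by
      have h2 : 1 ≤ (cI - η₀) * Real.log 4 := by
        have h3 : 5 * 1.386 ≤ (cI - η₀) * Real.log 4 := mul_le_mul (by linarith) hl1 (by norm_num) (by linarith)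
        linarith
      nlinarith
    have h4 : (cI - η₀) * (s + r1 * Real.log 4) = (cI - η₀) * s + (cI - η₀) * (r1 * Real.log 4) := by ring
    rw [h4]
    linarith
  have hup : (m1 : ℝ) ≤ m + 1 + 9.709 * r1 := by
    have h1 : (cI - η₀) * s1 = (cI - η₀) * s + ((cI - η₀) * Real.log 4) * r1 := by rw [hlogH1]; ring
    have h2 : (cI - η₀) * Real.log 4 ≤ 7 * 1.387 := mul_le_mul (by linarith) hl2 (by linarith) (by norm_num)
    have h3 : ((cI - η₀) * Real.log 4) * r1 ≤ (7 * 1.387) * r1 := mul_le_mul_of_nonneg_right h2 (by linarith)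
    have h4 : (7 : ℝ) * 1.387 = 9.709 := by norm_num
    rw [h4] at h3
    linarith
  refine ⟨hr1', hr8, hr11, hr1s, hlogH1, hHH1, ⟨m1 - (m + r1), by omega, ?_⟩, ?_, ?_, ?_⟩
  · rw [Nat.cast_sub hmr1]
    push_cast
    linarith
  · have h1 : κ₀ * m1 ≤ κ₀ * (m + 1 + 9.709 * r1) := mul_le_mul_of_nonneg_left hup hκ0.le
    nlinarith
  · have h1 : (8 : ℝ) * κ₀ * s ≤ 8 * (1 / 200) * s := by
      apply mul_le_mul_of_nonneg_right _ (by linarith)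
      linarith
    have h2 : s1 ≤ s + 8 * (1 / 200) * s * 1.387 := by
      rw [hlogH1]
      have : (r1 : ℝ) * Real.log 4 ≤ (8 * (1 / 200) * s) * 1.387 := mul_le_mul (by linarith) hl2 (by linarith) (by positivity)
      linarith
    nlinarith
  · have h1 : Real.logb 2 (H1 / H) = 2 * r1 := by
      have h2 : (H1 : ℝ) / H = 2 ^ (2 * r1) := by
        rw [hH1]
        push_cast
        rw [mul_div_cancel_left₀ _ (by positivity), pow_mul]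
        norm_num
      rw [h2, Real.logb_pow, Real.logb_self_eq_one (by norm_num)]
      push_cast
      ring
    rw [h1]
    have h2 : κ₀ / 2 * r1 ≤ 1 / 2 * r1 := mul_le_mul_of_nonneg_right (by linarith) (by linarith)
    nlinarith

/-- the numbers: the length `N` -/
theorem numB {d η₀ κ₀ θ : ℝ} {R : ℕ} (hR : 1 ≤ R) (hθ0 : 0 < θ) (hθ1 : θ < 1) (hκ : κ₀ = (1 - θ) / (200 * R))
    (hd0 : 0 < d) (hd1 : d ≤ 1) (hη0 : 0 < η₀) (hη : η₀ ≤ d / 2) {H : ℕ} (hH : 1 ≤ H) (hs : 1 / d ≤ Real.log H)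
    (hs2 : 1 ≤ κ₀ * Real.log H) {m r1 H1 m1 r2 N : ℕ}
    (hm : m = ⌊(cI - η₀) * Real.log H⌋₊) (hr1 : r1 = ⌈κ₀ * m⌉₊) (hH1 : H1 = H * 4 ^ r1)
    (hm1 : m1 = ⌊(cI - η₀) * Real.log H1⌋₊) (hr2 : m1 = m + r1 + r2) (hN : (H : ℝ) ≤ (N : ℝ) ^ θ) :
    1 ≤ N ∧ (1 + (1 - θ) / 36) * ((m : ℝ) + (r1 + r2 : ℕ)) ≤ cI * Real.log H + Real.logb 2 (N / H) ∧
    (1 + (1 - θ) / 36) * ((m1 : ℝ) + (R * r1 : ℕ)) ≤ cI * Real.log H1 + Real.logb 2 (N / H1) ∧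
    (H1 : ℝ) ≤ Real.exp (-((1 - θ) * Real.log H / 2)) * N := by
  have hcI := cI_gt
  have hcI7 := cI_le
  obtain ⟨hl1, hl2⟩ := log4_bounds
  have hRr : (1 : ℝ) ≤ R := by exact_mod_cast hR
  have h1θ : 0 < 1 - θ := by linarith
  have hκ0 : 0 < κ₀ := by rw [hκ]; positivity
  have hκR : κ₀ * R = (1 - θ) / 200 := by
    rw [hκ]
    field_simp
  have hκ1 : κ₀ ≤ 1 / 200 := by
    have h1 : κ₀ ≤ κ₀ * R := le_mul_of_one_le_right hκ0.le hRr
    linarith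
  obtain ⟨c1, c2, c3, c4, c5, c6, c7, c8, c9, c10⟩ := numA hd0 hd1 hη0 hη hκ0 hκ1 hH hs hs2 hm hr1 hH1 hm1
  obtain ⟨a1, a2, a3, a4, a5, a6, a7⟩ := mfl hd0 hd1 hη0 hη hs hm
  set s : ℝ := Real.log H with hsd
  have hs1 : 1 ≤ s := by
    refine le_trans ?_ hs
    rw [le_div_iff₀ hd0]
    linarith
  have hHr : (1 : ℝ) ≤ H := by exact_mod_cast hH
  have hr1r : (1 : ℝ) ≤ r1 := by exact_mod_cast c3
  have hN0 : 1 ≤ N := by
    rcases Nat.eq_zero_or_pos N with h0 | h0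
    · exfalso
      rw [h0, Nat.cast_zero, Real.zero_rpow hθ0.ne'] at hN
      linarith
    · exact h0
  have hNr : (0 : ℝ) < N := by exact_mod_cast hN0
  have hsθ : s ≤ θ * Real.log N := by
    rw [hsd, ← Real.log_rpow hNr]
    exact Real.log_le_log (by linarith) hN
  set ℓ : ℝ := Real.log N with hℓ
  have hℓs : s + (1 - θ) * s ≤ ℓ := by
    have h3 : 0 < θ * ℓ := by linarith
    have h2 : 0 < ℓ := pos_of_mul_pos_right h3 hθ0.le
    have h1 : s ≤ ℓ := by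
      have : θ * ℓ ≤ 1 * ℓ := mul_le_mul_of_nonneg_right hθ1.le h2.le
      linarith
    have h4 : (1 - θ) * s ≤ (1 - θ) * ℓ := mul_le_mul_of_nonneg_left h1 h1θ.le
    have h5 : (1 - θ) * ℓ = ℓ - θ * ℓ := by ring
    linarith
  set τ : ℝ := (1 - θ) * s with hτ
  have hτ0 : 0 < τ := mul_pos h1θ (by linarith)
  have hRr1 : (R : ℝ) * r1 ≤ 0.04 * τ := by
    have h1 : (R : ℝ) * r1 ≤ R * (8 * κ₀ * s) := mul_le_mul_of_nonneg_left c2 (by linarith)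
    have h2 : (R : ℝ) * (8 * κ₀ * s) = 8 * (κ₀ * R) * s := by ring
    rw [h2, hκR] at h1
    have h3 : 8 * ((1 - θ) / 200) * s = 0.04 * τ := by rw [hτ]; ring
    linarith
  have hr1τ : (r1 : ℝ) ≤ 0.04 * τ := (le_mul_of_one_le_left (Nat.cast_nonneg r1) hRr).trans hRr1
  have hlog2 : Real.log 2 ≤ 1 := by
    have := Real.log_two_lt_d9
    linarith
  have hlog2p : 0 < Real.log 2 := Real.log_pos (by norm_num)
  have hlogb : ∀ M : ℕ, 1 ≤ M → Real.log M ≤ ℓ → ℓ - Real.log M ≤ Real.logb 2 ((N : ℝ) / M) := by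
    intro M hM hMℓ
    have hMr : (0 : ℝ) < M := by exact_mod_cast hM
    rw [Real.logb, Real.log_div hNr.ne' hMr.ne', le_div_iff₀ hlog2p]
    calc (ℓ - Real.log M) * Real.log 2 ≤ (ℓ - Real.log M) * 1 := mul_le_mul_of_nonneg_left hlog2 (by linarith)
      _ = ℓ - Real.log M := mul_one _
  have hr14 : (r1 : ℝ) * Real.log 4 ≤ 0.056 * τ := by
    have : (r1 : ℝ) * Real.log 4 ≤ (0.04 * τ) * 1.387 := mul_le_mul hr1τ hl2 (by linarith) (by positivity)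
    linarith
  have hlN := hlogb H hH (by linarith)
  have hH1ℓ : Real.log H1 ≤ ℓ := by rw [c5]; linarith
  have hlN1 := hlogb H1 (by omega) hH1ℓ
  obtain ⟨b1, b2, b3, b4, b5, b6, b7⟩ := mfl hd0 hd1 hη0 hη (show 1 / d ≤ Real.log H1 by
    rw [c5]
    have : 0 ≤ (r1 : ℝ) * Real.log 4 := by positivity
    linarith) hm1
  have hm1τ : (1 - θ) / 36 * m1 ≤ 8 / 36 * τ := by
    have h1 : (1 - θ) / 36 * m1 ≤ (1 - θ) / 36 * (8 * s) := mul_le_mul_of_nonneg_left c9 (by linarith)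
    rw [hτ]
    linarith
  refine ⟨hN0, ?_, ?_, ?_⟩
  · have h1 : (m : ℝ) + (r1 + r2 : ℕ) = m1 := by
      rw [hr2]
      push_cast
      ring
    rw [h1]
    have h2 : cI * Real.log H1 ≤ cI * s + 0.4 * τ := by
      rw [c5, mul_add]
      have h3 : cI * (r1 * Real.log 4) ≤ 7 * (0.056 * τ) := mul_le_mul hcI7 hr14 (by positivity) (by norm_num)
      linarith
    linarith
  · have h1 : (1 - θ) / 36 * (R * r1 : ℕ) ≤ 1 / 36 * (0.04 * τ) := by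
      push_cast
      exact mul_le_mul (by linarith) hRr1 (by positivity) (by norm_num)
    have h2 : ((R * r1 : ℕ) : ℝ) ≤ 0.04 * τ := by
      push_cast
      exact hRr1
    have h3 : (1 + (1 - θ) / 36) * ((m1 : ℝ) + (R * r1 : ℕ)) = m1 + (R * r1 : ℕ) + (1 - θ) / 36 * m1 +
        (1 - θ) / 36 * (R * r1 : ℕ) := by ring
    rw [h3]
    rw [c5] at hlN1
    linarith
  · have hH1r : (0 : ℝ) < H1 := by exact_mod_cast (by omega : 0 < H1)
    have e1 : (H1 : ℝ) = Real.exp (Real.log H1) := (Real.exp_log hH1r).symm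
    have e2 : (N : ℝ) = Real.exp ℓ := (Real.exp_log hNr).symm
    rw [e1, e2, ← Real.exp_add]
    apply Real.exp_le_exp.2
    rw [c5]
    linarith

end Pool.Agent.H82.ZO
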