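import Pool.Agent.H82.ZO.Comb
import Pool.Agent.H82.ZO.Model
import Pool.Graph.R_pool_sql_team_seeded_3997aac3.Q74.BH.Asm

/-! # Zero-one law in short intervals: preparations for the main theorem -/

set_option autoImplicit false

namespace Pool.Agent.H82.ZO

open Finset
open Pool.Agent.Q74.KP
open Pool.Agent.Q74.SF
open Pool.Agent.Q74.BH
open Pool.Agent.Q74.AR (oc bE bE_mono bE_mul bE_sq bE_const lim lim_scale Phi Phi_zero)
open Pool.Agent.Q158.Pair (T)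
open Pool.Agent.Q158.Col4 (cI)

variable {k : ℕ}

/-! ## the tent -/

/-- the tent around `c` of radius `w` -/
noncomputable def tent (c w : ℝ) (l : ℤ) : ℝ := max 0 (1 - |(l : ℝ) - c| / w)

theorem tent_nonneg (c w : ℝ) (l : ℤ) : 0 ≤ tent c w l := le_max_left _ _

theorem tent_le_one {w : ℝ} (hw : 0 < w) (c : ℝ) (l : ℤ) : tent c w l ≤ 1 := by
  unfold tent
  apply max_le zero_le_one
  have : 0 ≤ |(l : ℝ) - c| / w := by positivity
  linarith

theorem tent_ne {w : ℝ} (hw : 0 < w) (c : ℝ) (l : ℤ) (h : tent c w l ≠ 0) : |(l : ℝ) - c| < w := by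
  by_contra hc
  push Not at hc
  apply h
  unfold tent
  apply max_eq_left
  have : 1 ≤ |(l : ℝ) - c| / w := by rwa [le_div_iff₀ hw, one_mul]
  linarith

theorem tent_half {w : ℝ} (hw : 0 < w) (c : ℝ) (l : ℤ) (h : |(l : ℝ) - c| ≤ w / 2) : 1 / 2 ≤ tent c w l := by
  unfold tent
  refine le_trans ?_ (le_max_right _ _)
  have : |(l : ℝ) - c| / w ≤ 1 / 2 := by
    rw [div_le_iff₀ hw]
    linarith
  linarith

theorem tent_lip {w : ℝ} (hw : 0 < w) (c : ℝ) (l l' : ℤ) : |tent c w l - tent c w l'| ≤ |(l : ℝ) - l'| / w := by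
  unfold tent
  refine (abs_max_sub_max_le_max _ _ _ _).trans ?_
  rw [sub_self, abs_zero]
  apply max_le (by positivity)
  have e : 1 - |(l : ℝ) - c| / w - (1 - |(l' : ℝ) - c| / w) = (|(l' : ℝ) - c| - |(l : ℝ) - c|) / w := by ring
  rw [e, abs_div, abs_of_pos hw]
  apply div_le_div_of_nonneg_right _ hw.le
  refine (abs_abs_sub_abs_le _ _).trans (le_of_eq ?_)
  rw [abs_sub_comm]
  congr 1
  ring

/-! ## the next steps -/

theorem far_le (r2 : ℕ) {w : ℝ} (hw : 0 < w) : bE r2 (far r2 w) ≤ r2 / (4 * w ^ 2) := by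
  classical
  have h2 : bE r2 (far r2 w) ≤ bE r2 (fun k => (1 / w ^ 2) * ((k : ℝ) - r2 / 2) ^ 2) := by
    apply bE_mono
    intro o
    unfold far
    split_ifs with h
    · positivity
    · push Not at h
      rw [one_div, inv_mul_eq_div, le_div_iff₀ (by positivity), one_mul]
      have h4 : w ^ 2 ≤ |(o : ℝ) - r2 / 2| ^ 2 := pow_le_pow_left₀ hw.le h.le 2
      rw [sq_abs] at h4
      exact h4
  refine h2.trans (le_of_eq ?_)
  rw [bE_mul, bE_sq]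
  field_simp
  ring

theorem far_nonneg' (r2 : ℕ) (w : ℝ) : 0 ≤ bE r2 (far r2 w) := by
  have h := bE_mono r2 (fun _ => (0 : ℝ)) (far r2 w) (fun j => (far_ind r2 w).nonneg j)
  rwa [bE_const] at h

theorem far_le_one' (r2 : ℕ) (w : ℝ) : bE r2 (far r2 w) ≤ 1 := by
  have h := bE_mono r2 (far r2 w) (fun _ => (1 : ℝ)) (fun j => (far_ind r2 w).le_one j)
  rwa [bE_const] at h

/-! ## close points merge -/

theorem close_merge {ω c3 : ℝ} (hω : 0 < ω) (hc3 : 0 < c3) : ∃ R r₀ : ℕ, 1 ≤ R ∧ ∀ r1 : ℕ, r₀ ≤ r1 →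
    ∀ (k : ℕ) (α : ℝ) (o : Fin (k + 1) → ℕ), (∀ i, chi α (ω * √r1) (o i) = 1) →
    1 - c3 ≤ CG (Fm (fun _ => (0 : Fin (k + 1))) (fun _ => 1)) (R * r1) (fun i => (o i : ℤ)) := by
  obtain ⟨r₀, hr₀⟩ := pq_close (show 0 < c3 / 2 by positivity)
  obtain ⟨R₀, hR₀⟩ := exists_nat_ge (512 * ω ^ 2 / c3 ^ 2)
  refine ⟨R₀ + 1, r₀ + 1, by omega, fun r1 hr1 k α o ho => ?_⟩
  have hr1p : (0 : ℝ) < r1 := by exact_mod_cast (by omega : 0 < r1)
  set R := R₀ + 1 with hR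
  have hRr : 512 * ω ^ 2 / c3 ^ 2 ≤ R := by
    rw [hR]
    push_cast
    linarith
  have hRp : (0 : ℝ) < R := by
    rw [hR]
    positivity
  set w : ℝ := ω * √(r1 : ℝ) with hw
  have hwp : 0 < w := mul_pos hω (Real.sqrt_pos.2 hr1p)
  have ho' : ∀ i, α ≤ o i ∧ (o i : ℝ) < α + 4 * w := by
    intro i
    have h1 := ho i
    unfold chi at h1
    by_contra h2
    rw [if_neg h2] at h1
    exact zero_ne_one h1
  have h1 := Pool.Agent.Q190.BH.Merge.merge_ge (R * r1) (fun i => (o i : ℤ)) ⌈α⌉ ⌊α + 4 * w⌋ (fun i => by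
    constructor
    · rw [Int.ceil_le]
      push_cast
      exact (ho' i).1
    · rw [Int.le_floor]
      push_cast
      exact (ho' i).2.le)
  have eF : (Fm (fun _ => (0 : Fin (k + 1))) (fun _ => (1 : ℝ)) : (Fin (k + 1) → ℤ) → ℝ) =
      fun z => pat (fun _ => 0) z := by
    funext z
    unfold Fm
    rw [mul_one]
  rw [eF]
  refine le_trans ?_ h1
  have hlh : ⌈α⌉ ≤ ⌊α + 4 * w⌋ := by
    have h2 : ⌈α⌉ ≤ (o 0 : ℤ) := by
      rw [Int.ceil_le]
      push_cast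
      exact (ho' 0).1
    have h3 : (o 0 : ℤ) ≤ ⌊α + 4 * w⌋ := by
      rw [Int.le_floor]
      push_cast
      exact (ho' 0).2.le
    omega
  set d : ℤ := ⌊α + 4 * w⌋ - ⌈α⌉ with hd
  have hd0 : (d.natAbs : ℝ) ≤ 4 * w := by
    have h3 : (((d.natAbs : ℕ) : ℤ) : ℝ) = ((d : ℤ) : ℝ) := by
      congr 1
      omega
    rw [Int.cast_natCast] at h3
    rw [h3, hd]
    push_cast
    have h4 : (⌊α + 4 * w⌋ : ℝ) ≤ α + 4 * w := Int.floor_le _
    have h5 : α ≤ ⌈α⌉ := Int.le_ceil _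
    linarith
  have hrr : r₀ ≤ R * r1 := by
    have : r1 ≤ R * r1 := Nat.le_mul_of_pos_left _ (by omega)
    omega
  have h2 := (abs_le.1 (hr₀ (R * r1) hrr d)).2
  have hRr1 : (0 : ℝ) < ((R * r1 : ℕ) : ℝ) := by
    push_cast
    positivity
  have h3 := lim_lip hRr1 d.natAbs 0
  have h4 : lim ((R * r1 : ℕ) : ℝ) 0 = 0 := by
    unfold Pool.Agent.Q74.AR.lim
    rw [Nat.cast_zero, zero_div, Phi_zero]
    norm_num
  rw [h4, sub_zero, Nat.cast_zero, sub_zero, abs_of_nonneg (Nat.cast_nonneg _)] at h3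
  have hs : 0 < √(((R * r1 : ℕ) : ℝ) / 2) := Real.sqrt_pos.2 (by linarith)
  have h5 : 2 * (d.natAbs : ℝ) / √(((R * r1 : ℕ) : ℝ) / 2) ≤ c3 / 2 := by
    rw [div_le_iff₀ hs]
    have h6 : 16 * w / c3 ≤ √(((R * r1 : ℕ) : ℝ) / 2) := by
      apply Real.le_sqrt_of_sq_le
      rw [hw, div_pow, mul_pow, mul_pow, Real.sq_sqrt hr1p.le]
      have h7 : 16 ^ 2 * (ω ^ 2 * (r1 : ℝ)) / c3 ^ 2 = (512 * ω ^ 2 / c3 ^ 2) * (r1 / 2) := by ring
      rw [h7]
      push_cast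
      have := mul_le_mul_of_nonneg_right hRr (show 0 ≤ (r1 : ℝ) / 2 by positivity)
      linarith
    rw [div_le_iff₀ hc3] at h6
    linarith
  linarith

/-! ## the model weight -/

/-- `k + 1` walkers, free for `m` steps, coalescing for `r` steps, are all together near the level of `G0` -/
noncomputable def WW (k m r : ℕ) (G0 : ℤ → ℝ) : ℝ :=
  act (k + 1) (PP (k + 1) ^ m) (CG (fun z : Fin (k + 1) → ℤ => pat (fun _ => (0 : Fin (k + 1))) z * G0 (z 0)) r) 0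

theorem G_abs {G0 : ℤ → ℝ} (h0 : ∀ l, 0 ≤ G0 l) (h1 : ∀ l, G0 l ≤ 1) (z : Fin (k + 1) → ℤ) :
    |(fun z : Fin (k + 1) → ℤ => G0 (z 0)) z| ≤ 1 := by
  show |G0 (z 0)| ≤ 1
  rw [abs_of_nonneg (h0 _)]
  exact h1 _

theorem WW_01 {G0 : ℤ → ℝ} (h0 : ∀ l, 0 ≤ G0 l) (h1 : ∀ l, G0 l ≤ 1) (k m r : ℕ) :
    0 ≤ WW k m r G0 ∧ WW k m r G0 ≤ 1 := by
  have h2 := CG_abs (k := k + 1) (F := fun z : Fin (k + 1) → ℤ => pat (fun _ => (0 : Fin (k + 1))) z * G0 (z 0))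
    (Fm_abs (fun _ => (0 : Fin (k + 1))) (G_abs h0 h1)) r
  have h3 : ∀ a : Fin (k + 1) → ℤ, 0 ≤ CG (fun z : Fin (k + 1) → ℤ => pat (fun _ => (0 : Fin (k + 1))) z * G0 (z 0)) r a := by
    intro a
    have := CG_mono (F := fun _ : Fin (k + 1) → ℤ => (0 : ℝ))
        (G := fun z => pat (fun _ => (0 : Fin (k + 1))) z * G0 (z 0))
        (fun z => mul_nonneg (pat_nonneg _ _) (h0 _)) r a
    rwa [CG_const] at this
  unfold WW
  constructor
  · have := act_mono (k := k + 1) m (F := fun _ => (0 : ℝ)) h3 0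
    rwa [act_const] at this
  · have := act_mono (k := k + 1) m (G := fun _ => (1 : ℝ)) (fun a => (abs_le.1 (h2 a)).2) 0
    rwa [act_const] at this

end Pool.Agent.H82.ZO
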