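import Pool.Agent.H82.ZO.Blocks

/-! # Zero-one law in short intervals: sliding blocks, the choice of the range of levels -/

set_option autoImplicit false

namespace Pool.Agent.H82.ZO

open Finset
open Pool.Agent.Q74.KP
open Pool.Agent.Q74.SF
open Pool.Agent.Q74.BH
open Pool.Agent.Q74.AR (oc bE bE_mono bE_mul bE_choose bE_sq)
open Pool.Agent.Q158.Pair (T)

/-! ## sliding blocks -/

theorem disj_Ico (a : ℤ) (L j : ℕ) : Disjoint (Ico a (a + (L : ℤ))) (Ico (a + (L : ℤ)) (a + L + j)) := by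
  rw [disjoint_left]
  intro x h1 h2
  rw [mem_Ico] at h1 h2
  omega

theorem card_Ico' (a : ℤ) (L : ℕ) : ((Ico a (a + (L : ℤ))).card : ℝ) = L := by
  rw [Int.card_Ico, show (a + (L : ℤ) - a).toNat = L by omega]

theorem shift_le {φ : ℤ → ℝ} {M : ℝ} (h0 : ∀ x, 0 ≤ φ x) (hM : ∀ x, φ x ≤ M) (a : ℤ) (L j : ℕ) :
    ∑ x ∈ Ico (a + j) (a + j + L), φ x ≤ ∑ x ∈ Ico a (a + L), φ x + j * M := by
  have h1 : Ico (a + (j : ℤ)) (a + j + L) ⊆ Ico a (a + L) ∪ Ico (a + L) (a + L + j) := by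
    intro x hx
    rw [mem_Ico] at hx
    rw [mem_union, mem_Ico, mem_Ico]
    omega
  refine (sum_le_sum_of_subset_of_nonneg h1 (fun x _ _ => h0 x)).trans ?_
  rw [sum_union (disj_Ico a L j)]
  have h2 : ∑ x ∈ Ico (a + (L : ℤ)) (a + L + j), φ x ≤ ∑ _x ∈ Ico (a + (L : ℤ)) (a + L + j), M :=
    sum_le_sum fun x _ => hM x
  rw [sum_const, nsmul_eq_mul, card_Ico'] at h2
  linarith

theorem shift_ge {φ : ℤ → ℝ} {M : ℝ} (h0 : ∀ x, 0 ≤ φ x) (hM : ∀ x, φ x ≤ M) (a : ℤ) (L j : ℕ) :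
    ∑ x ∈ Ico a (a + L), φ x ≤ ∑ x ∈ Ico (a + j) (a + j + L), φ x + j * M := by
  have h1 : Ico a (a + (L : ℤ)) ⊆ Ico a (a + j) ∪ Ico (a + j) (a + j + L) := by
    intro x hx
    rw [mem_Ico] at hx
    rw [mem_union, mem_Ico, mem_Ico]
    omega
  refine (sum_le_sum_of_subset_of_nonneg h1 (fun x _ _ => h0 x)).trans ?_
  rw [sum_union (disj_Ico a j L)]
  have h2 : ∑ x ∈ Ico a (a + (j : ℤ)), φ x ≤ ∑ _x ∈ Ico a (a + (j : ℤ)), M :=
    sum_le_sum fun x _ => hM x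
  rw [sum_const, nsmul_eq_mul, card_Ico'] at h2
  linarith

theorem slide_eq (φ : ℤ → ℝ) (a : ℤ) (L H : ℕ) :
    ∑ X ∈ Ico a (a + L), ∑ x ∈ Ico X (X + H), φ x = ∑ j : Fin H, ∑ x ∈ Ico (a + (j : ℕ)) (a + (j : ℕ) + L), φ x := by
  have h1 : ∀ X : ℤ, ∑ x ∈ Ico X (X + H), φ x = ∑ j : Fin H, φ (X + ((j : ℕ) : ℤ)) := fun X => win_sum X H φ
  simp only [h1]
  rw [sum_comm]
  apply sum_congr rfl
  intro j _
  refine sum_nbij' (fun X => X + ((j : ℕ) : ℤ)) (fun x => x - ((j : ℕ) : ℤ)) ?_ ?_ ?_ ?_ ?_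
  · intro X hX
    rw [mem_Ico] at hX ⊢
    omega
  · intro X hX
    rw [mem_Ico] at hX ⊢
    omega
  · intro X _
    show X + ((j : ℕ) : ℤ) - ((j : ℕ) : ℤ) = X
    omega
  · intro X _
    show X - ((j : ℕ) : ℤ) + ((j : ℕ) : ℤ) = X
    omega
  · intro X _
    rfl

theorem slide_le {φ : ℤ → ℝ} {M : ℝ} (h0 : ∀ x, 0 ≤ φ x) (hM : ∀ x, φ x ≤ M) (a : ℤ) (L H : ℕ) :
    ∑ X ∈ Ico a (a + L), ∑ x ∈ Ico X (X + H), φ x ≤ H * (∑ x ∈ Ico a (a + L), φ x + H * M) := by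
  have hM0 : 0 ≤ M := (h0 0).trans (hM 0)
  rw [slide_eq]
  have h1 : ∀ j ∈ (univ : Finset (Fin H)), ∑ x ∈ Ico (a + (j : ℕ)) (a + (j : ℕ) + L), φ x ≤
      ∑ x ∈ Ico a (a + L), φ x + H * M := by
    intro j _
    refine (shift_le h0 hM a L j).trans ?_
    have : ((j : ℕ) : ℝ) ≤ H := by exact_mod_cast j.2.le
    have := mul_le_mul_of_nonneg_right this hM0
    linarith
  refine (sum_le_sum h1).trans (le_of_eq ?_)
  rw [sum_const, card_univ, Fintype.card_fin, nsmul_eq_mul]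

theorem slide_ge {φ : ℤ → ℝ} {M : ℝ} (h0 : ∀ x, 0 ≤ φ x) (hM : ∀ x, φ x ≤ M) (a : ℤ) (L H : ℕ) :
    H * (∑ x ∈ Ico a (a + L), φ x - H * M) ≤ ∑ X ∈ Ico a (a + L), ∑ x ∈ Ico X (X + H), φ x := by
  have hM0 : 0 ≤ M := (h0 0).trans (hM 0)
  rw [slide_eq]
  have h1 : ∀ j ∈ (univ : Finset (Fin H)), ∑ x ∈ Ico a (a + L), φ x - H * M ≤
      ∑ x ∈ Ico (a + (j : ℕ)) (a + (j : ℕ) + L), φ x := by
    intro j _
    have h2 := shift_ge h0 hM a L j
    have : ((j : ℕ) : ℝ) ≤ H := by exact_mod_cast j.2.le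
    have := mul_le_mul_of_nonneg_right this hM0
    linarith
  refine le_trans (le_of_eq ?_) (sum_le_sum h1)
  rw [sum_const, card_univ, Fintype.card_fin, nsmul_eq_mul]

/-! ## good blocks -/

open Classical in
/-- the blocks with nearly all their points in the range of fate `1` -/
noncomputable def Gd (χ : ℕ → ℝ) (f : ℤ → ℝ) (K ζ : ℝ) (H m : ℕ) (a : ℤ) (L : ℕ) : Finset ℤ :=
  (Ico a (a + (L : ℤ))).filter (fun X => (1 - ζ) * Bw χ K m ≤ sx χ f H m X)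

theorem good_many {χ : ℕ → ℝ} (hχ : Ind χ) {f : ℤ → ℝ} (hf : Ind f) {K ζ ε₁ δ₂ c3 D : ℝ} {H m k L : ℕ} {a : ℤ}
    (hL : 1 ≤ L) (hδ : 0 ≤ δ₂) (hB0 : 0 < Bw χ K m)
    (hBx : ∀ X, |Bx χ H m X - Bw χ K m| ≤ 3 * ε₁)
    (hmean : (∑ X ∈ Ico a (a + L), sx χ f H m X * (Bx χ H m X ^ k - sx χ f H m X ^ k)) / L ≤
      Bw χ K m ^ (k + 1) * c3 + D * ε₁)
    (hA : δ₂ * Bw χ K m ≤ (∑ X ∈ Ico a (a + L), sx χ f H m X) / L)
    (h1 : c3 ≤ δ₂ / 8) (h2 : (1 - ζ) ^ (k + 1) ≤ δ₂ / 8) (h3 : k * (3 * ε₁) ≤ Bw χ K m / 8)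
    (h3' : 3 * ε₁ ≤ Bw χ K m)
    (h4 : D * ε₁ ≤ δ₂ / 8 * Bw χ K m ^ (k + 1)) (h5 : (Bw χ K m + 3 * ε₁) ^ (k + 1) ≤ 2 * Bw χ K m ^ (k + 1)) :
    δ₂ / 4 * L ≤ ((Gd χ f K ζ H m a L).card : ℝ) := by
  classical
  have hLr : (0 : ℝ) < L := by exact_mod_cast hL
  set B := Bw χ K m with hB
  have hBp : 0 < B ^ (k + 1) := pow_pos hB0 _
  -- the lower bound of the powers
  have hpow : B ^ k * (7 / 8) ≤ (B - 3 * ε₁) ^ k := by
    have e : B - 3 * ε₁ = B * (1 + -(3 * ε₁ / B)) := by field_simp; ring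
    rw [e, mul_pow]
    apply mul_le_mul_of_nonneg_left _ (pow_nonneg hB0.le _)
    have hq : 3 * ε₁ / B ≤ 1 := by rw [div_le_one hB0]; exact h3'
    have h6 := one_add_mul_le_pow (a := -(3 * ε₁ / B)) (by linarith) k
    have h7 : (k : ℝ) * (3 * ε₁ / B) ≤ 1 / 8 := by
      rw [mul_div_assoc', div_le_iff₀ hB0]
      linarith
    have h8 : 1 + (k : ℝ) * -(3 * ε₁ / B) = 1 - k * (3 * ε₁ / B) := by ring
    rw [h8] at h6
    linarith
  rw [div_le_iff₀ hLr] at hmean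
  rw [le_div_iff₀ hLr] at hA
  have hlow : ∀ X ∈ Ico a (a + (L : ℤ)), sx χ f H m X * (B ^ k * (7 / 8)) - sx χ f H m X ^ (k + 1) ≤
      sx χ f H m X * (Bx χ H m X ^ k - sx χ f H m X ^ k) := by
    intro X _
    have hs := sx_nonneg hχ hf H m X
    have h6 := (abs_le.1 (hBx X)).1
    have h7 : (B - 3 * ε₁) ^ k ≤ Bx χ H m X ^ k := pow_le_pow_left₀ (by linarith) (by linarith) k
    have h8 := mul_le_mul_of_nonneg_left (hpow.trans h7) hs
    rw [mul_sub, pow_succ]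
    linarith [mul_comm (sx χ f H m X ^ k) (sx χ f H m X)]
  have h6 := sum_le_sum hlow
  rw [sum_sub_distrib, ← sum_mul] at h6
  -- the upper bound
  have hup : ∑ X ∈ Ico a (a + (L : ℤ)), sx χ f H m X ^ (k + 1) ≤
      ((Gd χ f K ζ H m a L).card : ℝ) * (2 * B ^ (k + 1)) + L * (δ₂ / 8 * B ^ (k + 1)) := by
    have h7 : ∀ X ∈ Ico a (a + (L : ℤ)), sx χ f H m X ^ (k + 1) ≤
        (if (1 - ζ) * B ≤ sx χ f H m X then 2 * B ^ (k + 1) else 0) + δ₂ / 8 * B ^ (k + 1) := by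
      intro X _
      have hs := sx_nonneg hχ hf H m X
      split_ifs with h8
      · have h9 : sx χ f H m X ≤ B + 3 * ε₁ := by
          have := (abs_le.1 (hBx X)).2
          have := sx_le_Bx hχ hf H m X
          linarith
        have h10 := (pow_le_pow_left₀ hs h9 (k + 1)).trans h5
        have : 0 ≤ δ₂ / 8 * B ^ (k + 1) := by positivity
        linarith
      · push Not at h8
        rw [zero_add]
        have h10 := pow_le_pow_left₀ hs h8.le (k + 1)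
        rw [mul_pow] at h10
        exact h10.trans (mul_le_mul_of_nonneg_right h2 hBp.le)
    refine (sum_le_sum h7).trans (le_of_eq ?_)
    rw [sum_add_distrib, ← sum_filter, sum_const, sum_const, nsmul_eq_mul, nsmul_eq_mul, card_Ico']
    rfl
  have h7 : (5 / 8 * δ₂) * B ^ (k + 1) * L ≤ ∑ X ∈ Ico a (a + (L : ℤ)), sx χ f H m X ^ (k + 1) := by
    have h8 : δ₂ * B * L * (B ^ k * (7 / 8)) ≤ (∑ X ∈ Ico a (a + (L : ℤ)), sx χ f H m X) * (B ^ k * (7 / 8)) :=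
      mul_le_mul_of_nonneg_right hA (by positivity)
    have h9 : (B ^ (k + 1) * c3 + D * ε₁) * L ≤ (B ^ (k + 1) * (δ₂ / 8) + δ₂ / 8 * B ^ (k + 1)) * L := by
      apply mul_le_mul_of_nonneg_right _ hLr.le
      have := mul_le_mul_of_nonneg_left h1 hBp.le
      linarith
    have e : δ₂ * B * L * (B ^ k * (7 / 8)) = (7 / 8 * δ₂) * B ^ (k + 1) * L := by ring
    rw [e] at h8
    have e2 : (B ^ (k + 1) * (δ₂ / 8) + δ₂ / 8 * B ^ (k + 1)) * L = (1 / 4 * δ₂) * B ^ (k + 1) * L := by ring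
    rw [e2] at h9
    have e3 : (7 / 8 * δ₂) * B ^ (k + 1) * L - (1 / 4 * δ₂) * B ^ (k + 1) * L = (5 / 8 * δ₂) * B ^ (k + 1) * L := by ring
    linarith
  have h8 : (1 / 2 * δ₂) * B ^ (k + 1) * L ≤ ((Gd χ f K ζ H m a L).card : ℝ) * (2 * B ^ (k + 1)) := by
    have e : (5 / 8 * δ₂) * B ^ (k + 1) * L - L * (δ₂ / 8 * B ^ (k + 1)) = (1 / 2 * δ₂) * B ^ (k + 1) * L := by ring
    linarith
  have e : (1 / 2 * δ₂) * B ^ (k + 1) * L = (δ₂ / 4 * L) * (2 * B ^ (k + 1)) := by ring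
  rw [e] at h8
  exact le_of_mul_le_mul_right h8 (by positivity)

/-- the points of a good block -/
theorem good_block {χ : ℕ → ℝ} {f : ℤ → ℝ} {K ζ ε₁ : ℝ} {H m L : ℕ} {a X : ℤ} (hH : 1 ≤ H) (hζ : 0 ≤ ζ)
    (hB1 : Bw χ K m ≤ 1) (hBx : |Bx χ H m X - Bw χ K m| ≤ 3 * ε₁) (hX : X ∈ Gd χ f K ζ H m a L) :
    ∑ y ∈ Ico X (X + H), χ (oc m y) * (1 - f y) ≤ (ζ + 3 * ε₁) * H := by
  classical
  have hHr : (0 : ℝ) < H := by exact_mod_cast (by omega : 0 < H)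
  unfold Gd at hX
  rw [mem_filter] at hX
  have h1 : ∑ y ∈ Ico X (X + H), χ (oc m y) * (1 - f y) = (Bx χ H m X - sx χ f H m X) * H := by
    unfold Bx sx
    rw [← sub_div, div_mul_cancel₀ _ hHr.ne', ← sum_sub_distrib]
    apply sum_congr rfl
    intro y _
    ring
  rw [h1]
  apply mul_le_mul_of_nonneg_right _ hHr.le
  have h2 := (abs_le.1 hBx).2
  have h3 : ζ * Bw χ K m ≤ ζ := by nlinarith
  linarith [hX.2]

/-! ## the range -/

open Classical in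
/-- the indicator of `[α, α + 4 w)` -/
noncomputable def chi (α w : ℝ) (o : ℕ) : ℝ := if α ≤ o ∧ (o : ℝ) < α + 4 * w then 1 else 0

theorem chi_ind (α w : ℝ) : Ind (chi α w) := by
  intro o
  unfold chi
  split_ifs
  · exact Or.inr rfl
  · exact Or.inl rfl

theorem chi_sum_le {α w : ℝ} (hw : 0 < w) (J : ℕ) (o : ℕ) : ∑ j ∈ range J, chi (α + 4 * w * j) w o ≤ 1 := by
  classical
  have h1 : ∀ j ∈ range J, chi (α + 4 * w * j) w o ≤ if j = ⌊((o : ℝ) - α) / (4 * w)⌋₊ then 1 else 0 := by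
    intro j _
    unfold chi
    split_ifs with h2 h3 h3
    · exact le_refl _
    · exfalso
      apply h3
      symm
      have h0 : (0 : ℝ) ≤ j := Nat.cast_nonneg j
      rw [Nat.floor_eq_iff (by
        apply div_nonneg _ (by positivity)
        have : 0 ≤ 4 * w * j := by positivity
        linarith [h2.1])]
      constructor
      · rw [le_div_iff₀ (by positivity)]
        linarith [h2.1]
      · rw [div_lt_iff₀ (by positivity)]
        linarith [h2.2]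
    · exact zero_le_one
    · exact le_refl _
  refine (sum_le_sum h1).trans ?_
  rw [sum_ite_eq']
  split_ifs <;> norm_num

theorem chi_sum_ge {α w : ℝ} (hw : 0 < w) (J : ℕ) (o : ℕ) (h0 : α ≤ o) (h1 : (o : ℝ) < α + 4 * w * J) :
    1 ≤ ∑ j ∈ range J, chi (α + 4 * w * j) w o := by
  classical
  set j := ⌊((o : ℝ) - α) / (4 * w)⌋₊ with hj
  have hp : 0 ≤ ((o : ℝ) - α) / (4 * w) := div_nonneg (by linarith) (by positivity)
  have h2 : (j : ℝ) ≤ ((o : ℝ) - α) / (4 * w) := Nat.floor_le hp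
  have h3 : ((o : ℝ) - α) / (4 * w) < j + 1 := Nat.lt_floor_add_one _
  rw [le_div_iff₀ (by positivity)] at h2
  rw [div_lt_iff₀ (by positivity)] at h3
  have hjJ : j < J := by
    have : (j : ℝ) < J := by
      by_contra h
      push Not at h
      have : (J : ℝ) * (4 * w) ≤ j * (4 * w) := mul_le_mul_of_nonneg_right h (by positivity)
      linarith
    exact_mod_cast this
  have h4 : chi (α + 4 * w * j) w o = 1 := by
    unfold chi
    rw [if_pos]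
    constructor <;> linarith
  rw [← h4]
  exact single_le_sum (f := fun j : ℕ => chi (α + 4 * w * j) w o) (fun i _ => (chi_ind _ w).nonneg o) (mem_range.2 hjJ)

open Classical in
/-- the indicator of the atypical numbers of odd steps -/
noncomputable def chb (K0 : ℝ) (m : ℕ) (o : ℕ) : ℝ := if |(o : ℝ) - m / 2| ≤ K0 * √m then 0 else 1

theorem chb_ind (K0 : ℝ) (m : ℕ) : Ind (chb K0 m) := by
  intro o
  unfold chb
  split_ifs
  · exact Or.inl rfl
  · exact Or.inr rfl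

theorem chb_Bw {K0 : ℝ} (hK0 : 0 < K0) (K : ℝ) {m : ℕ} (hm : 1 ≤ m) : Bw (chb K0 m) K m ≤ 1 / (4 * K0 ^ 2) := by
  classical
  have hmr : (0 : ℝ) < m := by exact_mod_cast hm
  have h1 : Bw (chb K0 m) K m ≤ bE m (chb K0 m) := by
    rw [bE_choose]
    unfold Bw
    apply sum_le_sum_of_subset_of_nonneg
    · unfold Typ
      exact filter_subset _ _
    · intro o _ _
      exact mul_nonneg (by positivity) ((chb_ind K0 m).nonneg o)
  refine h1.trans ?_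
  have h2 : bE m (chb K0 m) ≤ bE m (fun k => (1 / (K0 ^ 2 * m)) * ((k : ℝ) - m / 2) ^ 2) := by
    apply bE_mono
    intro o
    unfold chb
    split_ifs with h
    · positivity
    · push Not at h
      rw [one_div, inv_mul_eq_div, le_div_iff₀ (by positivity), one_mul]
      have h3 : 0 ≤ K0 * √(m : ℝ) := by positivity
      have h4 : (K0 * √(m : ℝ)) ^ 2 ≤ |(o : ℝ) - m / 2| ^ 2 := pow_le_pow_left₀ h3 h.le 2
      rw [mul_pow, Real.sq_sqrt hmr.le, sq_abs] at h4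
      exact h4
  refine h2.trans (le_of_eq ?_)
  rw [bE_mul, bE_sq]
  field_simp
  ring

/-- the mean of the shares of the sliding blocks -/
theorem mean_share {f : ℤ → ℝ} (hf : Ind f) {H L : ℕ} (hH : 1 ≤ H) (hL : 1 ≤ L) {a : ℤ} {δ : ℝ}
    (hδ : δ * L ≤ ∑ x ∈ Ico a (a + L), f x) :
    δ - H / L ≤ (∑ X ∈ Ico a (a + L), (∑ y ∈ Ico X (X + H), f y) / H) / L := by
  have hHr : (0 : ℝ) < H := by exact_mod_cast (by omega : 0 < H)
  have hLr : (0 : ℝ) < L := by exact_mod_cast hL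
  have h1 := slide_ge (φ := f) (M := 1) hf.nonneg hf.le_one a L H
  rw [← sum_div, div_div, le_div_iff₀ (by positivity)]
  have e : (δ - H / L) * (H * L) = H * (δ * L - H * 1) := by field_simp
  rw [e]
  refine le_trans ?_ h1
  apply mul_le_mul_of_nonneg_left _ hHr.le
  linarith

/-- the choice of the range -/
theorem select {ε₁ K K0 δ w : ℝ} {H m μ L J : ℕ} (P : Pk ε₁ K H m μ) (hM : S_Mass) (hL : 1 ≤ L) (hm : 1 ≤ m)
    {f : ℤ → ℝ} (hf : Ind f) {a : ℤ} (hδ0 : 0 < δ) (hδ : δ * L ≤ ∑ x ∈ Ico a (a + L), f x)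
    (hHL : (H : ℝ) ≤ δ / 8 * L) (hK0 : 0 < K0) (hK0δ : 1 / (4 * K0 ^ 2) ≤ δ / 8) (hw : 0 < w) (hJ : 1 ≤ J)
    (hJw : 2 * (K0 * √m) < 4 * w * J) (hε : 3 * ε₁ ≤ δ / 8) :
    ∃ j : ℕ, j < J ∧ δ / 2 * Bw (chi (m / 2 - K0 * √m + 4 * w * j) w) K m + δ / (8 * J) ≤
      (∑ X ∈ Ico a (a + L), sx (chi (m / 2 - K0 * √m + 4 * w * j) w) f H m X) / L := by
  classical
  have hH := P.hH
  have hHr : (0 : ℝ) < H := by exact_mod_cast (by omega : 0 < H)
  have hLr : (0 : ℝ) < L := by exact_mod_cast hL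
  have hJr : (0 : ℝ) < J := by exact_mod_cast (by omega : 0 < J)
  set α : ℝ := m / 2 - K0 * √m with hα
  by_contra hcon
  push Not at hcon
  -- the sum over the ranges
  have h1 : ∑ j ∈ range J, (∑ X ∈ Ico a (a + (L : ℤ)), sx (chi (α + 4 * w * j) w) f H m X) / L <
      ∑ j ∈ range J, (δ / 2 * Bw (chi (α + 4 * w * j) w) K m + δ / (8 * J)) :=
    sum_lt_sum_of_nonempty ⟨0, mem_range.2 (by omega)⟩ fun j hj => hcon j (mem_range.1 hj)
  have h2 : ∑ j ∈ range J, Bw (chi (α + 4 * w * j) w) K m ≤ 1 := by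
    unfold Bw
    rw [sum_comm]
    refine le_trans (sum_le_sum fun o _ => ?_) (bin_sum K m)
    rw [← mul_sum]
    calc _ ≤ (m.choose o : ℝ) / 2 ^ m * 1 := mul_le_mul_of_nonneg_left (chi_sum_le hw J o) (by positivity)
      _ = _ := mul_one _
  have h3 : ∑ j ∈ range J, (δ / 2 * Bw (chi (α + 4 * w * j) w) K m + δ / (8 * J)) ≤ δ / 2 + δ / 8 := by
    rw [sum_add_distrib, ← mul_sum, sum_const, card_range, nsmul_eq_mul]
    have e : (J : ℝ) * (δ / (8 * J)) = δ / 8 := by field_simp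
    rw [e]
    have := mul_le_mul_of_nonneg_left h2 (show 0 ≤ δ / 2 by positivity)
    linarith
  -- from below
  have h4 : ∀ X : ℤ, (∑ y ∈ Ico X (X + H), f y) / H - Bx (chb K0 m) H m X ≤
      ∑ j ∈ range J, sx (chi (α + 4 * w * j) w) f H m X := by
    intro X
    unfold sx Bx
    rw [← sum_div, ← sub_div]
    apply div_le_div_of_nonneg_right _ hHr.le
    rw [sum_comm, ← sum_sub_distrib]
    apply sum_le_sum
    intro y _
    rw [← sum_mul]
    have hfy := hf.nonneg y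
    have hfy1 := hf.le_one y
    by_cases h5 : |(oc m y : ℝ) - m / 2| ≤ K0 * √m
    · have h6 : chb K0 m (oc m y) = 0 := by unfold chb; rw [if_pos h5]
      have h7 := abs_le.1 h5
      have h8 := chi_sum_ge (α := α) hw J (oc m y) (by rw [hα]; linarith [h7.1]) (by rw [hα]; linarith [h7.2])
      rw [h6, sub_zero]
      calc f y = 1 * f y := (one_mul _).symm
        _ ≤ _ := mul_le_mul_of_nonneg_right h8 hfy
    · have h6 : chb K0 m (oc m y) = 1 := by unfold chb; rw [if_neg h5]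
      rw [h6]
      have : 0 ≤ (∑ j ∈ range J, chi (α + 4 * w * j) w (oc m y)) * f y :=
        mul_nonneg (sum_nonneg fun j _ => (chi_ind _ w).nonneg _) hfy
      linarith
  have h5 : δ - H / L - (1 / (4 * K0 ^ 2) + 3 * ε₁) ≤
      ∑ j ∈ range J, (∑ X ∈ Ico a (a + (L : ℤ)), sx (chi (α + 4 * w * j) w) f H m X) / L := by
    rw [← sum_div, sum_comm]
    have h6 := mean_share hf hH hL hδ
    have h7 : (∑ X ∈ Ico a (a + (L : ℤ)), ((∑ y ∈ Ico X (X + H), f y) / H - (1 / (4 * K0 ^ 2) + 3 * ε₁))) ≤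
        ∑ X ∈ Ico a (a + (L : ℤ)), ∑ j ∈ range J, sx (chi (α + 4 * w * j) w) f H m X := by
      apply sum_le_sum
      intro X _
      refine le_trans ?_ (h4 X)
      have h8 := (abs_le.1 (Bx_near P hM (chb_ind K0 m) X)).2
      have h9 := chb_Bw hK0 K hm
      linarith
    rw [sum_sub_distrib, sum_const, nsmul_eq_mul, card_Ico'] at h7
    have h8 := div_le_div_of_nonneg_right h7 hLr.le
    rw [sub_div, mul_div_assoc, mul_comm (L : ℝ), div_mul_cancel₀ _ hLr.ne'] at h8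
    linarith
  have h6 : (H : ℝ) / L ≤ δ / 8 := by
    rw [div_le_iff₀ hLr]
    exact hHL
  linarith

end Pool.Agent.H82.ZO
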