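import Pool.Agent.H82.ZO.All
import Pool.Graph.R_seed8.W41.Dens

/-! # Zero-one law in short intervals: the two sides -/

set_option autoImplicit false

namespace Pool.Agent.H82.ZO

open Finset Filter Topology
open Pool.Agent.Q158.Pair (T)
open Pool.Agent.H499R2.ND (Inv HD dens_side Td)
open Pool.Agent.W41 (cF cF_tendsto)

theorem T_eq (x : ℤ) : T x = Td 1 x := rfl

theorem Td_eq (x : ℤ) : Td 1 x = if x % 2 = 0 then x / 2 else (3 * x + 1) / 2 := rfl

/-- positive lower density -/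
theorem dens_low {s : ℤ} (hs : s = 1 ∨ s = -1) {S : Set ℤ} (h : Inv 1 S) {a : ℤ} (haS : a ∈ S) (ha : 0 < s * a) :
    ∃ δ : ℝ, 0 < δ ∧ ∃ N₀ : ℕ, ∀ N : ℕ, N₀ ≤ N → δ * N ≤ cF s S N := by
  obtain ⟨l, -, -, hl⟩ := dens_side (d := 1) odd_one (by norm_num) hs h
  have hl0 := Pool.Agent.H499R2.ND.one_pos hs h haS ha hl
  have h1 := (cF_tendsto hs hl).eventually (lt_mem_nhds (show l / 2 < l by linarith))
  rw [eventually_atTop] at h1
  obtain ⟨N₀, hN₀⟩ := h1
  refine ⟨l / 2, by positivity, N₀ + 1, fun N hN => ?_⟩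
  have hNr : (0 : ℝ) < N := by exact_mod_cast (by omega : 0 < N)
  have h2 := hN₀ N (by omega)
  rw [lt_div_iff₀ hNr] at h2
  exact h2.le

open Classical in
/-- the indicator of the elements of sign `s` -/
noncomputable def fS (s : ℤ) (S : Set ℤ) (x : ℤ) : ℝ := if 0 < s * x ∧ x ∈ S then 1 else 0

theorem fS_ind (s : ℤ) (S : Set ℤ) : Ind (fS s S) := by
  intro x
  unfold fS
  split_ifs
  · exact Or.inr rfl
  · exact Or.inl rfl

theorem fS_one {s : ℤ} {S : Set ℤ} {x : ℤ} : fS s S x = 1 ↔ 0 < s * x ∧ x ∈ S := by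
  unfold fS
  split_ifs with h
  · simp [h]
  · simp [h]

theorem fS_T {s : ℤ} (hs : s = 1 ∨ s = -1) {S : Set ℤ} (h : Inv 1 S) (x : ℤ) : fS s S (T x) = fS s S x := by
  classical
  have h1 : (0 < s * T x ∧ T x ∈ S) ↔ (0 < s * x ∧ x ∈ S) := by
    rw [T_eq, ← h x]
    have := Pool.Agent.H499R2.ND.Td_one_iter_sign hs x 1
    rw [Function.iterate_one] at this
    rw [this]
  unfold fS
  simp only [h1]

theorem sum_one (S : Set ℤ) (N : ℕ) : ∑ x ∈ Ico (1 : ℤ) (1 + N), fS 1 S x = cF 1 S N := by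
  classical
  unfold cF fS
  rw [card_filter]
  push_cast
  refine sum_nbij' (fun x => x.toNat) (fun m => (m : ℤ)) ?_ ?_ ?_ ?_ ?_
  · intro x hx
    rw [mem_Ico] at hx
    rw [mem_Icc]
    omega
  · intro m hm
    rw [mem_Icc] at hm
    rw [mem_Ico]
    omega
  · intro x hx
    rw [mem_Ico] at hx
    show ((x.toNat : ℕ) : ℤ) = x
    omega
  · intro m _
    show ((m : ℤ)).toNat = m
    omega
  · intro x hx
    rw [mem_Ico] at hx
    have e : ((x.toNat : ℕ) : ℤ) = x := by omega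
    rw [e]
    simp only [one_mul]
    apply if_congr _ rfl rfl
    exact ⟨fun h => h.2, fun h => ⟨by omega, h⟩⟩

theorem sum_neg (S : Set ℤ) (N : ℕ) : ∑ x ∈ Ico (-(N : ℤ)) (-N + N), fS (-1) S x = cF (-1) S N := by
  classical
  unfold cF fS
  rw [card_filter]
  push_cast
  refine sum_nbij' (fun x => (-x).toNat) (fun m => -(m : ℤ)) ?_ ?_ ?_ ?_ ?_
  · intro x hx
    rw [mem_Ico] at hx
    rw [mem_Icc]
    omega
  · intro m hm
    rw [mem_Icc] at hm
    rw [mem_Ico]
    omega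
  · intro x hx
    rw [mem_Ico] at hx
    show -(((-x).toNat : ℕ) : ℤ) = x
    omega
  · intro m _
    show (-(-(m : ℤ))).toNat = m
    omega
  · intro x hx
    rw [mem_Ico] at hx
    have e : (((-x).toNat : ℕ) : ℤ) = -x := by omega
    rw [e]
    apply if_congr _ rfl rfl
    rw [show (-1 : ℤ) * -x = x by ring]
    exact ⟨fun h => h.2, fun h => ⟨by omega, h⟩⟩

open Classical in
/-- the windows of sign `s` nearly full at one value of `S` -/
noncomputable def WinS (s : ℤ) (S : Set ℤ) (η : ℝ) (t H N : ℕ) : Finset ℕ :=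
  (Icc 1 N).filter (fun n : ℕ => ∃ v : ℤ, v ∈ S ∧ 0 < s * v ∧
    (1 - η) * H ≤ (((range H).filter (fun h : ℕ => T^[t] (s * ((n : ℤ) + h)) = v)).card : ℝ))

theorem win_one (S : Set ℤ) (η : ℝ) (t H N : ℕ) :
    ((Win (fS 1 S) η t H 1 N).card : ℝ) ≤ (WinS 1 S η t H N).card := by
  classical
  have h : (Win (fS 1 S) η t H 1 N).card ≤ (WinS 1 S η t H N).card := by
    apply card_le_card_of_injOn (fun x => x.toNat)
    · intro x hx
      rw [mem_coe, mem_Win, mem_Ico] at hx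
      obtain ⟨hx1, v, hv, hx2⟩ := hx
      rw [fS_one] at hv
      show x.toNat ∈ (WinS 1 S η t H N : Set ℕ)
      rw [mem_coe]
      unfold WinS
      rw [mem_filter, mem_Icc]
      refine ⟨by omega, v, hv.2, hv.1, ?_⟩
      have e : ((x.toNat : ℕ) : ℤ) = x := by omega
      rw [e]
      simp only [one_mul]
      exact hx2
    · intro x hx y hy hxy
      rw [mem_coe, mem_Win, mem_Ico] at hx hy
      have : x.toNat = y.toNat := hxy
      omega
  exact_mod_cast h

theorem win_neg (S : Set ℤ) (η : ℝ) (t : ℕ) {H : ℕ} (hH : 1 ≤ H) (N : ℕ) :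
    ((Win (fS (-1) S) η t H (-(N : ℤ)) N).card : ℝ) ≤ (WinS (-1) S η t H N).card + H := by
  classical
  have h : ((Win (fS (-1) S) η t H (-(N : ℤ)) N) \ Ico (-(H : ℤ)) 0).card ≤ (WinS (-1) S η t H N).card := by
    apply card_le_card_of_injOn (fun x => (-x - H + 1).toNat)
    · intro x hx
      rw [mem_coe, Finset.mem_sdiff, mem_Win, mem_Ico, mem_Ico] at hx
      obtain ⟨⟨hx1, v, hv, hx2⟩, hx3⟩ := hx
      rw [fS_one] at hv
      show (-x - H + 1).toNat ∈ (WinS (-1) S η t H N : Set ℕ)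
      rw [mem_coe]
      unfold WinS
      rw [mem_filter, mem_Icc]
      refine ⟨by omega, v, hv.2, hv.1, ?_⟩
      unfold NF at hx2
      refine hx2.trans ?_
      have : ((range H).filter (fun h : ℕ => T^[t] (x + h) = v)).card ≤
          ((range H).filter (fun h : ℕ => T^[t] (-1 * ((((-x - H + 1).toNat : ℕ) : ℤ) + h)) = v)).card := by
        apply card_le_card_of_injOn (fun h => H - 1 - h)
        · intro i hi
          rw [mem_coe, mem_filter, mem_range] at hi
          show H - 1 - i ∈ (((range H).filter (fun h : ℕ =>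
            T^[t] (-1 * ((((-x - H + 1).toNat : ℕ) : ℤ) + h)) = v) : Finset ℕ) : Set ℕ)
          rw [mem_coe, mem_filter, mem_range]
          refine ⟨by omega, ?_⟩
          have e : -1 * ((((-x - H + 1).toNat : ℕ) : ℤ) + ((H - 1 - i : ℕ) : ℤ)) = x + i := by
            omega
          rw [e]
          exact hi.2
        · intro i hi j hj hij
          rw [mem_coe, mem_filter, mem_range] at hi hj
          have : H - 1 - i = H - 1 - j := hij
          omega
      exact_mod_cast this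
    · intro x hx y hy hxy
      rw [mem_coe, Finset.mem_sdiff, mem_Win, mem_Ico, mem_Ico] at hx hy
      have : (-x - H + 1).toNat = (-y - H + 1).toNat := hxy
      omega
  have h2 := card_le_card_sdiff_add_card (t := Ico (-(H : ℤ)) 0) (s := Win (fS (-1) S) η t H (-(N : ℤ)) N)
  have h3 : (Ico (-(H : ℤ)) 0).card = H := by
    rw [Int.card_Ico]
    omega
  have h4 : (Win (fS (-1) S) η t H (-(N : ℤ)) N).card ≤ (WinS (-1) S η t H N).card + H := by omega
  exact_mod_cast h4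

/-- every invariant set with an element of sign `s` is nearly full in a positive proportion of the short intervals of
sign `s` -/
theorem side {s : ℤ} (hs : s = 1 ∨ s = -1) {S : Set ℤ} (hS : Inv 1 S) {a : ℤ} (haS : a ∈ S) (ha : 0 < s * a)
    (θ η : ℝ) (hθ0 : 0 < θ) (hθ1 : θ < 1) (hη0 : 0 < η) :
    ∃ p : ℝ, 0 < p ∧ ∃ N₀ : ℕ, ∀ N : ℕ, N₀ ≤ N → ∃ t : ℕ, (t : ℝ) ≤ 8 * Real.log N ∧
      ∀ H : ℕ, 1 ≤ H → (H : ℝ) ≤ (N : ℝ) ^ θ → p * N ≤ ((WinS s S η t H N).card : ℝ) := by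
  obtain ⟨δ, hδ, N₁, h1⟩ := dens_low hs hS haS ha
  obtain ⟨p, hp, N₂, h2⟩ := zoAll δ θ η hδ hθ0 hθ1 hη0
  have hlim2 : Filter.Tendsto (fun N : ℕ => (N : ℝ) ^ (1 - θ)) Filter.atTop Filter.atTop :=
    (tendsto_rpow_atTop (by linarith)).comp tendsto_natCast_atTop_atTop
  have hev := hlim2.eventually_ge_atTop (2 / p)
  rw [eventually_atTop] at hev
  obtain ⟨N₃, h3⟩ := hev
  refine ⟨p / 2, by positivity, N₁ + N₂ + N₃ + 1, fun N hN => ?_⟩
  obtain ⟨t, ht, h4⟩ := h2 N (by omega)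
  refine ⟨t, ht, fun H hH1 hH2 => ?_⟩
  have hNr : (1 : ℝ) ≤ N := by exact_mod_cast (by omega : 1 ≤ N)
  have h5 := h1 N (by omega)
  have hHp : (H : ℝ) ≤ p / 2 * N := by
    refine hH2.trans ?_
    have e : (N : ℝ) = (N : ℝ) ^ θ * (N : ℝ) ^ (1 - θ) := by
      rw [← Real.rpow_add (by linarith)]
      norm_num
    have h7 : 1 ≤ p / 2 * (N : ℝ) ^ (1 - θ) := by
      have := h3 N (by omega)
      rw [div_le_iff₀ hp] at this
      linarith
    calc (N : ℝ) ^ θ = (N : ℝ) ^ θ * 1 := (mul_one _).symm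
      _ ≤ (N : ℝ) ^ θ * (p / 2 * (N : ℝ) ^ (1 - θ)) := mul_le_mul_of_nonneg_left h7 (by positivity)
      _ = p / 2 * ((N : ℝ) ^ θ * (N : ℝ) ^ (1 - θ)) := by ring
      _ = p / 2 * N := by rw [← e]
  rcases hs with rfl | rfl
  · have h6 := h4 1 (fS 1 S) (fS_ind 1 S) (fS_T (Or.inl rfl) hS) (by rw [sum_one]; exact h5) H hH1 hH2
    have h7 := win_one S η t H N
    have : 0 ≤ p * (N : ℝ) := by positivity
    linarith
  · have h6 := h4 (-N) (fS (-1) S) (fS_ind (-1) S) (fS_T (Or.inr rfl) hS) (by rw [sum_neg]; exact h5) H hH1 hH2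
    have h7 := win_neg S η t hH1 N
    linarith

end Pool.Agent.H82.ZO
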