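import Pool.Agent.H82.ZO.Avg

/-! # Zero-one law in short intervals: one step -/

set_option autoImplicit false

namespace Pool.Agent.H82.ZO

open Finset
open Pool.Agent.Q74.KP
open Pool.Agent.Q74.SF
open Pool.Agent.Q74.BH
open Pool.Agent.Q74.AR (oc bE bE_mono bE_mul bE_sq bE_const)
open Pool.Agent.Q158.Pair (T)
open Pool.Agent.Q158.Col4 (cI)

variable {k : ℕ}

theorem avg_const {L : ℕ} (hL : 1 ≤ L) (a : ℤ) {φ : ℤ → ℝ} {c : ℝ} (h : ∀ x, φ x ≤ c) :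
    (∑ x ∈ Ico a (a + (L : ℤ)), φ x) / L ≤ c := by
  have hLr : (0 : ℝ) < L := by exact_mod_cast hL
  rw [div_le_iff₀ hLr]
  have := sum_le_sum (s := Ico a (a + (L : ℤ))) fun x _ => h x
  rw [sum_const, nsmul_eq_mul, card_Ico'] at this
  linarith

/-- the good blocks of one range of levels -/
theorem blocks {ε₁ K K0 δ w c3 ζ : ℝ} {H m μ r N J k : ℕ} (P : Pk ε₁ K H m μ)
    (hN : 1 ≤ N) (hm : 1 ≤ m) {f : ℤ → ℝ} (hf : Ind f) (hT : ∀ x, f (T x) = f x) {a : ℤ} (hδ0 : 0 < δ) (hδ1 : δ ≤ 1)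
    (hδ : δ * N ≤ ∑ x ∈ Ico a (a + N), f x)
    (hHL : (H : ℝ) ≤ δ / 8 * N) (hK0 : 0 < K0) (hK0δ : 1 / (4 * K0 ^ 2) ≤ δ / 8) (hw : 0 < w) (hJ : 1 ≤ J)
    (hJw : 2 * (K0 * √m) < 4 * w * J)
    (hsz : ∀ o₀ ∈ Typ K m, (2 : ℝ) ^ m * (3 ^ μ * 2 ^ r) / 3 ^ o₀ ≤ ε₁ * N)
    (hin : ∀ o ∈ Fintype.piFinset (fun _ : Fin (k + 1) => Typ K m), ∀ x : ℤ,
      ∀ z ∈ Fintype.piFinset (fun i => Jw m (o i) H x), ∀ o₀ : ℕ, (∀ i, o₀ ≤ o i) →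
      |(∑ w ∈ range (2 ^ r), Ph (fun _ => (0 : Fin (k + 1))) (fun _ => 1)
        (fut r o (fun i => z i + 3 ^ (o i - o₀) * (3 ^ μ * w : ℕ)))) / 2 ^ r -
        CG (Fm (fun _ => (0 : Fin (k + 1))) (fun _ => 1)) r (fun i => (o i : ℤ))| ≤ ε₁)
    (hc3 : ∀ (α : ℝ) (o : Fin (k + 1) → ℕ), (∀ i, chi α w (o i) = 1) →
      1 - c3 ≤ CG (Fm (fun _ => (0 : Fin (k + 1))) (fun _ => 1)) r (fun i => (o i : ℤ)))
    (q1 : c3 ≤ δ / 16) (q2 : (1 - ζ) ^ (k + 1) ≤ δ / 16) (hζ : 0 ≤ ζ)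
    (q3 : ((k : ℝ) + 1) * (3 * ε₁) ≤ δ / (16 * J) / 8)
    (q4 : 2 ^ (k + 1) * (4 * (k + 1 : ℕ) + 3) * ε₁ ≤ δ / 16 * (δ / (16 * J)) ^ (k + 1)) :
    ∃ j : ℕ, j < J ∧ ∃ 𝒢 : Finset ℤ, 𝒢 ⊆ Ico a (a + N) ∧ δ / 8 * N ≤ 𝒢.card ∧
      ∀ X ∈ 𝒢, ∑ y ∈ Ico X (X + H), chi (m / 2 - K0 * √m + 4 * w * j) w (oc m y) * (1 - f y) ≤ (ζ + 3 * ε₁) * H := by
  have hJr : (1 : ℝ) ≤ J := by exact_mod_cast hJ
  have hε0 := P.eps0
  set B0 : ℝ := δ / (16 * J) with hB0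
  have hB0p : 0 < B0 := by positivity
  have hB0δ : B0 ≤ δ / 16 := by
    rw [hB0]
    apply div_le_div_of_nonneg_left hδ0.le (by norm_num)
    linarith
  have hkr : (0 : ℝ) ≤ k := Nat.cast_nonneg k
  have h3ε : 3 * ε₁ ≤ B0 / 8 := by
    refine le_trans ?_ q3
    nlinarith
  obtain ⟨j, hj, hA⟩ := select (J := J) P mass hN hm hf hδ0 hδ hHL hK0 hK0δ hw hJ hJw (by linarith)
  set χ := chi (m / 2 - K0 * √m + 4 * w * j) w with hχd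
  have hχ : Ind χ := chi_ind _ _
  have hBx : ∀ X, |Bx χ H m X - Bw χ K m| ≤ 3 * ε₁ := fun X => Bx_near P mass hχ X
  -- the weight of the range
  have hBle : (∑ X ∈ Ico a (a + (N : ℤ)), sx χ f H m X) / N ≤ Bw χ K m + 3 * ε₁ :=
    avg_const hN a fun X => by
      have h1 := sx_le_Bx hχ hf H m X
      have h2 := (abs_le.1 (hBx X)).2
      linarith
  have hB1 := Bw_le_one hχ K m
  have hBnn := Bw_nonneg hχ K m
  have hBlow : B0 ≤ Bw χ K m := by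
    have e : δ / (8 * J) = 2 * B0 := by
      rw [hB0]
      field_simp
      norm_num
    rw [e] at hA
    have : 0 ≤ δ / 2 * Bw χ K m := by positivity
    linarith
  have hBp : 0 < Bw χ K m := by linarith
  have hmean := blocks_mean (k := k) P mass Pool.Agent.Q195.BH.ProdK.prodK Pool.Agent.Q241.BH.shift hN hsz a hχ hf hT
    hin (fun o ho => hc3 _ o ho)
  have hA' : δ / 2 * Bw χ K m ≤ (∑ X ∈ Ico a (a + (N : ℤ)), sx χ f H m X) / N := by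
    have : 0 ≤ δ / (8 * J) := by positivity
    linarith
  have h1 := good_many (k := k) (ζ := ζ) (δ₂ := δ / 2) (c3 := c3) (D := 2 ^ (k + 1) * (4 * (k + 1 : ℕ) + 3)) hχ hf hN
    (by positivity) hBp hBx hmean hA' (by linarith) (by linarith) (by
      have : (k : ℝ) * (3 * ε₁) ≤ ((k : ℝ) + 1) * (3 * ε₁) := by nlinarith
      linarith) (by linarith) (by
      refine q4.trans ?_
      have h2 : B0 ^ (k + 1) ≤ Bw χ K m ^ (k + 1) := pow_le_pow_left₀ hB0p.le hBlow _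
      calc δ / 16 * B0 ^ (k + 1) ≤ δ / 16 * Bw χ K m ^ (k + 1) := mul_le_mul_of_nonneg_left h2 (by positivity)
        _ = δ / 2 / 8 * Bw χ K m ^ (k + 1) := by ring) (by
      have e : Bw χ K m + 3 * ε₁ = Bw χ K m * (1 + 3 * ε₁ / Bw χ K m) := by field_simp
      rw [e, mul_pow, mul_comm]
      apply mul_le_mul_of_nonneg_right _ (pow_nonneg hBp.le _)
      have h2 : (1 + 3 * ε₁ / Bw χ K m) ^ (k + 1) ≤ Real.exp (1 / 8) := by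
        have h3 : 1 + 3 * ε₁ / Bw χ K m ≤ Real.exp (3 * ε₁ / Bw χ K m) := by
          have := Real.add_one_le_exp (3 * ε₁ / Bw χ K m)
          linarith
        refine (pow_le_pow_left₀ (by positivity) h3 _).trans ?_
        rw [← Real.exp_nat_mul]
        apply Real.exp_le_exp.2
        rw [mul_div_assoc', div_le_iff₀ hBp]
        push_cast
        linarith
      have h4 : Real.exp (1 / 8) ≤ 2 := by
        have h5 : Real.exp (1 / 8) ≤ Real.exp (Real.log 2) := Real.exp_le_exp.2 (by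
          have := Real.log_two_gt_d9
          linarith)
        rwa [Real.exp_log (by norm_num)] at h5
      linarith)
  refine ⟨j, hj, Gd χ f K ζ H m a N, ?_, ?_, ?_⟩
  · classical
    unfold Gd
    exact filter_subset _ _
  · have e : δ / 2 / 4 * (N : ℝ) = δ / 8 * N := by ring
    rw [e] at h1
    exact h1
  · intro X hX
    exact good_block P.hH hζ hB1 (hBx X) hX

/-- one step -/
theorem step {ε₁ K K0 K' δ η ω c3 ζ β : ℝ} {H m μ H1 m1 μ1 r1 r2 R N J k k' : ℕ}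
    (P : Pk ε₁ K H m μ) (P1 : Pk ε₁ K H1 m1 μ1) (hK : 0 < K) (hKe : 1 / K ^ 2 = ε₁)
    (hN : 1 ≤ N) (hmm : m1 = m + r1 + r2) (hr1 : 1 ≤ r1) (hr2 : (r2 : ℝ) ≤ 10 * r1)
    {f : ℤ → ℝ} (hf : Ind f) (hT : ∀ x, f (T x) = f x) {a : ℤ} (hδ0 : 0 < δ) (hδ1 : δ ≤ 1)
    (hδ : δ * N ≤ ∑ x ∈ Ico a (a + N), f x) (hη1 : η < 1) (hω : ω = 10 / δ)
    (hHL : (H1 : ℝ) ≤ δ / 8 * N) (hK0 : 0 < K0) (hK0δ : 1 / (4 * K0 ^ 2) ≤ δ / 8) (hJ : 1 ≤ J)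
    (hJw : 2 * (K0 * √m1) < 4 * (ω * √r1) * J)
    (hK' : K0 * √m1 + 4 * (ω * √r1) * J + 2 * (ω * √r1) ≤ K' * √r1)
    (s1 : ∀ o₀ ∈ Typ K m, (2 : ℝ) ^ m * (3 ^ μ * 2 ^ (r1 + 0)) / 3 ^ o₀ ≤ ε₁ * H1)
    (s2 : ∀ o₀ ∈ Typ K m, (2 : ℝ) ^ m * (3 ^ μ * 2 ^ (r1 + r2)) / 3 ^ o₀ ≤ ε₁ * N)
    (s3 : ∀ o₀ ∈ Typ K m1, (2 : ℝ) ^ m1 * (3 ^ μ1 * 2 ^ (R * r1)) / 3 ^ o₀ ≤ ε₁ * N)
    (i1 : ∀ o ∈ Fintype.piFinset (fun _ : Fin (k + 1) => Typ K m), ∀ x : ℤ,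
      ∀ z ∈ Fintype.piFinset (fun i => Jw m (o i) H x), ∀ o₀ : ℕ, (∀ i, o₀ ≤ o i) → ∀ (c : ℝ) (r2' : ℕ) (φ : ℕ → ℝ),
      (∀ j, |φ j| ≤ 1) →
      |(∑ w ∈ range (2 ^ (r1 + r2')), Ph (fun _ => (0 : Fin (k + 1))) (fun z => tent c (ω * √r1) (z 0))
          (fut r1 o (fun i => z i + 3 ^ (o i - o₀) * (3 ^ μ * w : ℕ))) *
        φ (oc r2' (T^[r1] (z 0 + 3 ^ (o 0 - o₀) * (3 ^ μ * w : ℕ))))) / 2 ^ (r1 + r2') -
      CG (Fm (fun _ => (0 : Fin (k + 1))) (fun z => tent c (ω * √r1) (z 0))) r1 (fun i => (o i : ℤ)) * bE r2' φ| ≤ ε₁)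
    (i3 : ∀ o ∈ Fintype.piFinset (fun _ : Fin (k' + 1) => Typ K m1), ∀ x : ℤ,
      ∀ z ∈ Fintype.piFinset (fun i => Jw m1 (o i) H1 x), ∀ o₀ : ℕ, (∀ i, o₀ ≤ o i) →
      |(∑ w ∈ range (2 ^ (R * r1)), Ph (fun _ => (0 : Fin (k' + 1))) (fun _ => 1)
        (fut (R * r1) o (fun i => z i + 3 ^ (o i - o₀) * (3 ^ μ1 * w : ℕ)))) / 2 ^ (R * r1) -
        CG (Fm (fun _ => (0 : Fin (k' + 1))) (fun _ => 1)) (R * r1) (fun i => (o i : ℤ))| ≤ ε₁)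
    (hc3 : ∀ (α : ℝ) (o : Fin (k' + 1) → ℕ), (∀ i, chi α (ω * √r1) (o i) = 1) →
      1 - c3 ≤ CG (Fm (fun _ => (0 : Fin (k' + 1))) (fun _ => 1)) (R * r1) (fun i => (o i : ℤ)))
    (hW : ∀ c : ℝ, |c - ((m : ℝ) + r1) / 2| ≤ K' * √r1 → β ≤ WW k m r1 (tent c (ω * √r1)))
    (hβ : 0 ≤ β)
    (q1 : c3 ≤ δ / 16) (q2 : (1 - ζ) ^ (k' + 1) ≤ δ / 16) (hζ : 0 ≤ ζ)
    (q3 : ((k' : ℝ) + 1) * (3 * ε₁) ≤ δ / (16 * J) / 8)
    (q4 : 2 ^ (k' + 1) * (4 * (k' + 1 : ℕ) + 3) * ε₁ ≤ δ / 16 * (δ / (16 * J)) ^ (k' + 1))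
    (q5 : ζ + 3 * ε₁ + err (k + 1) ε₁ + H / H1 ≤ β / 16) (q6 : err (k + 1) ε₁ ≤ δ * β / 128)
    (q7 : 2 * H1 / N ≤ δ * β / 128) (q8 : (1 - η) ^ k ≤ δ * β / 64) :
    δ * β / 32 * N ≤ ((Win f η (m + r1) H a N).card : ℝ) := by
  have hr1r : (1 : ℝ) ≤ r1 := by exact_mod_cast hr1
  have hs : 0 < √(r1 : ℝ) := Real.sqrt_pos.2 (by linarith)
  have hωp : 0 < ω := by rw [hω]; positivity
  have hNr : (0 : ℝ) < N := by exact_mod_cast hN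
  set w : ℝ := ω * √(r1 : ℝ) with hw
  have hwp : 0 < w := mul_pos hωp hs
  have hw2 : w ^ 2 = ω ^ 2 * r1 := by rw [hw, mul_pow, Real.sq_sqrt (by linarith)]
  obtain ⟨j, hj, 𝒢, h𝒢, hcard, hX⟩ := blocks (k := k') (r := R * r1) P1 hN (by omega) hf hT hδ0 hδ1 hδ hHL hK0 hK0δ hwp hJ
    hJw s3 i3 hc3 q1 q2 hζ q3 q4
  set c : ℝ := m1 / 2 - K0 * √m1 + 4 * w * j - r2 / 2 + 2 * w with hc
  have ecw : c + r2 / 2 - 2 * w = m1 / 2 - K0 * √m1 + 4 * w * j := by rw [hc]; ring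
  have hcK : |c - ((m : ℝ) + r1) / 2| ≤ K' * √(r1 : ℝ) := by
    have e : c - ((m : ℝ) + r1) / 2 = 4 * w * j + 2 * w - K0 * √m1 := by
      rw [hc, hmm]
      push_cast
      ring
    rw [e]
    have hjJ : (j : ℝ) ≤ J := by exact_mod_cast hj.le
    have h1 : 4 * w * j ≤ 4 * w * J := mul_le_mul_of_nonneg_left hjJ (by positivity)
    have h2 : 0 ≤ 4 * w * (j : ℝ) := by positivity
    have h3 : 0 ≤ K0 * √(m1 : ℝ) := by positivity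
    rw [abs_le]
    constructor <;> linarith
  set G0 : ℤ → ℝ := tent c w with hG0
  have hG0n : ∀ l, 0 ≤ G0 l := tent_nonneg c w
  have hG01 : ∀ l, G0 l ≤ 1 := tent_le_one hwp c
  have hWβ := hW c hcK
  obtain ⟨hW0, hW1⟩ := WW_01 hG0n hG01 k m r1
  set W : ℝ := WW k m r1 G0 with hWd
  -- the first average
  have hE1 : ∀ X : ℤ, W - err (k + 1) ε₁ ≤ (∑ x ∈ Ico X (X + H1), ∑ h : Fin (k + 1) → Fin H, Ev G0 m r1 x h) /
      (H1 * (H : ℝ) ^ (k + 1)) := by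
    intro X
    have h1 := E12 (r2 := 0) (φ := fun _ => 1) P hK hKe P1.hH s1 X hG0n hG01 (fun _ => zero_le_one) (fun _ => le_rfl)
      (fun o ho x z hz o₀ ho₀ => i1 o ho x z hz o₀ ho₀ c 0 (fun _ => 1) (fun j => by rw [abs_one]))
    rw [bE_const, mul_one] at h1
    simp only [mul_one] at h1
    linarith [(abs_le.1 h1).1]
  -- the second average
  set b : ℝ := bE r2 (far r2 w) with hb
  have hE2 : (∑ x ∈ Ico a (a + N), ∑ h : Fin (k + 1) → Fin H, Ev G0 m r1 x h *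
      far r2 w (oc r2 (T^[r1] (Z0 m x h 0)))) / (N * (H : ℝ) ^ (k + 1)) ≤ W * b + err (k + 1) ε₁ := by
    have h1 := E12 (r2 := r2) (φ := far r2 w) P hK hKe hN s2 a hG0n hG01 (fun j => (far_ind r2 w).nonneg j)
      (fun j => (far_ind r2 w).le_one j)
      (fun o ho x z hz o₀ ho₀ => i1 o ho x z hz o₀ ho₀ c r2 (far r2 w) (fun j => (far_ind r2 w).abs j))
    linarith [(abs_le.1 h1).2]
  have hbδ : b ≤ δ / 32 := by
    refine (far_le r2 hwp).trans ?_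
    rw [hw2, hω, div_pow, div_le_iff₀ (by positivity)]
    have h1 : 10 * δ ≤ (10 : ℝ) * 1 := by linarith
    have e : δ / 32 * (4 * (10 ^ 2 / δ ^ 2 * r1)) = 12.5 * r1 / δ := by
      field_simp
      norm_num
    rw [e, le_div_iff₀ hδ0]
    have h2 : (r2 : ℝ) * δ ≤ 10 * r1 * 1 := mul_le_mul hr2 hδ1 hδ0.le (by positivity)
    linarith
  have hHH1 : 0 ≤ (H : ℝ) / H1 := by positivity
  have hcomb := comb (k := k) (w := w) (c := c) hG0n hG01 (fun l hl => tent_ne hwp c l hl) hf P.hH P1.hH hN m r1 r2 a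
    (W := W) (b := b) (e := err (k + 1) ε₁) (g := δ / 8) (ζ := ζ + 3 * ε₁) 𝒢 h𝒢 hcard (by
      intro X hXg
      rw [ecw, ← hmm]
      exact hX X hXg) hE1 hE2 (by linarith)
  have hwin := win_count (k := k) (G0 := G0) hG0n hG01 hf hT P.hH hN m r1 a hη1
  have h1 := hcomb.trans hwin
  have h2 : W * b ≤ W * (δ / 32) := mul_le_mul_of_nonneg_left hbδ hW0
  have h3 : δ / 8 * (ζ + 3 * ε₁ + err (k + 1) ε₁ + H / H1) ≤ δ / 8 * (β / 16) :=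
    mul_le_mul_of_nonneg_left q5 (by positivity)
  have h4 : δ * β ≤ δ * W := mul_le_mul_of_nonneg_left hWβ hδ0.le
  have h5 : δ / 8 * (W - err (k + 1) ε₁ - (ζ + 3 * ε₁) - H / H1) =
      δ * W / 8 - δ / 8 * (ζ + 3 * ε₁ + err (k + 1) ε₁ + H / H1) := by ring
  have h6 : W * (δ / 32) = δ * W / 32 := by ring
  have h7 : δ * β / 32 ≤ ((Win f η (m + r1) H a N).card : ℝ) / N := by
    rw [h5] at h1
    have : δ / 8 * (β / 16) = δ * β / 128 := by ring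
    have hδβ : 0 ≤ δ * β := by positivity
    linarith
  rw [le_div_iff₀ hNr] at h7
  exact h7

end Pool.Agent.H82.ZO
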