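import Pool.Agent.H82.ZO.Side

/-! # The Syracuse map on the negative odd integers -/

set_option autoImplicit false

namespace Pool.Agent.H82.ZO

open Finset
open Pool.Agent.Q74.AR (oc oc_succ)
open Pool.Agent.Q158.Pair (T)

/-- The Syracuse map: `(3 x + 1) / 2 ^ v`, where `2 ^ v` is the exact power of two in `3 x + 1`. -/
def Syr (x : ℤ) : ℤ := (3 * x + 1) / 2 ^ padicValInt 2 (3 * x + 1)

/-- The Syracuse orbits of `x` and `y` meet. -/
def SMeet (x y : ℤ) : Prop := ∃ i j : ℕ, Syr^[i] x = Syr^[j] y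

/-- the odd part -/
def odp (x : ℤ) : ℤ := x / 2 ^ padicValInt 2 x

theorem Syr_odp (x : ℤ) : Syr x = odp (3 * x + 1) := rfl

theorem odp_odd {x : ℤ} (h : x % 2 = 1) : odp x = x := by
  unfold odp
  rw [padicValInt.eq_zero_of_not_dvd (by
    push_cast
    omega), pow_zero, Int.ediv_one]

theorem odp_two {x : ℤ} (h : x ≠ 0) : odp (2 * x) = odp x := by
  have : Fact (Nat.Prime 2) := ⟨Nat.prime_two⟩
  unfold odp
  have h1 : padicValInt 2 (2 * x) = padicValInt 2 x + 1 := by
    have := padicValInt_mul_eq_succ (p := 2) x h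
    push_cast at this
    rw [mul_comm]
    exact this
  rw [h1, pow_succ', Int.mul_ediv_mul_of_pos _ _ (by norm_num)]

theorem odp_facts : ∀ (n : ℕ) (x : ℤ), x.natAbs ≤ n → x < 0 → odp x % 2 = 1 ∧ odp x < 0 := by
  intro n
  induction n with
  | zero =>
    intro x h1 h2
    omega
  | succ n ih =>
    intro x h1 h2
    rcases Int.emod_two_eq_zero_or_one x with h | h
    · obtain ⟨y, rfl⟩ : ∃ y, x = 2 * y := ⟨x / 2, by omega⟩
      rw [odp_two (by omega)]
      exact ih y (by omega) (by omega)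
    · rw [odp_odd h]
      exact ⟨h, h2⟩

theorem odp_neg {x : ℤ} (h : x < 0) : odp x % 2 = 1 ∧ odp x < 0 := odp_facts _ x le_rfl h

theorem T_neg {x : ℤ} (h : x < 0) : T x < 0 := by
  unfold Pool.Agent.Q158.Pair.T
  split_ifs <;> omega

theorem odp_T_even {x : ℤ} (hx : x < 0) (h : x % 2 = 0) : odp (T x) = odp x := by
  obtain ⟨y, rfl⟩ : ∃ y, x = 2 * y := ⟨x / 2, by omega⟩
  have : T (2 * y) = y := by
    unfold Pool.Agent.Q158.Pair.T
    rw [if_pos h]
    omega
  rw [this, odp_two (by omega)]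

theorem odp_T_odd {x : ℤ} (hx : x < 0) (h : x % 2 = 1) : odp (T x) = Syr x := by
  have h1 : 3 * x + 1 = 2 * T x := by
    unfold Pool.Agent.Q158.Pair.T
    rw [if_neg (by omega)]
    omega
  rw [Syr_odp, h1, odp_two]
  have := T_neg hx
  omega

/-- the odd part of `T^t x` is the Syracuse iterate of order the number of odd steps -/
theorem odp_T_iter (t : ℕ) : ∀ x : ℤ, x < 0 → ∃ k : ℕ, k ≤ t ∧ odp (T^[t] x) = Syr^[k] (odp x) := by
  induction t with
  | zero => intro x _; exact ⟨0, le_rfl, rfl⟩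
  | succ t ih =>
    intro x hx
    obtain ⟨k, hk, h⟩ := ih (T x) (T_neg hx)
    rw [Function.iterate_succ_apply, h]
    rcases Int.emod_two_eq_zero_or_one x with h1 | h1
    · rw [odp_T_even hx h1]
      exact ⟨k, by omega, rfl⟩
    · rw [odp_T_odd hx h1]
      refine ⟨k + 1, by omega, ?_⟩
      rw [Function.iterate_succ_apply, odp_odd h1]

theorem smeet_Syr (x y : ℤ) : SMeet x y ↔ SMeet (Syr x) y := by
  constructor
  · rintro ⟨i, j, h⟩
    rcases i with _ | i
    · refine ⟨0, j + 1, ?_⟩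
      rw [Function.iterate_succ_apply', ← h]
      rfl
    · exact ⟨i, j, by rwa [Function.iterate_succ_apply] at h⟩
  · rintro ⟨i, j, h⟩
    exact ⟨i + 1, j, by rwa [Function.iterate_succ_apply]⟩

/-- a set of negative odd integers, extended to all negative integers -/
def ext (S : Set ℤ) : Set ℤ := {x | x < 0 ∧ odp x ∈ S}

theorem ext_inv {S : Set ℤ} (hS : ∀ x : ℤ, x < 0 → x % 2 = 1 → (x ∈ S ↔ Syr x ∈ S)) :
    Pool.Agent.H499R2.ND.Inv 1 (ext S) := by
  intro x
  show (x < 0 ∧ odp x ∈ S) ↔ (T x < 0 ∧ odp (T x) ∈ S)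
  rcases lt_or_ge x 0 with hx | hx
  · have hT := T_neg hx
    rcases Int.emod_two_eq_zero_or_one x with h | h
    · rw [odp_T_even hx h]
      exact ⟨fun h1 => ⟨hT, h1.2⟩, fun h1 => ⟨hx, h1.2⟩⟩
    · rw [odp_T_odd hx h, odp_odd h, hS x hx h]
      exact ⟨fun h1 => ⟨hT, h1.2⟩, fun h1 => ⟨hx, h1.2⟩⟩
  · have h1 : ¬ T x < 0 := by
      unfold Pool.Agent.Q158.Pair.T
      split_ifs <;> omega
    constructor
    · intro h
      omega
    · intro h
      exact absurd h.1 h1

end Pool.Agent.H82.ZO
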